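import Pool.Agent.SSP.Targets

/-!
# MP_d74fca_nt, p-adic part (helper22): residue field of the algebraic closure of `ℚ_p` (helper4)
-/

open Polynomial

namespace SSP

open SSA

namespace PLC_

variable (p : ℕ) [Fact p.Prime]

/-- the valuation ring -/
noncomputable abbrev VV : ValuationSubring (PadicAlgCl p) :=
  (PadicAlgCl.valued p).v.valuationSubring

lemma mem_VV (x : PadicAlgCl p) : x ∈ VV p ↔ ‖x‖ ≤ 1 := by
  rw [Valuation.mem_valuationSubring_iff, PadicAlgCl.valuation_def]
  rw [← NNReal.coe_le_coe]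
  simp

/-- the residue field -/
abbrev kk : Type := IsLocalRing.ResidueField (VV p)

open Classical in
/-- the reduction map -/
noncomputable def red (x : PadicAlgCl p) : kk p :=
  if h : x ∈ VV p then IsLocalRing.residue (VV p) ⟨x, h⟩ else 0

lemma red_of {x : PadicAlgCl p} (h : x ∈ VV p) :
    red p x = IsLocalRing.residue (VV p) ⟨x, h⟩ := by
  unfold red
  rw [dif_pos h]

lemma isUnit_iff (x : VV p) : IsUnit x ↔ ‖(x : PadicAlgCl p)‖ = 1 := by
  constructor
  · intro h
    obtain ⟨y, hy⟩ := h.exists_right_inv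
    have h1 : (x : PadicAlgCl p) * (y : PadicAlgCl p) = 1 := congrArg Subtype.val hy
    have h2 : ‖(x : PadicAlgCl p)‖ * ‖(y : PadicAlgCl p)‖ = 1 := by
      rw [← norm_mul, h1, norm_one]
    have h3 := (mem_VV p _).mp x.2
    have h4 := (mem_VV p _).mp y.2
    refine le_antisymm h3 ?_
    nlinarith [norm_nonneg (x : PadicAlgCl p), norm_nonneg (y : PadicAlgCl p)]
  · intro h
    have hx0 : (x : PadicAlgCl p) ≠ 0 := by
      intro h0
      rw [h0, norm_zero] at h
      exact zero_ne_one h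
    have hm : (x : PadicAlgCl p)⁻¹ ∈ VV p := by
      rw [mem_VV, norm_inv, h]
      norm_num
    refine IsUnit.of_mul_eq_one ⟨_, hm⟩ ?_
    apply Subtype.ext
    exact mul_inv_cancel₀ hx0

lemma red_zero (x : PadicAlgCl p) (hx : ‖x‖ ≤ 1) : red p x = 0 ↔ ‖x‖ < 1 := by
  have h := (mem_VV p x).mpr hx
  rw [red_of p h, IsLocalRing.residue_eq_zero_iff, IsLocalRing.mem_maximalIdeal, mem_nonunits_iff,
    isUnit_iff]
  constructor
  · intro h1
    exact lt_of_le_of_ne hx h1
  · intro h1
    exact h1.ne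

lemma norm_p_lt : ‖((p : ℕ) : PadicAlgCl p)‖ < 1 := by
  have h1 : ((p : ℕ) : PadicAlgCl p) = algebraMap ℚ_[p] (PadicAlgCl p) ((p : ℕ) : ℚ_[p]) := by
    simp
  rw [h1, PadicAlgCl.norm_extends]
  exact Padic.norm_p_lt_one

lemma charP_kk : CharP (kk p) p := by
  rw [CharP.charP_iff_prime_eq_zero (Fact.out : p.Prime)]
  have h1 : ((p : ℕ) : PadicAlgCl p) ∈ VV p := (mem_VV p _).mpr (norm_p_lt p).le
  have h2 := (red_zero p ((p : ℕ) : PadicAlgCl p) (norm_p_lt p).le).mpr (norm_p_lt p)
  rw [red_of p h1] at h2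
  have h3 : (⟨((p : ℕ) : PadicAlgCl p), h1⟩ : VV p) = ((p : ℕ) : VV p) := by
    apply Subtype.ext
    simp
  rw [h3, map_natCast] at h2
  exact h2

lemma isAlgClosed_kk : IsAlgClosed (kk p) := by
  apply IsAlgClosed.of_exists_root
  intro f hf hirr
  have hs : Function.Surjective (IsLocalRing.residue (VV p)) := IsLocalRing.residue_surjective
  have hl : f ∈ Polynomial.lifts (IsLocalRing.residue (VV p)) := by
    rw [Polynomial.mem_lifts]
    exact Polynomial.map_surjective _ hs f
  obtain ⟨q, hq1, hq2, hq3⟩ := Polynomial.lifts_and_natDegree_eq_and_monic hl hf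
  have hdeg : (q.map (algebraMap (VV p) (PadicAlgCl p))).degree ≠ 0 := by
    rw [hq3.degree_map]
    intro h0
    have h1 : q.natDegree = 0 := Polynomial.natDegree_eq_zero_iff_degree_le_zero.mpr h0.le
    rw [hq2] at h1
    have h2 := hirr.natDegree_pos
    omega
  obtain ⟨x, hx⟩ := IsAlgClosed.exists_root _ hdeg
  have hint : IsIntegral (VV p) x := by
    refine ⟨q, hq3, ?_⟩
    rw [Polynomial.IsRoot.def, Polynomial.eval_map] at hx
    exact hx
  obtain ⟨y, hy⟩ := IsIntegrallyClosed.isIntegral_iff.mp hint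
  refine ⟨IsLocalRing.residue (VV p) y, ?_⟩
  have hy0 : q.eval y = 0 := by
    have h1 : algebraMap (VV p) (PadicAlgCl p) (q.eval y) = 0 := by
      rw [Polynomial.IsRoot.def, ← hy, Polynomial.eval_map, Polynomial.eval₂_at_apply] at hx
      exact hx
    exact (map_eq_zero_iff _ (IsFractionRing.injective (VV p) (PadicAlgCl p))).mp h1
  rw [← hq1, Polynomial.eval_map, Polynomial.eval₂_at_apply, hy0, map_zero]

end PLC_

open PLC_ in
theorem p_PLC : T_PLC := by
  intro p _
  have : CharP (kk p) p := charP_kk p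
  have : IsAlgClosed (kk p) := isAlgClosed_kk p
  refine ⟨⟨kk p, red p, ?_, ?_, ?_, ?_, ?_⟩⟩
  · intro x y hx hy
    have hx' := (mem_VV p x).mpr hx
    have hy' := (mem_VV p y).mpr hy
    rw [red_of p hx', red_of p hy', red_of p (add_mem hx' hy'), ← map_add]
    rfl
  · intro x y hx hy
    have hx' := (mem_VV p x).mpr hx
    have hy' := (mem_VV p y).mpr hy
    rw [red_of p hx', red_of p hy', red_of p (mul_mem hx' hy'), ← map_mul]
    rfl
  · rw [red_of p (one_mem (VV p))]
    exact map_one _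
  · intro x hx
    exact red_zero p x hx
  · intro y
    obtain ⟨x, rfl⟩ := IsLocalRing.residue_surjective y
    refine ⟨x, (mem_VV p _).mp x.2, ?_⟩
    rw [red_of p x.2]

end SSP
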