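import Pool.Agent.SSA.Defs

/-!
# MP_d74fca_nt, p-adic part (helper22): definitions
-/

open Polynomial

namespace SSP

open SSA

/-- coefficient `a = -3j(j-1728)` of the model `y^2 = x^3+ax+b` with invariant `j` -/
def aj {R : Type} [CommRing R] (j : R) : R := -3 * j * (j - 1728)

/-- coefficient `b = -2j(j-1728)^2` -/
def bj {R : Type} [CommRing R] (j : R) : R := -2 * j * (j - 1728) ^ 2

/-- `j` is the invariant of a curve with an endomorphism `α`, `α^2 = -ℓ` -/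
def CMD (k : Type) [Field k] (j : k) (ℓ : ℕ) : Prop :=
  j ≠ 0 ∧ j ≠ 1728 ∧ ∃ c : k, c ^ 2 = -(ℓ : k) ∧ ∃ α : MM (aj j) (bj j),
    DD α = RatFunc.C c ∧ (xr α).denom.natDegree < (xr α).num.natDegree ∧
    rcomp (xr α) (xr α) = xr (ℓ • idM (aj j) (bj j)) ∧
    rcomp (xr (idM (aj j) (bj j) + α)) (xr (idM (aj j) (bj j) - α)) =
      xr ((ℓ + 1) • idM (aj j) (bj j))

/-- a place of the algebraic closure of `ℚ_p`: reduction map to the residue field -/
structure Plc (p : ℕ) [Fact p.Prime] where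
  /-- residue field -/
  k : Type
  [fk : Field k]
  [ck : CharP k p]
  [ak : IsAlgClosed k]
  /-- reduction map (arbitrary outside the valuation ring) -/
  red : PadicAlgCl p → k
  red_add : ∀ x y, ‖x‖ ≤ 1 → ‖y‖ ≤ 1 → red (x + y) = red x + red y
  red_mul : ∀ x y, ‖x‖ ≤ 1 → ‖y‖ ≤ 1 → red (x * y) = red x * red y
  red_one : red 1 = 1
  red_zero : ∀ x, ‖x‖ ≤ 1 → (red x = 0 ↔ ‖x‖ < 1)
  red_surj : ∀ y, ∃ x, ‖x‖ ≤ 1 ∧ red x = y

attribute [instance] Plc.fk Plc.ck Plc.ak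

variable {p : ℕ} [Fact p.Prime]

/-- polynomial with coefficients in the valuation ring -/
def IntP (A : (PadicAlgCl p)[X]) : Prop := ∀ n, ‖A.coeff n‖ ≤ 1

/-- reduction of a polynomial -/
noncomputable def redP (P : Plc p) (A : (PadicAlgCl p)[X]) : P.k[X] :=
  ∑ n ∈ Finset.range (A.natDegree + 1), monomial n (P.red (A.coeff n))

/-- `r` is the reduction of the rational function `R` -/
def RedQ (P : Plc p) (R : RatFunc (PadicAlgCl p)) (r : RatFunc P.k) : Prop :=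
  ∃ A B : (PadicAlgCl p)[X], IntP A ∧ IntP B ∧ redP P B ≠ 0 ∧
    R = algebraMap (PadicAlgCl p)[X] (RatFunc (PadicAlgCl p)) A /
      algebraMap (PadicAlgCl p)[X] (RatFunc (PadicAlgCl p)) B ∧
    r = algebraMap P.k[X] (RatFunc P.k) (redP P A) / algebraMap P.k[X] (RatFunc P.k) (redP P B)

/-- homogenised value `s^n Q(r/s)`, `n = deg Q` -/
def hv (Q : ℤ[X]) (r s : ℤ) : ℤ :=
  ∑ i ∈ Finset.range (Q.natDegree + 1), Q.coeff i * r ^ i * s ^ (Q.natDegree - i)

end SSP
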