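import Pool.Agent.SSP.TargetsB

/-!
# KRM: the arithmetic input in final form, primes dividing `D`
-/

open Polynomial

namespace SSP

open SSA

namespace KRM_

theorem natCast_ne (p : ℕ) {k : Type} [Field k] [CharP k p] {m : ℕ} (h0 : 0 < m) (h : m < p) :
    (m : k) ≠ 0 := by
  intro h1
  rw [CharP.cast_eq_zero_iff k p] at h1
  exact absurd (Nat.le_of_dvd h0 h1) (not_le.2 h)

theorem two_three (p : ℕ) {k : Type} [Field k] [CharP k p] (h5 : 5 ≤ p) :
    (2 : k) ≠ 0 ∧ (3 : k) ≠ 0 := by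
  refine ⟨?_, ?_⟩
  · have := natCast_ne p (k := k) (m := 2) (by norm_num) (by omega)
    exact_mod_cast this
  · have := natCast_ne p (k := k) (m := 3) (by norm_num) (by omega)
    exact_mod_cast this

theorem aj_map {R S : Type} [CommRing R] [CommRing S] (f : R →+* S) (j : R) :
    aj (f j) = f (aj j) := by
  have e3 : f 3 = 3 := map_ofNat f 3
  have e4 : f 1728 = 1728 := map_ofNat f 1728
  unfold aj
  rw [map_mul, map_mul, map_neg, map_sub, e3, e4]

theorem bj_map {R S : Type} [CommRing R] [CommRing S] (f : R →+* S) (j : R) :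
    bj (f j) = f (bj j) := by
  have e2 : f 2 = 2 := map_ofNat f 2
  have e4 : f 1728 = 1728 := map_ofNat f 1728
  unfold bj
  rw [map_mul, map_mul, map_neg, map_pow, map_sub, e2, e4]

/-- the model is nonsingular -/
theorem hyp (p : ℕ) [Fact p.Prime] (h6 : T_JHP) {k : Type} [Field k] [CharP k p] (h5 : 5 ≤ p)
    (r s : ℤ)
    (hs : ¬ (p : ℤ) ∣ s) (hr : ¬ (p : ℤ) ∣ r) (hr' : ¬ (p : ℤ) ∣ r - 1728 * s) :
    Hyp (zc p k (aj ((r : ZMod p) / s))) (zc p k (bj ((r : ZMod p) / s))) := by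
  have s0 : (s : ZMod p) ≠ 0 := fun h => hs ((ZMod.intCast_zmod_eq_zero_iff_dvd s p).1 h)
  have r0 : (r : ZMod p) ≠ 0 := fun h => hr ((ZMod.intCast_zmod_eq_zero_iff_dvd r p).1 h)
  have r1 : ((r - 1728 * s : ℤ) : ZMod p) ≠ 0 := fun h =>
    hr' ((ZMod.intCast_zmod_eq_zero_iff_dvd _ p).1 h)
  have hj : (r : ZMod p) / s ≠ 0 := div_ne_zero r0 s0
  have hj' : (r : ZMod p) / s ≠ 1728 := by
    intro h
    apply r1
    rw [div_eq_iff s0] at h
    rw [Int.cast_sub, Int.cast_mul, h, Int.cast_ofNat]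
    ring
  have hinj : Function.Injective (zc p k) := (zc p k).injective
  have e4 : zc p k 1728 = 1728 := map_ofNat (zc p k) 1728
  obtain ⟨h2, h3⟩ := two_three p (k := k) h5
  have key := h6 k (zc p k ((r : ZMod p) / s)) h2 h3 (by
    intro h
    apply hj
    apply hinj
    rw [h, map_zero]) (by
    intro h
    apply hj'
    apply hinj
    rw [h, e4])
  rw [aj_map, bj_map] at key
  exact key.1

end KRM_

theorem p_KRM (h1 : T_PLC) (h2 : T_RBX) (h3 : T_ISO) (h4 : T_TRX) (h5 : SSA.T_RM2)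
    (h6 : T_JHP) : T_KRM := by
  intro p _ D hp hsq hpD Q r s hQ hQd hs hr hr' hv hC
  obtain ⟨P⟩ := h1 p
  obtain ⟨σ⟩ := h3 p
  have hD0 : 0 < D := Nat.pos_of_ne_zero hsq.ne_zero
  obtain ⟨β, b1, b2, b3⟩ := h2 p P D hp hD0 hpD Q r s hQ hQd hs hr hr' hv (by
    intro j₁ hj₁
    have hz : aeval (σ.symm j₁) Q = 0 := by
      have h7 : aeval (σ.symm j₁) Q = σ.symm (aeval j₁ Q) := by
        rw [aeval_def, aeval_def, eval₂_eq_sum_range, eval₂_eq_sum_range, map_sum]
        refine Finset.sum_congr rfl fun i _ => ?_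
        simp
      rw [h7, hj₁, map_zero]
    have h8 := h4 ℂ (PadicAlgCl p) σ (σ.symm j₁) D two_ne_zero three_ne_zero (hC _ hz)
    rwa [σ.apply_symm_apply] at h8)
  exact h5 p P.k hp _ _ (KRM_.hyp p h6 hp r s hs hr hr') D β hsq hpD b2 b3 b1

end SSP
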