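import Pool.Agent.SSP.TargetsB

/-! From all compositions `x ± α` to the two needed ones. -/

open Polynomial

namespace SSP

open SSA

theorem p_CEM (h1 : T_JHP) (h2 : SSA.T_API) : T_CEM := by
  intro k _ j D k2 k3 hC
  obtain ⟨hj0, hj1, c, hc, α, hDD, hdeg, hcomp⟩ := hC
  obtain ⟨hHyp, -, -⟩ := h1 k j k2 k3 hj0 hj1
  obtain ⟨-, -, -, -, hneg, -⟩ := h2 k (aj j) (bj j) hHyp
  refine ⟨hj0, hj1, c, hc, α, hDD, hdeg, ?_, ?_⟩
  · have h := hcomp 0
    rw [zero_nsmul, zero_add, zero_sub, (hneg α).1] at h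
    simpa using h
  · have h := hcomp 1
    rw [one_nsmul, one_pow, add_comm 1 D] at h
    exact h

end SSP
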