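import Pool.Agent.SSP.Targets

/-!
# CHO: consequences of `CMD` in characteristic 0
-/

set_option autoImplicit false

open Polynomial

namespace SSP

open SSA

namespace CHO_

/-- a point with nonzero action on the differential -/
lemma ode {k : Type} [Field k] {a b : k} (H : Hyp a b) (h3 : SSA.T_API) (h9 : SSA.T_RFD)
    {β : MM a b} {c : k} (hc : c ≠ 0) (hD : DD β = RatFunc.C c) :
    (∀ t : k, xr β ≠ RatFunc.C t) ∧
      rder (xr β) ^ 2 * ff a b = RatFunc.C (c ^ 2) * ev a b (xr β) := by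
  obtain ⟨-, h00, -, hrec, -⟩ := h3 k a b H
  have hCc : (RatFunc.C c : RatFunc k) ≠ 0 := by
    rw [Ne, map_eq_zero]
    exact hc
  have hy : yr β ≠ 0 := by
    intro h0
    apply hCc
    rw [← hD]
    unfold DD
    rw [h0, div_zero]
  have hβ : β ≠ 0 := by
    intro h0
    rw [h0] at hy
    exact hy h00.2
  have hder : rder (xr β) = RatFunc.C c * yr β := by
    rw [← hD]
    unfold DD
    rw [div_mul_cancel₀ _ hy]
  have heq := (hrec β hβ).1
  refine ⟨?_, ?_⟩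
  · intro t ht
    have h1 := (h9 k).2.2.2.2.2.2.2.1 t
    rw [← ht, hder] at h1
    rcases mul_eq_zero.1 h1 with h2 | h2
    · exact hCc h2
    · exact hy h2
  · rw [hder, map_pow]
    linear_combination RatFunc.C c ^ 2 * heq

lemma nat_eq {x y m : ℕ} (h1 : x * y = m ^ 2) (h2 : x + y = 2 * m) : x = m ∧ y = m := by
  have h3 : ((x : ℤ) - m) ^ 2 = 0 := by
    have e1 : (x : ℤ) * y = m ^ 2 := by exact_mod_cast h1
    have e2 : (x : ℤ) + y = 2 * m := by exact_mod_cast h2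
    have e3 : (y : ℤ) = 2 * m - x := by linarith
    rw [e3] at e1
    linear_combination -e1
  have h4 : (x : ℤ) = m := by
    have := pow_eq_zero_iff (two_ne_zero) |>.1 h3
    linarith
  have h5 : x = m := by exact_mod_cast h4
  exact ⟨h5, by omega⟩

end CHO_

open CHO_ in
theorem p_CHO (h1 : T_JHP) (h2 : T_DGN) (h3 : SSA.T_API) (h4 : SSA.T_RFC) (h5 : SSA.T_PAR)
    (h7 : SSA.T_DDA) (h9 : SSA.T_RFD) : T_CHO := by
  intro k _ _ _ j ℓ hℓ hCM
  obtain ⟨hj0, hj1, c, hc, α, hDα, hdeg, hcomp, hcomp2⟩ := hCM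
  obtain ⟨H, -, -⟩ := h1 k j two_ne_zero three_ne_zero hj0 hj1
  obtain ⟨hdd, -, -⟩ := h2 k _ _ H
  obtain ⟨hDadd, hDneg, -, hDid⟩ := h7 k _ _ H
  have hℓk : ((ℓ : ℕ) : k) ≠ 0 := by
    rw [Nat.cast_ne_zero]
    omega
  have hℓk1 : ((ℓ : ℕ) : k) + 1 ≠ 0 := Nat.cast_add_one_ne_zero ℓ
  have hc0 : c ≠ 0 := by
    intro h0
    rw [h0] at hc
    apply hℓk
    linear_combination hc
  have hc1 : 1 + c ≠ 0 := by
    intro h0
    apply hℓk1
    have h8 : c = -1 := by linear_combination h0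
    rw [h8] at hc
    linear_combination hc
  have hc2 : 1 - c ≠ 0 := by
    intro h0
    apply hℓk1
    have h8 : c = 1 := by linear_combination -h0
    rw [h8] at hc
    linear_combination hc
  have hD1 : DD (idM (aj j) (bj j) + α) = RatFunc.C (1 + c) := by
    rw [hDadd, hDid, hDα, map_add, map_one]
  have hD2 : DD (idM (aj j) (bj j) - α) = RatFunc.C (1 - c) := by
    rw [sub_eq_add_neg, hDadd, hDneg, hDid, hDα, map_sub, map_one, ← sub_eq_add_neg]
  obtain ⟨hn0, ho0⟩ := ode H h3 h9 hc0 hDα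
  obtain ⟨-, ho1⟩ := ode H h3 h9 hc1 hD1
  obtain ⟨hn2, ho2⟩ := ode H h3 h9 hc2 hD2
  obtain ⟨-, -, -, -, -, -, -, -, -, -, -, -, hrd0, -⟩ := h4 k (xr α) hn0
  obtain ⟨-, -, -, -, -, -, -, -, -, -, -, -, hrd2, -⟩ :=
    h4 k (xr (idM (aj j) (bj j) - α)) hn2
  have e0 : rdeg (xr α) * rdeg (xr α) = ℓ ^ 2 := by
    rw [← hrd0, hcomp]
    exact hdd ℓ
  have e0' : rdeg (xr α) = ℓ := by
    rw [← sq] at e0
    exact Nat.pow_left_injective (n := 2) (by norm_num) e0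
  have e1 : rdeg (xr (idM (aj j) (bj j) + α)) * rdeg (xr (idM (aj j) (bj j) - α)) =
      (ℓ + 1) ^ 2 := by
    rw [← hrd2, hcomp2]
    exact hdd (ℓ + 1)
  have e2 : rdeg (xr (idM (aj j) (bj j) + α)) + rdeg (xr (idM (aj j) (bj j) - α)) =
      2 * (ℓ + 1) := by
    have h8 := h5 k _ _ H (idM (aj j) (bj j)) α
    have h10 : dd (idM (aj j) (bj j)) = 1 := by
      have := hdd 1
      rw [one_smul] at this
      simpa using this
    have h11 : dd α = ℓ := e0'
    rw [h10, h11] at h8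
    have h12 : rdeg (xr (idM (aj j) (bj j) + α)) + rdeg (xr (idM (aj j) (bj j) - α)) =
      2 * 1 + 2 * ℓ := h8
    omega
  obtain ⟨e3, e4⟩ := nat_eq e1 e2
  exact ⟨c, hc, xr α, xr (idM (aj j) (bj j) + α), xr (idM (aj j) (bj j) - α), hdeg, ho0, hcomp,
    ho1, ho2, hcomp2, e0', e3, e4⟩

end SSP
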