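import Pool.Agent.SSP.Targets

/-!
# MP_d74fca_nt, p-adic part: DGN (degree of multiplication by `n`), helper47
-/

open Polynomial

namespace SSP

open SSA

namespace DGN_

variable {k : Type} [Field k]

theorem xr_id (h1 : T_API) (a b : k) (h : Hyp a b) : xr (idM a b) = RatFunc.X := by
  obtain ⟨-, -, hmk, -⟩ := h1 k a b h
  refine (hmk RatFunc.X 1 ?_).2.1
  unfold ff ev
  ring

theorem rdeg_X (h5 : T_RFG) : rdeg (RatFunc.X : RatFunc k) = 1 := by
  have h := (h5 k).1 X 1 one_ne_zero isCoprime_one_right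
  rw [map_one, div_one, RatFunc.algebraMap_X] at h
  rw [h, natDegree_X, natDegree_one]
  rfl

theorem dd_id (h1 : T_API) (h5 : T_RFG) (a b : k) (h : Hyp a b) : dd (idM a b) = 1 := by
  unfold dd
  rw [xr_id h1 a b h, rdeg_X h5]

theorem dd_zero (h1 : T_API) (h5 : T_RFG) (a b : k) (h : Hyp a b) : dd (0 : MM a b) = 0 := by
  obtain ⟨-, hz, -⟩ := h1 k a b h
  unfold dd
  rw [hz.1]
  exact ((h5 k).2.1 0).2 ⟨0, by rw [map_zero]⟩

end DGN_

open DGN_ in
theorem p_DGN (h1 : SSA.T_API) (h2 : SSA.T_PAR) (h3 : SSA.T_QFA) (h4 : SSA.T_DDA)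
    (h5 : SSA.T_RFG) : T_DGN := by
  intro k _ _ a b h
  have hid := dd_id h1 h5 a b h
  have hPar : Par (fun P : MM a b => (dd P : ℤ)) := by
    refine ⟨fun P Q => ?_, fun P => Int.natCast_nonneg _⟩
    have := h2 k a b h P Q
    simp only
    exact_mod_cast this
  have hq := (h3 (MM a b) (fun P : MM a b => (dd P : ℤ)) hPar).2.2.2.2.2.2.2.1
  have hA : ∀ n : ℕ, dd (n • idM a b) = n ^ 2 := by
    intro n
    have := hq (n : ℤ) (idM a b)
    simp only [natCast_zsmul, hid] at this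
    have h6 : ((dd (n • idM a b) : ℕ) : ℤ) = ((n ^ 2 : ℕ) : ℤ) := by
      rw [this]
      push_cast
      ring
    exact_mod_cast h6
  refine ⟨hA, fun n hn h0 => ?_, fun n => ?_⟩
  · have h7 := hA n
    rw [h0, dd_zero h1 h5 a b h] at h7
    have : 0 < n ^ 2 := by positivity
    omega
  · obtain ⟨hadd, -, hz, ho⟩ := h4 k a b h
    induction n with
    | zero => rw [zero_nsmul, hz, Nat.cast_zero]
    | succ m ih => rw [succ_nsmul, hadd, ih, ho, Nat.cast_succ]

end SSP
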