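import Pool.Agent.SSP.Targets

/-!
# MP_d74fca_nt, p-adic part: the inert case
-/

set_option autoImplicit false

open Polynomial

namespace SSP

open SSA

namespace INR_

/-- maps of `aj` and `bj` under ring homomorphisms -/
lemma map_aj {R R' : Type} [CommRing R] [CommRing R'] (f : R →+* R') (j : R) :
    f (aj j) = aj (f j) := by
  unfold aj
  simp only [map_mul, map_sub, map_neg, map_ofNat]

lemma map_bj {R R' : Type} [CommRing R] [CommRing R'] (f : R →+* R') (j : R) :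
    f (bj j) = bj (f j) := by
  unfold bj
  simp only [map_mul, map_sub, map_neg, map_ofNat, map_pow]

variable {p : ℕ} [Fact p.Prime]

lemma norm_add_le1 {x y : PadicAlgCl p} (hx : ‖x‖ ≤ 1) (hy : ‖y‖ ≤ 1) : ‖x + y‖ ≤ 1 :=
  (PadicAlgCl.isNonarchimedean p x y).trans (max_le hx hy)

lemma norm_mul_le1 {x y : PadicAlgCl p} (hx : ‖x‖ ≤ 1) (hy : ‖y‖ ≤ 1) : ‖x * y‖ ≤ 1 := by
  rw [norm_mul]
  exact mul_le_one₀ hx (norm_nonneg _) hy

/-- reduction of `x - 1728` -/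
lemma red_sub (h2 : T_RIN) (P : Plc p) {x : PadicAlgCl p} (hx : ‖x‖ ≤ 1) :
    ‖x - 1728‖ ≤ 1 ∧ P.red (x - 1728) = P.red x - 1728 := by
  obtain ⟨h0, hneg, hint, _, _, _⟩ := h2 p P
  have h3 := (hint (-1728)).1
  have h4 := (hint (-1728)).2
  push_cast at h3 h4
  rw [sub_eq_add_neg, sub_eq_add_neg]
  exact ⟨norm_add_le1 hx h3, by rw [P.red_add _ _ hx h3, h4]⟩

lemma red_aj (h2 : T_RIN) (P : Plc p) {x : PadicAlgCl p} (hx : ‖x‖ ≤ 1) :
    ‖aj x‖ ≤ 1 ∧ P.red (aj x) = aj (P.red x) := by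
  obtain ⟨h0, hneg, hint, _, _, _⟩ := h2 p P
  obtain ⟨h5, h6⟩ := red_sub h2 P hx
  have h3 := (hint (-3)).1
  have h4 := (hint (-3)).2
  push_cast at h3 h4
  unfold aj
  have h7 : ‖-3 * x‖ ≤ 1 := norm_mul_le1 h3 hx
  exact ⟨norm_mul_le1 h7 h5, by rw [P.red_mul _ _ h7 h5, P.red_mul _ _ h3 hx, h4, h6]⟩

lemma red_bj (h2 : T_RIN) (P : Plc p) {x : PadicAlgCl p} (hx : ‖x‖ ≤ 1) :
    ‖bj x‖ ≤ 1 ∧ P.red (bj x) = bj (P.red x) := by
  obtain ⟨h0, hneg, hint, _, _, _⟩ := h2 p P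
  obtain ⟨h5, h6⟩ := red_sub h2 P hx
  have h3 := (hint (-2)).1
  have h4 := (hint (-2)).2
  push_cast at h3 h4
  unfold bj
  have h7 : ‖-2 * x‖ ≤ 1 := norm_mul_le1 h3 hx
  rw [sq, sq]
  have h8 := norm_mul_le1 h5 h5
  exact ⟨norm_mul_le1 h7 h8, by
    rw [P.red_mul _ _ h7 h8, P.red_mul _ _ h3 hx, h4, P.red_mul _ _ h5 h5, h6]⟩

/-- the degree condition is preserved by automorphisms -/
lemma deg_rmap {k : Type} [Field k] (σ : k →+* k) {R : RatFunc k}
    (h : R.denom.natDegree < R.num.natDegree) :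
    (rmap σ R).denom.natDegree < (rmap σ R).num.natDegree := by
  have hnum : R.num ≠ 0 := by
    intro h0
    rw [h0, natDegree_zero] at h
    exact absurd h (Nat.not_lt_zero _)
  have h1 : R.num.map σ ≠ 0 := (Polynomial.map_ne_zero_iff σ.injective).2 hnum
  have h2 : R.denom.map σ ≠ 0 := (Polynomial.map_ne_zero_iff σ.injective).2 R.denom_ne_zero
  have h3 : (rmap σ R).intDegree = (R.num.natDegree : ℤ) - R.denom.natDegree := by
    unfold rmap
    rw [RatFunc.intDegree_div (RatFunc.algebraMap_ne_zero h1) (RatFunc.algebraMap_ne_zero h2),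
      RatFunc.intDegree_polynomial, RatFunc.intDegree_polynomial, natDegree_map, natDegree_map]
  unfold RatFunc.intDegree at h3
  omega

end INR_

open INR_ in
theorem p_INR (h1 : T_AUT) (h2 : T_RIN) (h3 : T_RQA) (h4 : T_RQC) (h5 : T_NCR) (h6 : T_DGN)
    (h7 : T_RNI) (h8 : T_UNQ) (h9 : T_JHP) (h10 : T_CHO) (h11 : T_PARL) (h12 : SSA.T_RFC)
    (h13 : SSA.T_RFM) : T_INR := by
  intro p _ P ℓ hp hℓ hsq Q r s hQ hs hr hr' hv0 hodd hCM
  have hp2 : p ≠ 2 := by omega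
  have hpp : p.Prime := Fact.out
  -- the square root and the root of `Q`
  obtain ⟨c0, hc0⟩ := IsAlgClosed.exists_pow_nat_eq (-(ℓ : PadicAlgCl p)) (n := 2) (by norm_num)
  obtain ⟨j, hjQ, hjd, σ, hσj, hσc0⟩ := h11 p ℓ hp2 hsq Q r s hQ hs hv0 hodd c0 hc0
  have hCMj := hCM j hjQ
  obtain ⟨c, hc, R, R₁, R₂, hRdeg, hRode, hRR, _, _, _, hRℓ, _, _⟩ := h10 (PadicAlgCl p) j ℓ hℓ hCMj
  have hσc : σ c = -c := by
    have h14 : c ^ 2 = c0 ^ 2 := by rw [hc, hc0]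
    rcases sq_eq_sq_iff_eq_or_eq_neg.1 h14 with h15 | h15
    · rw [h15, hσc0]
    · rw [h15, map_neg, hσc0]
  -- reduction of integers
  obtain ⟨hred0, hneg, hint, hcong, hunit, hfrac⟩ := h2 p P
  obtain ⟨hrs, hredrs⟩ := hfrac r s hs
  set j0 : ZMod p := (r : ZMod p) / (s : ZMod p) with hj0
  have hj1 : ‖j‖ ≤ 1 := by
    have h14 := norm_add_le1 hjd.le hrs
    rwa [sub_add_cancel] at h14
  have hredj : P.red j = zc p P.k j0 := by
    rw [← hredrs]
    exact (hcong _ _ hj1 hrs).2 hjd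
  obtain ⟨haj, hredaj⟩ := red_aj h2 P hj1
  obtain ⟨hbj, hredbj⟩ := red_bj h2 P hj1
  have hsz : (s : ZMod p) ≠ 0 := by
    intro h
    exact hs ((ZMod.intCast_zmod_eq_zero_iff_dvd s p).1 h)
  have hj00 : j0 ≠ 0 := by
    refine div_ne_zero (fun h => hr ((ZMod.intCast_zmod_eq_zero_iff_dvd r p).1 h)) hsz
  have hj01 : j0 ≠ 1728 := by
    intro h
    rw [hj0, div_eq_iff hsz] at h
    apply hr'
    rw [← ZMod.intCast_zmod_eq_zero_iff_dvd]
    push_cast
    rw [h, sub_self]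
  have hk0 : P.red j ≠ 0 := by
    rw [hredj]
    exact (_root_.map_ne_zero _).2 hj00
  have hk1 : P.red j ≠ 1728 := by
    rw [hredj]
    intro h
    apply hj01
    apply (zc p P.k).injective
    rw [h, map_ofNat]
  have hchar : ∀ m : ℕ, 0 < m → m < p → ((m : ℕ) : P.k) ≠ 0 := by
    intro m hm hmp h
    rw [CharP.cast_eq_zero_iff P.k p] at h
    exact absurd (Nat.le_of_dvd hm h) (by omega)
  have h2k : (2 : P.k) ≠ 0 := by
    have := hchar 2 (by norm_num) (by omega)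
    exact_mod_cast this
  have h3k : (3 : P.k) ≠ 0 := by
    have := hchar 3 (by norm_num) (by omega)
    exact_mod_cast this
  obtain ⟨hypk, _, _⟩ := h9 P.k (P.red j) h2k h3k hk0 hk1
  have hypk' : Hyp (P.red (aj j)) (P.red (bj j)) := by
    rw [hredaj, hredbj]
    exact hypk
  obtain ⟨hypj, _, _⟩ := h9 (PadicAlgCl p) j two_ne_zero three_ne_zero hCMj.1 hCMj.2.1
  -- the norm of `c`
  have hpℓ : ¬ (p : ℤ) ∣ (ℓ : ℤ) := by
    intro h
    have h14 : ((ℓ : ℕ) : ZMod p) = 0 := by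
      have := (ZMod.intCast_zmod_eq_zero_iff_dvd (ℓ : ℤ) p).2 h
      exact_mod_cast this
    apply hsq 0
    rw [h14]
    ring
  have hnℓ : ‖(ℓ : PadicAlgCl p)‖ = 1 := by
    have h14 : ‖((ℓ : ℤ) : PadicAlgCl p)‖ ≤ 1 := (hint ℓ).1
    by_contra hne
    have h15 : ‖((ℓ : ℤ) : PadicAlgCl p)‖ < 1 := by
      push_cast at h14 ⊢
      exact lt_of_le_of_ne h14 hne
    have h16 : P.red ((ℓ : ℤ) : PadicAlgCl p) = 0 := (P.red_zero _ h14).2 h15
    rw [(hint ℓ).2, CharP.intCast_eq_zero_iff P.k p] at h16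
    exact hpℓ h16
  have hκ : ‖c ^ 2‖ = 1 := by rw [hc, norm_neg, hnℓ]
  have hnc : ‖c‖ = 1 := by
    rw [norm_pow] at hκ
    nlinarith [norm_nonneg c]
  have hredc2 : P.red (c ^ 2) = P.red c ^ 2 := by
    rw [sq, sq, P.red_mul _ _ hnc.le hnc.le]
  have hRc : ∀ t, R ≠ RatFunc.C t := by
    rintro t rfl
    rw [RatFunc.num_C, natDegree_C] at hRdeg
    exact absurd hRdeg (Nat.not_lt_zero _)
  -- the reduction
  obtain ⟨ρ, hρ, hρc, hρode⟩ := h5 p P hp (aj j) (bj j) (c ^ 2) haj hbj hκ hypk'.disc R hRc hRode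
  obtain ⟨huniq, _⟩ := h3 p P
  -- the degree
  have hdeg : rdeg ρ = ℓ := by
    have h14 := ((h4 p P).1 R R ρ ρ hρ hρ hρc).2
    rw [hRR] at h14
    have h15 := (h7 p P hp (aj j) (bj j) haj hbj hypk'.disc ℓ (by omega)).1
    have h16 := huniq _ _ _ h14 h15
    obtain ⟨_, _, _, _, _, _, _, _, _, _, _, _, hd, _⟩ := h12 P.k ρ hρc
    have h17 := hd ρ
    rw [h16] at h17
    have h18 := (h6 P.k (P.red (aj j)) (P.red (bj j)) hypk').1 ℓ
    unfold dd at h18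
    rw [h18, ← sq] at h17
    exact (Nat.pow_left_injective (n := 2) (by norm_num) h17).symm
  -- invariance under `σ`
  obtain ⟨hσn, τ, hτ⟩ := h1 p P σ
  set σ' : PadicAlgCl p →+* PadicAlgCl p := σ.toRingEquiv.toRingHom with hσ'
  have hσ'a : ∀ x, σ' x = σ x := fun x => rfl
  have hinvR : rmap σ' R = R := by
    obtain ⟨madd, msub, mmul, mdiv, mpow, mpol, mC, mX, minj, mder, mdeg, mcomp⟩ :=
      h13 (PadicAlgCl p) (PadicAlgCl p) σ'
    have hσa : σ' (aj j) = aj j := by rw [map_aj, hσ'a, hσj]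
    have hσb : σ' (bj j) = bj j := by rw [map_bj, hσ'a, hσj]
    have hff : rmap σ' (ff (aj j) (bj j)) = ff (aj j) (bj j) := by
      unfold ff
      rw [madd, madd, mmul, mpow, mX, mC, mC, hσa, hσb]
    have hev : rmap σ' (ev (aj j) (bj j) R) = ev (aj j) (bj j) (rmap σ' R) := by
      unfold ev
      rw [madd, madd, mmul, mpow, mC, mC, hσa, hσb]
    refine h8 (PadicAlgCl p) (aj j) (bj j) hypj (rmap σ' R) R (c ^ 2) ?_ (deg_rmap σ' hRdeg) hRdeg
      ?_ hRode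
    · intro h
      rw [h, norm_zero] at hκ
      exact zero_ne_one hκ
    · have h14 := congrArg (rmap σ') hRode
      rw [mmul, mmul, mpow, mder, hff, hev, mC, hσ'a, map_pow, hσc, neg_sq] at h14
      exact h14
  have hinvρ : rmap τ.toRingHom ρ = ρ := by
    have h14 := (h4 p P).2 σ τ hτ R ρ hρ
    have h15 : RedQ P R (rmap τ.toRingHom ρ) := by
      have : rmap σ.toRingEquiv.toRingHom R = R := hinvR
      rwa [this] at h14
    exact huniq _ _ _ h15 hρ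
  have hτc : τ (P.red c) = -P.red c := by
    rw [← hτ c hnc.le, hσc, hneg c hnc.le]
  have hza : zc p P.k (aj j0) = P.red (aj j) := by rw [map_aj, hredaj, hredj]
  have hzb : zc p P.k (bj j0) = P.red (bj j) := by rw [map_bj, hredbj, hredj]
  refine ⟨ρ, P.red c, τ, (hunit c hnc).1, ?_, hτc, hinvρ, ?_, hdeg⟩
  · rw [← hredc2, hc]
    have h14 := (hint (-(ℓ : ℤ))).2
    push_cast at h14
    exact h14
  · rw [hza, hzb, hρode, hredc2, map_pow]

end SSP
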