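import Pool.Agent.SSP.Targets

/-!
# MP_d74fca_nt, p-adic part: the complex numbers and the algebraic closure of `ℚ_p` (job SSP-ISO)
-/

open Polynomial Cardinal

namespace SSP

namespace ISO_

variable (p : ℕ) [Fact p.Prime]

lemma padic_le : #ℚ_[p] ≤ 𝔠 := by
  have h1 : #ℚ_[p] ≤ #(CauSeq ℚ (padicNorm p)) := Cardinal.mk_quotient_le
  have h2 : #(CauSeq ℚ (padicNorm p)) ≤ #(ℕ → ℚ) := Cardinal.mk_subtype_le _
  have h3 : #(ℕ → ℚ) = 𝔠 := by
    rw [← Cardinal.power_def, Cardinal.mk_eq_aleph0 ℚ, Cardinal.mk_eq_aleph0 ℕ,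
      Cardinal.aleph0_power_aleph0]
  exact (h1.trans h2).trans h3.le

lemma algCl : #(PadicAlgCl p) = 𝔠 := by
  refine le_antisymm ?_ ?_
  · have h1 : #(PadicAlgCl p) ≤ max #ℚ_[p] ℵ₀ := Algebra.IsAlgebraic.cardinalMk_le_max ℚ_[p] _
    exact h1.trans (max_le (padic_le p) Cardinal.aleph0_le_continuum)
  · exact continuum_le_cardinal_of_module ℚ_[p] (PadicAlgCl p)

end ISO_

theorem p_ISO : T_ISO := by
  intro p _
  have hC : #ℂ = 𝔠 := Cardinal.mk_complex
  have : CharZero (PadicAlgCl p) := inferInstance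
  refine IsAlgClosed.ringEquiv_of_equiv_of_charZero ?_ ?_
  · rw [hC]
    exact Cardinal.aleph0_lt_continuum
  · rw [← Cardinal.eq, hC, ISO_.algCl p]

end SSP
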