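import Pool.Agent.SSP.Targets

/-!
# JHP: the model with invariant `j` is nonsingular
-/

namespace SSP

open SSA

theorem p_JHP : T_JHP := by
  intro k _ j h2 h3 hj hj'
  have hs : j - 1728 ≠ 0 := sub_ne_zero.mpr hj'
  have ha : aj j ≠ 0 := by
    unfold aj
    exact mul_ne_zero (mul_ne_zero (neg_ne_zero.mpr h3) hj) hs
  have hb : bj j ≠ 0 := by
    unfold bj
    exact mul_ne_zero (mul_ne_zero (neg_ne_zero.mpr h2) hj) (pow_ne_zero 2 hs)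
  refine ⟨?_, ha, hb⟩
  have hD : 4 * aj j ^ 3 + 27 * bj j ^ 2 = -(2 ^ 8 * 3 ^ 6 * j ^ 2 * (j - 1728) ^ 3) := by
    unfold aj bj
    ring
  have hne : 4 * aj j ^ 3 + 27 * bj j ^ 2 ≠ 0 := by
    rw [hD]
    exact neg_ne_zero.mpr (mul_ne_zero (mul_ne_zero (mul_ne_zero (pow_ne_zero _ h2)
      (pow_ne_zero _ h3)) (pow_ne_zero _ hj)) (pow_ne_zero _ hs))
  exact ⟨h2, h3, hne⟩

end SSP
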