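import Pool.Agent.SSP.TargetsB
import Pool.Agent.SSP.JHP

/-!
# MP_d74fca_nt, p-adic part: the arithmetic input in final form, inert primes (job SSP-KIN)
-/

set_option autoImplicit false

open Polynomial

namespace SSP

open SSA

namespace KIN_

variable {p : ℕ} [Fact p.Prime]

theorem zc_aj {k : Type} [Field k] [CharP k p] (x : ZMod p) : zc p k (aj x) = aj (zc p k x) := by
  unfold aj
  simp only [map_mul, map_sub, map_neg, map_ofNat]

theorem zc_bj {k : Type} [Field k] [CharP k p] (x : ZMod p) : zc p k (bj x) = bj (zc p k x) := by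
  unfold bj
  simp only [map_mul, map_sub, map_neg, map_ofNat, map_pow]

theorem small_ne {k : Type} [Field k] [CharP k p] (hp : 5 ≤ p) (n : ℕ) (hn : 0 < n)
    (hn5 : n < 5) : (n : k) ≠ 0 := by
  intro h
  have h1 := (CharP.cast_eq_zero_iff k p n).1 h
  have h2 := Nat.le_of_dvd hn h1
  omega

theorem hyp (P : Plc p) (hp : 5 ≤ p) (r s : ℤ) (hs : ¬ (p : ℤ) ∣ s) (hr : ¬ (p : ℤ) ∣ r)
    (hrs : ¬ (p : ℤ) ∣ r - 1728 * s) :
    Hyp (zc p P.k (aj ((r : ZMod p) / s))) (zc p P.k (bj ((r : ZMod p) / s))) := by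
  have hs0 : (s : ZMod p) ≠ 0 := fun h => hs ((ZMod.intCast_zmod_eq_zero_iff_dvd s p).1 h)
  have hr0 : (r : ZMod p) ≠ 0 := fun h => hr ((ZMod.intCast_zmod_eq_zero_iff_dvd r p).1 h)
  have hrs0 : (r : ZMod p) / s ≠ 1728 := by
    intro h
    apply hrs
    rw [← ZMod.intCast_zmod_eq_zero_iff_dvd]
    rw [div_eq_iff hs0] at h
    push_cast
    rw [h]
    ring
  have h1 : zc p P.k ((r : ZMod p) / s) ≠ 0 := (_root_.map_ne_zero _).2 (div_ne_zero hr0 hs0)
  have h2 : zc p P.k ((r : ZMod p) / s) ≠ 1728 := by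
    intro h
    apply hrs0
    apply (zc p P.k).injective
    rw [h, map_ofNat]
  have h3 : (2 : P.k) ≠ 0 := by
    have := small_ne (k := P.k) hp 2 (by norm_num) (by norm_num)
    exact_mod_cast this
  have h4 : (3 : P.k) ≠ 0 := by
    have := small_ne (k := P.k) hp 3 (by norm_num) (by norm_num)
    exact_mod_cast this
  rw [zc_aj, zc_bj]
  exact (p_JHP P.k _ h3 h4 h1 h2).1

end KIN_

theorem p_KIN (h1 : T_INR) (h2 : T_ISO) (h3 : T_TRX) (h4 : T_CEM) (h5 : SSA.T_SS)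
    (h6 : SSA.T_ORT) : T_KIN := by
  intro p _ P D hp5 hD hx Q r s hQ hs hr hrs hhv hodd hCM
  have hmain : ∀ j₁ : PadicAlgCl p, aeval j₁ Q = 0 → CMD (PadicAlgCl p) j₁ D := by
    intro j₁ hj
    obtain ⟨e⟩ := h2 p
    have hz : aeval (e.symm j₁) Q = 0 := by
      have h7 : e.symm (aeval j₁ Q) = aeval (e.symm j₁) Q := by
        rw [aeval_def, aeval_def, ← RingEquiv.coe_toRingHom, hom_eval₂]
        congr 1
        exact Subsingleton.elim _ _
      rw [← h7, hj, map_zero]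
    have h8 := h3 ℂ (PadicAlgCl p) e (e.symm j₁) D two_ne_zero three_ne_zero (hCM _ hz)
    rw [RingEquiv.apply_symm_apply] at h8
    exact h4 (PadicAlgCl p) j₁ D two_ne_zero three_ne_zero h8
  obtain ⟨R, c, σ, hdat⟩ := h1 p P D hp5 hD hx Q r s hQ hs hr hrs hhv hodd hmain
  refine ⟨⟨R, c, σ, hdat⟩, fun _ => ?_⟩
  have hyp := KIN_.hyp P hp5 r s hs hr hrs
  obtain ⟨hcp, hR, -⟩ := h6 p P.k hp5 _ _ hyp D R c σ (by omega) hdat
  obtain ⟨hc, -, -, -, hcurve, -⟩ := hdat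
  refine h5 p P.k hp5 _ _ hyp R c hR hc ?_ hcurve
  intro h
  have h7 : (2 : P.k) * c = 0 := by
    linear_combination hcp - h
  rcases mul_eq_zero.1 h7 with h8 | h8
  · exact hyp.two h8
  · exact hc h8

end SSP
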