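import Pool.Agent.SSP.Targets

/-!
# NCR: maps of good reduction have nonconstant reduction
-/

set_option autoImplicit false

open Polynomial

namespace SSP

open SSA

namespace NCR_

variable {p : ℕ} [Fact p.Prime]

theorem norm_add (x y : PadicAlgCl p) (hx : ‖x‖ ≤ 1) (hy : ‖y‖ ≤ 1) : ‖x + y‖ ≤ 1 :=
  (PadicAlgCl.isNonarchimedean p x y).trans (max_le hx hy)

theorem norm_mul_le (x y : PadicAlgCl p) (hx : ‖x‖ ≤ 1) (hy : ‖y‖ ≤ 1) : ‖x * y‖ ≤ 1 := by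
  rw [norm_mul]
  exact mul_le_one₀ hx (norm_nonneg _) hy

/-- the three roots of the cubic -/
theorem roots (a b t : PadicAlgCl p) : ∃ x y z : PadicAlgCl p,
    x ^ 3 + a * x + b = 0 ∧ y ^ 3 + a * y + b = 0 ∧ z ^ 3 + a * z + b = 0 ∧
    t ^ 3 + a * t + b = (t - x) * (t - y) * (t - z) := by
  obtain ⟨x, hx⟩ := IsAlgClosed.exists_root
    (C 1 * X ^ 3 + C 0 * X ^ 2 + C a * X + C b : (PadicAlgCl p)[X]) (by
      rw [degree_cubic one_ne_zero]
      norm_num)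
  have hx' : x ^ 3 + a * x + b = 0 := by
    have h1 := hx
    simp only [IsRoot.def, eval_add, eval_mul, eval_C, eval_pow, eval_X] at h1
    linear_combination h1
  obtain ⟨s, hs⟩ := IsAlgClosed.exists_pow_nat_eq (-3 * x ^ 2 - 4 * a) (n := 2) (by norm_num)
  have h2 : (2 : PadicAlgCl p) ≠ 0 := two_ne_zero
  refine ⟨x, (-x + s) / 2, (-x - s) / 2, hx', ?_, ?_, ?_⟩
  · field_simp
    linear_combination 8 * hx' + (s - 3 * x) * hs
  · field_simp
    linear_combination 8 * hx' + (-s - 3 * x) * hs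
  · field_simp
    linear_combination 4 * hx' + (t - x) * hs

/-- a root with given reduction -/
theorem lift_root (P : Plc p) {a b : PadicAlgCl p} (ha : ‖a‖ ≤ 1) (hb : ‖b‖ ≤ 1) {t : P.k}
    (ht : t ^ 3 + P.red a * t + P.red b = 0) :
    ∃ x : PadicAlgCl p, ‖x‖ ≤ 1 ∧ P.red x = t ∧ x ^ 3 + a * x + b = 0 := by
  obtain ⟨t0, ht0, rfl⟩ := P.red_surj t
  have h2 : ‖t0 ^ 2‖ ≤ 1 := by
    rw [pow_two]
    exact norm_mul_le _ _ ht0 ht0
  have h3 : ‖t0 ^ 3‖ ≤ 1 := by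
    rw [pow_succ]
    exact norm_mul_le _ _ h2 ht0
  have h4 : ‖a * t0‖ ≤ 1 := norm_mul_le _ _ ha ht0
  have h5 : ‖t0 ^ 3 + a * t0‖ ≤ 1 := norm_add _ _ h3 h4
  have h6 : ‖t0 ^ 3 + a * t0 + b‖ ≤ 1 := norm_add _ _ h5 hb
  have h7 : P.red (t0 ^ 3 + a * t0 + b) = 0 := by
    rw [P.red_add _ _ h5 hb, P.red_add _ _ h3 h4, P.red_mul _ _ ha ht0, pow_succ,
      P.red_mul _ _ h2 ht0, pow_two, P.red_mul _ _ ht0 ht0, ← ht]
    ring
  have h8 := (P.red_zero _ h6).1 h7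
  obtain ⟨x, y, z, hx, hy, hz, hxyz⟩ := roots a b t0
  rw [hxyz, norm_mul, norm_mul] at h8
  have h9 : ‖t0 - x‖ < 1 ∨ ‖t0 - y‖ < 1 ∨ ‖t0 - z‖ < 1 := by
    by_contra h10
    rw [not_or, not_or, not_lt, not_lt, not_lt] at h10
    have h11 := one_le_mul_of_one_le_of_one_le
      (one_le_mul_of_one_le_of_one_le h10.1 h10.2.1) h10.2.2
    linarith
  have fin : ∀ w : PadicAlgCl p, w ^ 3 + a * w + b = 0 → ‖t0 - w‖ < 1 →
      ∃ x : PadicAlgCl p, ‖x‖ ≤ 1 ∧ P.red x = P.red t0 ∧ x ^ 3 + a * x + b = 0 := by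
    intro w hw hw1
    have h12 : ‖w‖ ≤ 1 := by
      have h13 : w = t0 + -(t0 - w) := by ring
      rw [h13]
      exact norm_add _ _ ht0 (by rw [norm_neg]; exact hw1.le)
    refine ⟨w, h12, ?_, hw⟩
    have h14 := P.red_add (t0 - w) w hw1.le h12
    rw [sub_add_cancel, (P.red_zero _ hw1.le).2 hw1, zero_add] at h14
    exact h14.symm
  rcases h9 with h9 | h9 | h9
  · exact fin x hx h9
  · exact fin y hy h9
  · exact fin z hz h9

theorem Cne {k : Type} [Field k] {c : k} (h : c ≠ 0) : (RatFunc.C c : RatFunc k) ≠ 0 := by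
  rw [Ne, map_eq_zero]
  exact h

end NCR_

open NCR_ in
theorem p_NCR (h1 : T_RIN) (h3 : T_RQA) (h4 : T_RQS) (h5 : SSA.T_RFD) : T_NCR := by
  intro p _ P hp a b κ ha hb hκ hdisc R hR heq
  obtain ⟨red0, -, -, -, redunit, -⟩ := h1 p P
  obtain ⟨uq, qadd, qsub, qmul, -, -, qpow, qC, qX, qder, -⟩ := h3 p P
  obtain ⟨dadd, dsub, dmul, -, -, -, -, dC, -⟩ := h5 (PadicAlgCl p)
  obtain ⟨-, -, -, -, -, -, -, dC', -⟩ := h5 P.k
  have hκ0 : P.red κ ≠ 0 := (redunit κ hκ).1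
  -- reduction of `f` and of `R^3 + aR + b`
  have qf : RedQ P (ff a b) (ff (P.red a) (P.red b)) := by
    rw [ff, ff]
    exact qadd _ _ _ _ (qadd _ _ _ _ (qpow _ _ 3 qX) (qmul _ _ _ _ (qC a ha) qX)) (qC b hb)
  have qev : ∀ (G : RatFunc (PadicAlgCl p)) (γ : RatFunc P.k) (a' b' : PadicAlgCl p), ‖a'‖ ≤ 1 →
      ‖b'‖ ≤ 1 → RedQ P G γ → RedQ P (ev a' b' G) (ev (P.red a') (P.red b') γ) := by
    intro G γ a' b' ha' hb' h
    rw [ev, ev]
    exact qadd _ _ _ _ (qadd _ _ _ _ (qpow _ _ 3 h) (qmul _ _ _ _ (qC a' ha') h)) (qC b' hb')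
  have qκ : RedQ P (RatFunc.C κ) (RatFunc.C (P.red κ)) := qC κ hκ.le
  -- derivative of constant multiples
  have dCm : ∀ (c : PadicAlgCl p) (G : RatFunc (PadicAlgCl p)),
      rder (RatFunc.C c * G) = RatFunc.C c * rder G := by
    intro c G
    rw [dmul, dC, zero_mul, zero_add]
  -- scaling of `R`
  have hR0 : R ≠ 0 := by
    intro h
    exact hR 0 (by rw [h, map_zero])
  obtain ⟨c, r0, hc, hr0, hq0⟩ := h4 p P R hR0
  have hCc : (RatFunc.C c : RatFunc (PadicAlgCl p)) * RatFunc.C c⁻¹ = 1 := by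
    rw [← map_mul, mul_inv_cancel₀ hc, map_one]
  set R0 := RatFunc.C c⁻¹ * R with hR0def
  have hRR0 : R = RatFunc.C c * R0 := by
    rw [hR0def, ← mul_assoc, hCc, one_mul]
  have hc1 : ‖c‖ ≤ 1 := by
    by_contra hcon
    rw [not_le] at hcon
    have hi : ‖c⁻¹‖ < 1 := by
      rw [norm_inv]
      exact inv_lt_one_of_one_lt₀ hcon
    have hi0 : P.red c⁻¹ = 0 := (P.red_zero _ hi.le).2 hi
    have ha2 : ‖c⁻¹ * (c⁻¹ * a)‖ < 1 := by
      rw [norm_mul]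
      have := norm_mul_le c⁻¹ a hi.le ha
      calc ‖c⁻¹‖ * ‖c⁻¹ * a‖ ≤ ‖c⁻¹‖ * 1 := by gcongr
        _ < 1 := by rw [mul_one]; exact hi
    have hb3 : ‖c⁻¹ * (c⁻¹ * (c⁻¹ * b))‖ < 1 := by
      rw [norm_mul]
      have := norm_mul_le c⁻¹ _ hi.le (norm_mul_le c⁻¹ b hi.le hb)
      calc ‖c⁻¹‖ * ‖c⁻¹ * (c⁻¹ * b)‖ ≤ ‖c⁻¹‖ * 1 := by gcongr
        _ < 1 := by rw [mul_one]; exact hi
    have e1 : RatFunc.C c⁻¹ * (rder R0 ^ 2 * ff a b) =
        RatFunc.C κ * ev (c⁻¹ * (c⁻¹ * a)) (c⁻¹ * (c⁻¹ * (c⁻¹ * b))) R0 := by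
      have e2 := heq
      rw [hRR0, dCm, ev] at e2
      rw [ev]
      simp only [map_mul]
      set u := (RatFunc.C c⁻¹ : RatFunc (PadicAlgCl p))
      set v := (RatFunc.C c : RatFunc (PadicAlgCl p))
      have e3 : u ^ 3 * ((v * rder R0) ^ 2 * ff a b) =
          u ^ 3 * (RatFunc.C κ * ((v * R0) ^ 3 + RatFunc.C a * (v * R0) + RatFunc.C b)) := by
        rw [e2]
      have e4 : u ^ 3 * ((v * rder R0) ^ 2 * ff a b) =
          (v * u) ^ 2 * (u * (rder R0 ^ 2 * ff a b)) := by ring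
      have e5 : u ^ 3 * (RatFunc.C κ * ((v * R0) ^ 3 + RatFunc.C a * (v * R0) + RatFunc.C b)) =
          RatFunc.C κ * ((v * u) ^ 3 * R0 ^ 3 + (v * u) * (u * (u * RatFunc.C a)) * R0 +
            u * (u * (u * RatFunc.C b))) := by ring
      rw [e4, e5, hCc] at e3
      linear_combination e3
    have e2 := qmul _ _ _ _ (qC _ hi.le) (qmul _ _ _ _ (qpow _ _ 2 (qder _ _ hq0)) qf)
    have e3 := qmul _ _ _ _ qκ (qev R0 r0 _ _ ha2.le hb3.le hq0)
    rw [e1] at e2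
    have e4 := uq _ _ _ e2 e3
    rw [hi0, (P.red_zero _ ha2.le).2 ha2, (P.red_zero _ hb3.le).2 hb3, ev, map_zero, zero_mul,
      zero_mul, add_zero, add_zero] at e4
    exact mul_ne_zero (Cne hκ0) (pow_ne_zero 3 hr0) e4.symm
  set r := RatFunc.C (P.red c) * r0 with hr
  have hq : RedQ P R r := by
    have := qmul _ _ _ _ (qC c hc1) hq0
    rw [← hRR0] at this
    exact this
  have hred : rder r ^ 2 * ff (P.red a) (P.red b) =
      RatFunc.C (P.red κ) * ev (P.red a) (P.red b) r := by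
    have e2 := qmul _ _ _ _ (qpow _ _ 2 (qder _ _ hq)) qf
    have e3 := qmul _ _ _ _ qκ (qev R r a b ha hb hq)
    rw [heq] at e2
    exact uq _ _ _ e2 e3
  refine ⟨r, hq, ?_, hred⟩
  -- `r` is not constant
  intro t hrt
  have ht : t ^ 3 + P.red a * t + P.red b = 0 := by
    rw [hrt, dC', ev] at hred
    have e1 : RatFunc.C (P.red κ * (t ^ 3 + P.red a * t + P.red b)) = 0 := by
      simp only [map_mul, map_add, map_pow]
      rw [← hred]
      ring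
    rw [map_eq_zero] at e1
    exact (mul_eq_zero.1 e1).resolve_left hκ0
  obtain ⟨x, hx1, hxt, hx0⟩ := lift_root P ha hb ht
  have hRx : R - RatFunc.C x ≠ 0 := by
    intro h
    exact hR x (sub_eq_zero.1 h)
  obtain ⟨μ, r1, hμ, hr1, hq1⟩ := h4 p P _ hRx
  have hCμ : (RatFunc.C μ : RatFunc (PadicAlgCl p)) * RatFunc.C μ⁻¹ = 1 := by
    rw [← map_mul, mul_inv_cancel₀ hμ, map_one]
  set R1 := RatFunc.C μ⁻¹ * (R - RatFunc.C x) with hR1def
  have hRR1 : R = RatFunc.C μ * R1 + RatFunc.C x := by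
    rw [hR1def, ← mul_assoc, hCμ, one_mul, sub_add_cancel]
  have hμ1 : ‖μ‖ < 1 := by
    by_contra hcon
    rw [not_lt] at hcon
    have hi : ‖μ⁻¹‖ ≤ 1 := by
      rw [norm_inv]
      exact inv_le_one_of_one_le₀ hcon
    have e1 := qmul _ _ _ _ (qC _ hi) (qsub _ _ _ _ hq (qC x hx1))
    have e2 := uq _ _ _ hq1 e1
    rw [hrt, hxt, sub_self, mul_zero] at e2
    exact hr1 e2
  -- divide the equation by `μ`
  have e1 : RatFunc.C μ * (rder R1 ^ 2 * ff a b) =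
      RatFunc.C κ * (R1 * (R ^ 2 + RatFunc.C x * R + (RatFunc.C x ^ 2 + RatFunc.C a))) := by
    have e2 : rder R = RatFunc.C μ * rder R1 := by
      rw [hRR1, dadd, dC, add_zero, dCm]
    have e3 : ev a b R = RatFunc.C μ * R1 *
        (R ^ 2 + RatFunc.C x * R + (RatFunc.C x ^ 2 + RatFunc.C a)) := by
      have e4 : (RatFunc.C x : RatFunc (PadicAlgCl p)) ^ 3 + RatFunc.C a * RatFunc.C x +
          RatFunc.C b = 0 := by
        rw [← map_pow, ← map_mul, ← map_add, ← map_add, hx0, map_zero]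
      have e5 : RatFunc.C μ * R1 = R - RatFunc.C x := by
        rw [hRR1]
        ring
      rw [e5, ev]
      linear_combination e4
    have e4 := heq
    rw [e2, e3] at e4
    have e5 : RatFunc.C μ * (RatFunc.C μ * (rder R1 ^ 2 * ff a b)) = RatFunc.C μ *
        (RatFunc.C κ * (R1 * (R ^ 2 + RatFunc.C x * R + (RatFunc.C x ^ 2 + RatFunc.C a)))) := by
      linear_combination e4
    exact mul_left_cancel₀ (Cne hμ) e5
  have e2 := qmul _ _ _ _ (qC _ hμ1.le) (qmul _ _ _ _ (qpow _ _ 2 (qder _ _ hq1)) qf)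
  have e3 := qmul _ _ _ _ qκ (qmul _ _ _ _ hq1 (qadd _ _ _ _ (qadd _ _ _ _ (qpow _ _ 2 hq)
    (qmul _ _ _ _ (qC x hx1) hq)) (qadd _ _ _ _ (qpow _ _ 2 (qC x hx1)) (qC a ha))))
  rw [e1] at e2
  have e4 := uq _ _ _ e2 e3
  rw [(P.red_zero _ hμ1.le).2 hμ1, map_zero, zero_mul, hxt, hrt] at e4
  have e5 : (RatFunc.C t : RatFunc P.k) ^ 2 + RatFunc.C t * RatFunc.C t +
      (RatFunc.C t ^ 2 + RatFunc.C (P.red a)) = RatFunc.C (3 * t ^ 2 + P.red a) := by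
    rw [← map_pow, ← map_mul, ← map_add, ← map_add, ← map_add]
    congr 1
    ring
  rw [e5] at e4
  have hne : 3 * t ^ 2 + P.red a ≠ 0 := by
    intro h
    apply hdisc
    have ea : P.red a = -(3 * t ^ 2) := by linear_combination h
    have eb : P.red b = 2 * t ^ 3 := by
      rw [ea] at ht
      linear_combination ht
    rw [ea, eb]
    ring
  exact mul_ne_zero (Cne hκ0) (mul_ne_zero hr1 (Cne hne)) e4.symm

end SSP
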