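import Pool.Agent.SSP.Targets

/-!
# MP_d74fca_nt, p-adic part: NRT, a root near `j`
-/

open Polynomial

namespace SSP

namespace NRT_

theorem norm_intCast (p : ℕ) [Fact p.Prime] (z : ℤ) :
    ‖(z : PadicAlgCl p)‖ = ‖(z : ℚ_[p])‖ := by
  have h := PadicAlgCl.norm_extends p (z : ℚ_[p])
  rw [← h, map_intCast]

theorem hv_eq {k : Type} [Field k] (Q : ℤ[X]) (r s : ℤ) (hs : (s : k) ≠ 0) :
    ((hv Q r s : ℤ) : k) = (s : k) ^ Q.natDegree * aeval ((r : k) / s) Q := by
  rw [aeval_eq_sum_range, Finset.mul_sum, hv, Int.cast_sum]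
  refine Finset.sum_congr rfl fun i hi => ?_
  have hi' : i ≤ Q.natDegree := Nat.lt_succ_iff.1 (Finset.mem_range.1 hi)
  have e : (s : k) ^ Q.natDegree = (s : k) ^ (Q.natDegree - i) * (s : k) ^ i := by
    rw [← pow_add, Nat.sub_add_cancel hi']
  rw [e, div_pow]
  push_cast
  rw [zsmul_eq_mul]
  field_simp

theorem one_le_prod {k : Type} [NormedField k] (j : k) (m : Multiset k)
    (h : ∀ x ∈ m, 1 ≤ ‖j - x‖) : 1 ≤ ‖(m.map fun x => j - x).prod‖ := by
  induction m using Multiset.induction_on with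
  | empty => simp
  | cons a m ih =>
    rw [Multiset.map_cons, Multiset.prod_cons, norm_mul]
    exact one_le_mul_of_one_le_of_one_le (h a (Multiset.mem_cons_self a m))
      (ih fun x hx => h x (Multiset.mem_cons_of_mem hx))

end NRT_

open NRT_

theorem p_NRT : T_NRT := by
  intro p _ Q r s hQ _ hs hp
  have hs0 : (s : ℚ_[p]) ≠ 0 := by
    intro h
    have h1 : s = 0 := by exact_mod_cast h
    exact hs (h1 ▸ dvd_zero _)
  have hns : ‖(s : PadicAlgCl p)‖ = 1 := by
    rw [norm_intCast]
    have h1 := Padic.norm_int_le_one (p := p) s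
    by_contra hne
    exact hs (Padic.norm_intCast_lt_one_iff.1 (lt_of_le_of_ne h1 hne))
  have hs1 : (s : PadicAlgCl p) ≠ 0 := by
    intro h
    rw [h, norm_zero] at hns
    exact zero_ne_one hns
  have hnh : ‖((hv Q r s : ℤ) : PadicAlgCl p)‖ < 1 := by
    rw [norm_intCast]
    exact Padic.norm_intCast_lt_one_iff.2 hp
  rw [hv_eq Q r s hs1, norm_mul, norm_pow, hns, one_pow, one_mul] at hnh
  set j : PadicAlgCl p := (r : PadicAlgCl p) / s with hj
  set Q' : (PadicAlgCl p)[X] := Q.map (algebraMap ℤ (PadicAlgCl p)) with hQ'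
  have hmon : Q'.Monic := hQ.map _
  have hsp : Q'.Splits := IsAlgClosed.splits Q'
  have hev : aeval j Q = (Q'.roots.map fun x => j - x).prod := by
    have h1 : aeval j Q = Q'.eval j := by
      rw [hQ', eval_map_algebraMap]
    rw [h1]
    conv_lhs => rw [hsp.eq_prod_roots_of_monic hmon]
    rw [eval_multiset_prod, Multiset.map_map]
    congr 1
    refine Multiset.map_congr rfl fun x _ => ?_
    simp
  by_contra hcon
  push Not at hcon
  have h2 : 1 ≤ ‖(Q'.roots.map fun x => j - x).prod‖ := by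
    refine one_le_prod j _ fun x hx => ?_
    have hx' : aeval x Q = 0 := by
      have h3 := (mem_roots'.1 hx).2
      rw [IsRoot.def, hQ', eval_map_algebraMap] at h3
      exact h3
    have := hcon x hx'
    rwa [norm_sub_rev]
  rw [← hev] at h2
  exact absurd hnh (not_lt.2 h2)

end SSP
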