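import Pool.Agent.SSP.Targets

/-!
# AUT: automorphisms preserve the norm and act on the residue field
-/

set_option autoImplicit false

open Polynomial

namespace SSP

open SSA

namespace AUT_

variable {p : ℕ} [Fact p.Prime]

theorem norm_aut (σ : PadicAlgCl p ≃ₐ[ℚ_[p]] PadicAlgCl p) (x : PadicAlgCl p) : ‖σ x‖ = ‖x‖ :=
  (spectralNorm_eq_of_equiv (K := ℚ_[p]) (L := PadicAlgCl p) σ x).symm

theorem red_sub (P : Plc p) {x y : PadicAlgCl p} (hx : ‖x‖ ≤ 1) (hy : ‖y‖ ≤ 1) :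
    ‖x - y‖ ≤ 1 ∧ P.red (x - y) = P.red x - P.red y := by
  have h1 : ‖x - y‖ ≤ 1 := by
    have h2 := PadicAlgCl.isNonarchimedean p x (-y)
    rw [norm_neg, ← sub_eq_add_neg] at h2
    exact h2.trans (max_le hx hy)
  refine ⟨h1, ?_⟩
  have h3 := P.red_add (x - y) y h1 hy
  rw [sub_add_cancel] at h3
  rw [h3, add_sub_cancel_right]

/-- the section of the reduction -/
noncomputable def s (P : Plc p) (y : P.k) : PadicAlgCl p := (P.red_surj y).choose

theorem s_norm (P : Plc p) (y : P.k) : ‖s P y‖ ≤ 1 := (P.red_surj y).choose_spec.1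

theorem s_red (P : Plc p) (y : P.k) : P.red (s P y) = y := (P.red_surj y).choose_spec.2

theorem key (P : Plc p) (σ : PadicAlgCl p ≃ₐ[ℚ_[p]] PadicAlgCl p) {x : PadicAlgCl p}
    (hx : ‖x‖ ≤ 1) : P.red (σ (s P (P.red x))) = P.red (σ x) := by
  have hs := s_norm P (P.red x)
  obtain ⟨h1, h2⟩ := red_sub P hs hx
  rw [s_red, sub_self] at h2
  have h3 : ‖s P (P.red x) - x‖ < 1 := (P.red_zero _ h1).1 h2
  have h4 : ‖σ (s P (P.red x)) - σ x‖ < 1 := by
    rw [← map_sub, norm_aut]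
    exact h3
  obtain ⟨h5, h6⟩ := red_sub P (x := σ (s P (P.red x))) (y := σ x)
    (by rw [norm_aut]; exact hs) (by rw [norm_aut]; exact hx)
  rw [(P.red_zero _ h5).2 h4] at h6
  exact sub_eq_zero.1 h6.symm

/-- the induced map -/
noncomputable def ind (P : Plc p) (σ : PadicAlgCl p ≃ₐ[ℚ_[p]] PadicAlgCl p) (y : P.k) : P.k :=
  P.red (σ (s P y))

theorem ind_red (P : Plc p) (σ : PadicAlgCl p ≃ₐ[ℚ_[p]] PadicAlgCl p) {x : PadicAlgCl p}
    (hx : ‖x‖ ≤ 1) : ind P σ (P.red x) = P.red (σ x) := key P σ hx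

theorem ind_inv (P : Plc p) (σ τ : PadicAlgCl p ≃ₐ[ℚ_[p]] PadicAlgCl p)
    (h : ∀ x, τ (σ x) = x) (y : P.k) : ind P τ (ind P σ y) = y := by
  have h1 : ind P σ y = P.red (σ (s P y)) := rfl
  rw [h1, ind_red P τ (by rw [norm_aut]; exact s_norm P y), h, s_red]

theorem ind_mul (P : Plc p) (σ : PadicAlgCl p ≃ₐ[ℚ_[p]] PadicAlgCl p) (y z : P.k) :
    ind P σ (y * z) = ind P σ y * ind P σ z := by
  have hy := s_norm P y
  have hz := s_norm P z
  have h1 : y * z = P.red (s P y * s P z) := by rw [P.red_mul _ _ hy hz, s_red, s_red]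
  have h2 : ‖s P y * s P z‖ ≤ 1 := by
    rw [norm_mul]
    exact mul_le_one₀ hy (norm_nonneg _) hz
  rw [h1, ind_red P σ h2, map_mul, P.red_mul _ _ (by rw [norm_aut]; exact hy)
    (by rw [norm_aut]; exact hz)]
  rfl

theorem ind_add (P : Plc p) (σ : PadicAlgCl p ≃ₐ[ℚ_[p]] PadicAlgCl p) (y z : P.k) :
    ind P σ (y + z) = ind P σ y + ind P σ z := by
  have hy := s_norm P y
  have hz := s_norm P z
  have h1 : y + z = P.red (s P y + s P z) := by rw [P.red_add _ _ hy hz, s_red, s_red]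
  have h2 : ‖s P y + s P z‖ ≤ 1 :=
    (PadicAlgCl.isNonarchimedean p _ _).trans (max_le hy hz)
  rw [h1, ind_red P σ h2, map_add, P.red_add _ _ (by rw [norm_aut]; exact hy)
    (by rw [norm_aut]; exact hz)]
  rfl

end AUT_

open AUT_ in
/-- AUT: automorphisms preserve the norm and induce automorphisms of the residue field -/
theorem p_AUT : T_AUT := by
  intro p _ P σ
  refine ⟨norm_aut σ, ?_⟩
  refine ⟨{ toFun := ind P σ
            invFun := ind P σ.symm
            left_inv := ind_inv P σ σ.symm σ.symm_apply_apply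
            right_inv := ind_inv P σ.symm σ σ.apply_symm_apply
            map_mul' := ind_mul P σ
            map_add' := ind_add P σ }, ?_⟩
  intro x hx
  exact (ind_red P σ hx).symm

end SSP
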