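import Pool.Agent.SSP.Targets
import Pool.Agent.SSP.AUT
import Pool.Agent.SSP.NRT

/-!
# MP_d74fca_nt, p-adic part: PARL, parity of the valuation and Galois
-/

set_option autoImplicit false

open Polynomial

namespace SSP

namespace PARL_

variable {p : ℕ} [Fact p.Prime]

theorem red_sq (ℓ : ℕ) (hℓ : ∀ x : ZMod p, x ^ 2 ≠ -(ℓ : ZMod p)) (u v : ℤ_[p])
    (h : ‖u ^ 2 + ℓ * v ^ 2‖ < 1) : ‖u‖ < 1 ∧ ‖v‖ < 1 := by
  have key : ∀ z : ℤ_[p], ‖z‖ < 1 ↔ PadicInt.toZMod z = 0 := by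
    intro z
    rw [← RingHom.mem_ker, PadicInt.ker_toZMod, IsLocalRing.mem_maximalIdeal,
      PadicInt.mem_nonunits]
  rw [key] at h
  rw [key, key]
  have h1 : (PadicInt.toZMod u) ^ 2 + (ℓ : ZMod p) * (PadicInt.toZMod v) ^ 2 = 0 := by
    simpa using h
  have hv : PadicInt.toZMod v = 0 := by
    by_contra hv
    refine hℓ (PadicInt.toZMod u / PadicInt.toZMod v) ?_
    rw [div_pow, div_eq_iff (pow_ne_zero 2 hv)]
    linear_combination h1
  refine ⟨?_, hv⟩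
  rw [hv] at h1
  simpa using h1

theorem norm_natCast_le (ℓ : ℕ) : ‖(ℓ : PadicAlgCl p)‖ ≤ 1 := by
  have h := NRT_.norm_intCast p (ℓ : ℤ)
  have h2 := Padic.norm_int_le_one (p := p) (ℓ : ℤ)
  rw [← h] at h2
  simpa using h2

theorem norm_c_le (ℓ : ℕ) (c : PadicAlgCl p) (hc : c ^ 2 = -(ℓ : PadicAlgCl p)) : ‖c‖ ≤ 1 := by
  have h1 : ‖c‖ ^ 2 ≤ 1 := by
    rw [← norm_pow, hc, norm_neg]
    exact norm_natCast_le ℓ
  by_contra hne
  push Not at hne
  nlinarith [norm_nonneg c]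

theorem not_mem (ℓ : ℕ) (hℓ : ∀ x : ZMod p, x ^ 2 ≠ -(ℓ : ZMod p)) (c : PadicAlgCl p)
    (hc : c ^ 2 = -(ℓ : PadicAlgCl p)) (u : ℚ_[p])
    (hu : algebraMap ℚ_[p] (PadicAlgCl p) u = c) : False := by
  have h1 : u ^ 2 = -(ℓ : ℚ_[p]) := by
    apply (algebraMap ℚ_[p] (PadicAlgCl p)).injective
    rw [map_pow, hu, hc]
    simp
  have h2 : ‖u‖ ≤ 1 := by
    have h3 := norm_c_le ℓ c hc
    rw [← hu, PadicAlgCl.norm_extends] at h3
    exact h3
  let w : ℤ_[p] := ⟨u, h2⟩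
  have h4 : ‖w ^ 2 + (ℓ : ℤ_[p]) * 1 ^ 2‖ < 1 := by
    have h5 : w ^ 2 + (ℓ : ℤ_[p]) * 1 ^ 2 = 0 := by
      apply Subtype.ext
      push_cast
      change u ^ 2 + (ℓ : ℚ_[p]) * 1 ^ 2 = 0
      rw [h1]
      ring
    rw [h5]
    simp
  have h6 := (red_sq ℓ hℓ _ _ h4).2
  simp at h6

theorem exists_conj (ℓ : ℕ) (hℓ : ∀ x : ZMod p, x ^ 2 ≠ -(ℓ : ZMod p)) (c : PadicAlgCl p)
    (hc : c ^ 2 = -(ℓ : PadicAlgCl p)) :
    ∃ σ : PadicAlgCl p ≃ₐ[ℚ_[p]] PadicAlgCl p, σ c = -c := by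
  by_contra hcon
  push Not at hcon
  have hall : ∀ f : PadicAlgCl p ≃ₐ[ℚ_[p]] PadicAlgCl p, f c = c := by
    intro f
    have h1 : (f c) ^ 2 = c ^ 2 := by
      rw [← map_pow, hc]
      simp
    rcases sq_eq_sq_iff_eq_or_eq_neg.1 h1 with h2 | h2
    · exact h2
    · exact absurd h2 (hcon f)
  have h3 := (InfiniteGalois.mem_bot_iff_fixed c).2 hall
  obtain ⟨u, hu⟩ := IntermediateField.mem_bot.1 h3
  exact not_mem ℓ hℓ c hc u hu

theorem norm_uv (ℓ : ℕ) (hℓ : ∀ x : ZMod p, x ^ 2 ≠ -(ℓ : ZMod p)) (c : PadicAlgCl p)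
    (hc : c ^ 2 = -(ℓ : PadicAlgCl p)) (σ₀ : PadicAlgCl p ≃ₐ[ℚ_[p]] PadicAlgCl p)
    (hσ : σ₀ c = -c) (u v : ℚ_[p]) (hu : ‖u‖ ≤ 1) (hv : ‖v‖ ≤ 1) (h1 : ‖u‖ = 1 ∨ ‖v‖ = 1) :
    ‖(algebraMap ℚ_[p] (PadicAlgCl p) u) + algebraMap ℚ_[p] (PadicAlgCl p) v * c‖ = 1 := by
  have hcn := norm_c_le ℓ c hc
  set U := algebraMap ℚ_[p] (PadicAlgCl p) u with hU
  set V := algebraMap ℚ_[p] (PadicAlgCl p) v with hV
  have hUn : ‖U‖ ≤ 1 := by rw [hU, PadicAlgCl.norm_extends]; exact hu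
  have hVn : ‖V‖ ≤ 1 := by rw [hV, PadicAlgCl.norm_extends]; exact hv
  have hle : ‖U + V * c‖ ≤ 1 := by
    refine (PadicAlgCl.isNonarchimedean p U (V * c)).trans (max_le hUn ?_)
    rw [norm_mul]
    exact mul_le_one₀ hVn (norm_nonneg _) hcn
  by_contra hne
  have hlt := lt_of_le_of_ne hle hne
  have hlt' : ‖U - V * c‖ < 1 := by
    have h2 := AUT_.norm_aut σ₀ (U + V * c)
    rw [map_add, map_mul, hU, hV, AlgEquiv.commutes, AlgEquiv.commutes, hσ, ← hU, ← hV,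
      mul_neg, ← sub_eq_add_neg] at h2
    rw [h2]
    exact hlt
  have hprod : ‖(U + V * c) * (U - V * c)‖ < 1 := by
    rw [norm_mul]
    exact mul_lt_one_of_nonneg_of_lt_one_left (norm_nonneg _) hlt hlt'.le
  have heq : (U + V * c) * (U - V * c) =
      algebraMap ℚ_[p] (PadicAlgCl p) (u ^ 2 + ℓ * v ^ 2) := by
    rw [map_add, map_mul, map_pow, map_pow, map_natCast, ← hU, ← hV]
    linear_combination (-V ^ 2) * hc
  rw [heq, PadicAlgCl.norm_extends] at hprod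
  have h3 := red_sq ℓ hℓ ⟨u, hu⟩ ⟨v, hv⟩ (by
    rw [PadicInt.norm_def]
    push_cast
    exact hprod)
  rw [PadicInt.norm_def, PadicInt.norm_def] at h3
  rcases h1 with h1 | h1
  · exact absurd h1 (ne_of_lt h3.1)
  · exact absurd h1 (ne_of_lt h3.2)

theorem repr_alg (ℓ : ℕ) (c : PadicAlgCl p) (hc : c ^ 2 = -(ℓ : PadicAlgCl p))
    (y : PadicAlgCl p) (hy : y ∈ Algebra.adjoin ℚ_[p] {c}) : ∃ u v : ℚ_[p],
    y = algebraMap ℚ_[p] (PadicAlgCl p) u + algebraMap ℚ_[p] (PadicAlgCl p) v * c := by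
  induction hy using Algebra.adjoin_induction with
  | mem x hx =>
    rw [Set.mem_singleton_iff] at hx
    exact ⟨0, 1, by rw [hx]; simp⟩
  | algebraMap r => exact ⟨r, 0, by simp⟩
  | add x z _ _ hx hz =>
    obtain ⟨u, v, h⟩ := hx
    obtain ⟨u', v', h'⟩ := hz
    refine ⟨u + u', v + v', ?_⟩
    rw [h, h', map_add, map_add]
    ring
  | mul x z _ _ hx hz =>
    obtain ⟨u, v, h⟩ := hx
    obtain ⟨u', v', h'⟩ := hz
    refine ⟨u * u' - ℓ * (v * v'), u * v' + u' * v, ?_⟩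
    rw [h, h']
    simp only [map_add, map_mul, map_sub, map_natCast]
    linear_combination (algebraMap ℚ_[p] (PadicAlgCl p) v *
      algebraMap ℚ_[p] (PadicAlgCl p) v') * hc

theorem repr (ℓ : ℕ) (c : PadicAlgCl p) (hc : c ^ 2 = -(ℓ : PadicAlgCl p))
    (y : PadicAlgCl p) (hy : y ∈ IntermediateField.adjoin ℚ_[p] {c}) : ∃ u v : ℚ_[p],
    y = algebraMap ℚ_[p] (PadicAlgCl p) u + algebraMap ℚ_[p] (PadicAlgCl p) v * c := by
  have hint : IsAlgebraic ℚ_[p] c := (PadicAlgCl.isAlgebraic p).isAlgebraic c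
  have h1 : y ∈ Algebra.adjoin ℚ_[p] {c} := by
    rw [← IntermediateField.adjoin_simple_toSubalgebra_of_isAlgebraic hint]
    exact hy
  exact repr_alg ℓ c hc y h1

theorem norm_adj (ℓ : ℕ) (hℓ : ∀ x : ZMod p, x ^ 2 ≠ -(ℓ : ZMod p)) (c : PadicAlgCl p)
    (hc : c ^ 2 = -(ℓ : PadicAlgCl p)) (σ₀ : PadicAlgCl p ≃ₐ[ℚ_[p]] PadicAlgCl p)
    (hσ : σ₀ c = -c) (y : PadicAlgCl p) (hy : y ∈ IntermediateField.adjoin ℚ_[p] {c})
    (hy0 : y ≠ 0) : ∃ k : ℤ, ‖y‖ = (p : ℝ) ^ k := by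
  obtain ⟨u, v, h⟩ := repr ℓ c hc y hy
  have key : ∀ w : ℚ_[p], w ≠ 0 → ‖u‖ ≤ ‖w‖ → ‖v‖ ≤ ‖w‖ → (‖u‖ = ‖w‖ ∨ ‖v‖ = ‖w‖) →
      ∃ k : ℤ, ‖y‖ = (p : ℝ) ^ k := by
    intro w hw h1 h2 h3
    have hwn : 0 < ‖w‖ := norm_pos_iff.2 hw
    have h4 := norm_uv ℓ hℓ c hc σ₀ hσ (u / w) (v / w)
      (by rw [norm_div]; exact (div_le_one hwn).2 h1)
      (by rw [norm_div]; exact (div_le_one hwn).2 h2)
      (by
        rcases h3 with h3 | h3
        · left; rw [norm_div, h3, div_self hwn.ne']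
        · right; rw [norm_div, h3, div_self hwn.ne'])
    have h5 : y = algebraMap ℚ_[p] (PadicAlgCl p) w *
        (algebraMap ℚ_[p] (PadicAlgCl p) (u / w) +
          algebraMap ℚ_[p] (PadicAlgCl p) (v / w) * c) := by
      have hw' : algebraMap ℚ_[p] (PadicAlgCl p) w ≠ 0 := by
        rw [Ne, map_eq_zero]
        exact hw
      rw [h, map_div₀, map_div₀]
      field_simp
    refine ⟨-w.valuation, ?_⟩
    rw [h5, norm_mul, h4, mul_one, PadicAlgCl.norm_extends, Padic.norm_eq_zpow_neg_valuation hw]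
  rcases le_total ‖u‖ ‖v‖ with huv | huv
  · refine key v ?_ huv le_rfl (Or.inr rfl)
    rintro rfl
    rw [norm_zero] at huv
    have : u = 0 := norm_le_zero_iff.1 huv
    apply hy0
    rw [h, this]
    simp
  · refine key u ?_ le_rfl huv (Or.inl rfl)
    rintro rfl
    rw [norm_zero] at huv
    have : v = 0 := norm_le_zero_iff.1 huv
    apply hy0
    rw [h, this]
    simp

theorem exists_tau (ℓ : ℕ) (c : PadicAlgCl p)
    (hc : c ^ 2 = -(ℓ : PadicAlgCl p)) (σ₀ : PadicAlgCl p ≃ₐ[ℚ_[p]] PadicAlgCl p)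
    (hσ : σ₀ c = -c) : ∃ τ : IntermediateField.adjoin ℚ_[p] {c} →+*
      IntermediateField.adjoin ℚ_[p] {c}, (∀ x, ((τ x : IntermediateField.adjoin ℚ_[p] {c}) :
        PadicAlgCl p) = σ₀ x) ∧ ∀ x, τ (τ x) = x := by
  have hmem : ∀ x : IntermediateField.adjoin ℚ_[p] {c},
      ((σ₀ : PadicAlgCl p →+* PadicAlgCl p).comp
        (algebraMap (IntermediateField.adjoin ℚ_[p] {c}) (PadicAlgCl p))) x ∈
      IntermediateField.adjoin ℚ_[p] {c} := by
    intro x
    obtain ⟨u, v, h⟩ := repr ℓ c hc x x.2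
    have h1 : ((σ₀ : PadicAlgCl p →+* PadicAlgCl p).comp
        (algebraMap (IntermediateField.adjoin ℚ_[p] {c}) (PadicAlgCl p))) x =
        algebraMap ℚ_[p] (PadicAlgCl p) u + algebraMap ℚ_[p] (PadicAlgCl p) v * (-c) := by
      change σ₀ (x : PadicAlgCl p) = _
      rw [h, map_add, map_mul, AlgEquiv.commutes, AlgEquiv.commutes, hσ]
    rw [h1]
    exact add_mem (IntermediateField.algebraMap_mem _ _) (mul_mem
      (IntermediateField.algebraMap_mem _ _)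
      (neg_mem (IntermediateField.mem_adjoin_simple_self _ _)))
  refine ⟨((σ₀ : PadicAlgCl p →+* PadicAlgCl p).comp
    (algebraMap (IntermediateField.adjoin ℚ_[p] {c}) (PadicAlgCl p))).codRestrict
      (IntermediateField.adjoin ℚ_[p] {c}) hmem, fun x => rfl, fun x => ?_⟩
  apply Subtype.ext
  change σ₀ (σ₀ (x : PadicAlgCl p)) = x
  obtain ⟨u, v, h⟩ := repr ℓ c hc x x.2
  rw [h, map_add, map_mul, AlgEquiv.commutes, AlgEquiv.commutes, hσ, map_add, map_mul,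
    AlgEquiv.commutes, AlgEquiv.commutes, map_neg, hσ, neg_neg]

theorem norm_prod_one {k : Type} [NormedField k] (j : k) (m : Multiset k)
    (h : ∀ x ∈ m, ‖j - x‖ = 1) : ‖(m.map fun x => j - x).prod‖ = 1 := by
  induction m using Multiset.induction_on with
  | empty => simp
  | cons a m ih =>
    rw [Multiset.map_cons, Multiset.prod_cons, norm_mul, h a (Multiset.mem_cons_self a m),
      ih fun x hx => h x (Multiset.mem_cons_of_mem hx), one_mul]

theorem eval_prod {L : Type} [Field L] {E : Type} [NormedField E] [IsAlgClosed E] [Algebra L E]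
    (G : L[X]) (hG : G.Monic) (j : L)
    (h : ∀ ρ : E, aeval ρ G = 0 → ‖algebraMap L E j - ρ‖ = 1) :
    ‖algebraMap L E (G.eval j)‖ = 1 := by
  set G' : E[X] := G.map (algebraMap L E) with hG'
  have hmon : G'.Monic := hG.map _
  have hsp : G'.Splits := IsAlgClosed.splits G'
  have h1 : algebraMap L E (G.eval j) = (G'.roots.map fun x => algebraMap L E j - x).prod := by
    have h2 : algebraMap L E (G.eval j) = G'.eval (algebraMap L E j) := by
      rw [hG', eval_map_apply]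
    rw [h2]
    conv_lhs => rw [hsp.eq_prod_roots_of_monic hmon]
    rw [eval_multiset_prod, Multiset.map_map]
    congr 1
    refine Multiset.map_congr rfl fun x _ => ?_
    simp
  rw [h1]
  refine norm_prod_one _ _ fun x hx => h x ?_
  have h3 := (mem_roots'.1 hx).2
  rwa [IsRoot.def, hG', eval_map_algebraMap] at h3

theorem aeval_map_tau {L : IntermediateField ℚ_[p] (PadicAlgCl p)}
    (σ₀ : PadicAlgCl p ≃ₐ[ℚ_[p]] PadicAlgCl p) (τ : L →+* L)
    (hτ : ∀ x : L, ((τ x : L) : PadicAlgCl p) = σ₀ x) (G : L[X]) (x : PadicAlgCl p) :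
    aeval (σ₀ x) (G.map τ) = σ₀ (aeval x G) := by
  rw [aeval_def, eval₂_map, aeval_def]
  have h1 : (algebraMap L (PadicAlgCl p)).comp τ =
      (σ₀ : PadicAlgCl p →+* PadicAlgCl p).comp (algebraMap L (PadicAlgCl p)) := by
    ext y
    exact hτ y
  rw [h1]
  exact (hom_eval₂ G (algebraMap L (PadicAlgCl p)) (σ₀ : PadicAlgCl p →+* PadicAlgCl p) x).symm

theorem main (c : PadicAlgCl p) (L : IntermediateField ℚ_[p] (PadicAlgCl p)) (hcL : c ∈ L)
    (σ₀ : PadicAlgCl p ≃ₐ[ℚ_[p]] PadicAlgCl p) (hσ : σ₀ c = -c)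
    (τ : L →+* L) (hτ : ∀ x : L, ((τ x : L) : PadicAlgCl p) = σ₀ x) (hττ : ∀ x, τ (τ x) = x)
    (hL : ∀ y : L, y ≠ 0 → ∃ k : ℤ, ‖(y : PadicAlgCl p)‖ = (p : ℝ) ^ k)
    (j : L) (hj : τ j = j) :
    ∀ (n : ℕ) (A : L[X]), A.natDegree = n → A.Monic → A.map τ = A → A.eval j ≠ 0 →
      (∀ ρ : PadicAlgCl p, aeval ρ A = 0 → ‖(j : PadicAlgCl p) - ρ‖ ≤ 1 ∧
        (‖(j : PadicAlgCl p) - ρ‖ < 1 → ∀ σ : PadicAlgCl p ≃ₐ[ℚ_[p]] PadicAlgCl p,
          σ ρ = ρ → σ c ≠ -c)) →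
      ∃ k : ℤ, ‖((A.eval j : L) : PadicAlgCl p)‖ = (p : ℝ) ^ (2 * k) := by
  intro n
  induction n using Nat.strong_induction_on with
  | _ n ih =>
  intro A hn hA hAτ hAj hroots
  have hp0 : (p : ℝ) ≠ 0 := by exact_mod_cast (Fact.out : p.Prime).ne_zero
  have halg : Algebra.IsAlgebraic L (PadicAlgCl p) :=
    Algebra.IsAlgebraic.tower_top (K := ℚ_[p]) L
  by_cases hn0 : A.natDegree = 0
  · refine ⟨0, ?_⟩
    rw [hA.natDegree_eq_zero.1 hn0]
    simp
  obtain ⟨ρ, hρ⟩ := IsAlgClosed.exists_aeval_eq_zero (PadicAlgCl p) A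
    (by
      intro h
      rw [degree_eq_natDegree hA.ne_zero] at h
      exact hn0 (by exact_mod_cast h))
  have hρi : IsIntegral L ρ := ⟨A, hA, hρ⟩
  set G := minpoly L ρ with hG
  have hGm : G.Monic := minpoly.monic hρi
  have hGirr : Irreducible G := minpoly.irreducible hρi
  have hGA : G ∣ A := minpoly.dvd L ρ hρ
  have hGd : 0 < G.natDegree := minpoly.natDegree_pos hρi
  by_cases hGG : G.map τ = G
  · -- the case `G` invariant
    obtain ⟨Q₁, hQ₁⟩ := hGA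
    have hQm : Q₁.Monic := hGm.of_mul_monic_left (hQ₁ ▸ hA)
    have hQτ : Q₁.map τ = Q₁ := by
      have h1 : G * Q₁.map τ = G * Q₁ := by
        have h2 := congrArg (Polynomial.map τ) hQ₁
        rw [hAτ, Polynomial.map_mul, hGG] at h2
        rw [← h2, hQ₁]
      exact mul_left_cancel₀ hGm.ne_zero h1
    have hQd : Q₁.natDegree < n := by
      have h1 : A.natDegree = G.natDegree + Q₁.natDegree := by
        rw [hQ₁, hGm.natDegree_mul hQm]
      omega
    have hQj : Q₁.eval j ≠ 0 := by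
      intro h
      apply hAj
      rw [hQ₁, eval_mul, h, mul_zero]
    obtain ⟨k, hk⟩ := ih _ hQd Q₁ rfl hQm hQτ hQj (fun ρ' h' => hroots ρ' (by
      rw [hQ₁, map_mul, h', mul_zero]))
    refine ⟨k, ?_⟩
    have h1 : ‖((G.eval j : L) : PadicAlgCl p)‖ = 1 := by
      refine eval_prod (E := PadicAlgCl p) G hGm j fun ρ' h' => ?_
      have h2 := hroots ρ' (by rw [hQ₁, map_mul, h', zero_mul])
      refine le_antisymm h2.1 (not_lt.1 fun hlt => ?_)
      -- find an automorphism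
      have hG1 : minpoly L ρ' = G := (minpoly.eq_of_irreducible_of_monic hGirr h' hGm).symm
      have h3 : aeval (σ₀ ρ') G = 0 := by
        rw [← hGG, aeval_map_tau σ₀ τ hτ, h', map_zero]
      have : Normal L (PadicAlgCl p) := inferInstance
      obtain ⟨h, hh⟩ := minpoly.exists_algEquiv_of_root (K := L) (L := PadicAlgCl p)
        (x := σ₀ ρ') (y := ρ') (halg.isAlgebraic ρ') (by rw [hG1]; exact h3)
      refine h2.2 hlt (σ₀.trans (h.restrictScalars ℚ_[p])) ?_ ?_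
      · exact hh
      · change h (σ₀ c) = -c
        rw [hσ, map_neg]
        have h4 := h.commutes (⟨c, hcL⟩ : L)
        have h5 : h c = c := h4
        rw [h5]
    rw [hQ₁, eval_mul]
    push_cast
    rw [norm_mul, h1, one_mul]
    exact hk
  · -- the case of two factors
    set G' := G.map τ with hG'
    have hG'm : G'.Monic := hGm.map τ
    have hG'' : G'.map τ = G := by
      rw [hG', Polynomial.map_map]
      have h1 : τ.comp τ = RingHom.id L := by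
        ext x
        exact congrArg _ (hττ x)
      rw [h1, Polynomial.map_id]
    have hG'root : aeval (σ₀ ρ) G' = 0 := by
      rw [hG', aeval_map_tau σ₀ τ hτ, minpoly.aeval, map_zero]
    have hG'irr : Irreducible G' := by
      have hid : τ.comp τ = RingHom.id L := by
        ext x
        exact congrArg _ (hττ x)
      let e : L ≃+* L := RingEquiv.ofRingHom τ τ hid hid
      have h1 : G' = Polynomial.mapEquiv e G := by
        rw [Polynomial.mapEquiv_apply]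
        rfl
      rw [h1]
      exact (MulEquiv.irreducible_iff (Polynomial.mapEquiv e)).2 hGirr
    have hG'A : G' ∣ A := by
      have h1 := Polynomial.map_dvd τ hGA
      rwa [hAτ] at h1
    have hcop : IsCoprime G G' := by
      rw [hGirr.coprime_iff_not_dvd]
      intro hd
      have h1 : Associated G G' := hGirr.associated_of_dvd hG'irr hd
      exact hGG (eq_of_monic_of_associated hGm hG'm h1).symm
    obtain ⟨Q₁, hQ₁⟩ := hcop.mul_dvd hGA hG'A
    have hPm : (G * G').Monic := hGm.mul hG'm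
    have hQm : Q₁.Monic := hPm.of_mul_monic_left (hQ₁ ▸ hA)
    have hQτ : Q₁.map τ = Q₁ := by
      have h1 : (G * G') * Q₁.map τ = (G * G') * Q₁ := by
        have h2 := congrArg (Polynomial.map τ) hQ₁
        rw [hAτ, Polynomial.map_mul, Polynomial.map_mul, hG'', ← hG', mul_comm G' G] at h2
        rw [← h2, hQ₁]
      exact mul_left_cancel₀ hPm.ne_zero h1
    have hQd : Q₁.natDegree < n := by
      have h1 : A.natDegree = (G * G').natDegree + Q₁.natDegree := by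
        rw [hQ₁, hPm.natDegree_mul hQm]
      have h2 : (G * G').natDegree = G.natDegree + G'.natDegree := hGm.natDegree_mul hG'm
      omega
    have hQj : Q₁.eval j ≠ 0 := by
      intro h
      apply hAj
      rw [hQ₁, eval_mul, h, mul_zero]
    obtain ⟨k, hk⟩ := ih _ hQd Q₁ rfl hQm hQτ hQj (fun ρ' h' => hroots ρ' (by
      rw [hQ₁, map_mul, h', mul_zero]))
    have hGj : G.eval j ≠ 0 := by
      intro h
      apply hAj
      rw [hQ₁, eval_mul, eval_mul, h, zero_mul, zero_mul]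
    obtain ⟨m, hm⟩ := hL _ hGj
    have hG'j : ‖((G'.eval j : L) : PadicAlgCl p)‖ = (p : ℝ) ^ m := by
      have h1 : G'.eval j = τ (G.eval j) := by
        conv_lhs => rw [← hj]
        rw [hG', eval_map_apply]
      rw [h1, hτ, AUT_.norm_aut, hm]
    refine ⟨k + m, ?_⟩
    rw [hQ₁, eval_mul, eval_mul]
    push_cast
    rw [norm_mul, norm_mul, hm, hG'j, hk, ← zpow_add₀ hp0, ← zpow_add₀ hp0]
    congr 1
    ring

theorem norm_root_le (Q : ℤ[X]) (hQ : Q.Monic) (ρ : PadicAlgCl p) (h : aeval ρ Q = 0) :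
    ‖ρ‖ ≤ 1 := by
  by_contra hne
  push Not at hne
  have h1 : aeval ρ Q = ρ ^ Q.natDegree +
      ∑ i ∈ Finset.range Q.natDegree, (Q.coeff i : PadicAlgCl p) * ρ ^ i := by
    rw [aeval_eq_sum_range, Finset.sum_range_succ, add_comm]
    congr 1
    · rw [hQ.coeff_natDegree, one_smul]
    · refine Finset.sum_congr rfl fun i _ => ?_
      rw [zsmul_eq_mul]
  rw [h] at h1
  by_cases hd : Q.natDegree = 0
  · rw [hd] at h1
    simp at h1
  have h2 : ‖∑ i ∈ Finset.range Q.natDegree, (Q.coeff i : PadicAlgCl p) * ρ ^ i‖ ≤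
      ‖ρ‖ ^ (Q.natDegree - 1) := by
    refine IsUltrametricDist.norm_sum_le_of_forall_le_of_nonneg (by positivity) fun i hi => ?_
    rw [norm_mul, norm_pow]
    have h3 : ‖(Q.coeff i : PadicAlgCl p)‖ ≤ 1 := by
      rw [NRT_.norm_intCast]
      exact Padic.norm_int_le_one _
    have h4 : i ≤ Q.natDegree - 1 := by
      have := Finset.mem_range.1 hi
      omega
    calc ‖(Q.coeff i : PadicAlgCl p)‖ * ‖ρ‖ ^ i ≤ 1 * ‖ρ‖ ^ i := by gcongr
      _ = ‖ρ‖ ^ i := one_mul _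
      _ ≤ ‖ρ‖ ^ (Q.natDegree - 1) := pow_le_pow_right₀ hne.le h4
  have h5 : ‖ρ ^ Q.natDegree‖ =
      ‖∑ i ∈ Finset.range Q.natDegree, (Q.coeff i : PadicAlgCl p) * ρ ^ i‖ := by
    rw [← norm_neg (ρ ^ Q.natDegree)]
    congr 1
    linear_combination h1
  rw [← h5, norm_pow] at h2
  have h6 : ‖ρ‖ ^ (Q.natDegree - 1) < ‖ρ‖ ^ Q.natDegree :=
    pow_lt_pow_right₀ hne (by omega)
  exact absurd h2 (not_le.2 h6)

end PARL_

open PARL_

theorem p_PARL : T_PARL := by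
  intro p _ ℓ _ hℓ Q r s hQ hs hne hodd c hc
  by_contra hcon
  push Not at hcon
  obtain ⟨σ₀, hσ⟩ := exists_conj ℓ hℓ c hc
  let L := IntermediateField.adjoin ℚ_[p] {c}
  obtain ⟨τ, hτ, hττ⟩ : ∃ τ : L →+* L, (∀ x : L, ((τ x : L) : PadicAlgCl p) = σ₀ x) ∧
    ∀ x, τ (τ x) = x := exists_tau ℓ c hc σ₀ hσ
  have hcL : c ∈ L := IntermediateField.mem_adjoin_simple_self _ _
  have hns : ‖(s : PadicAlgCl p)‖ = 1 := by
    rw [NRT_.norm_intCast]
    have h1 := Padic.norm_int_le_one (p := p) s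
    by_contra hne
    exact hs (Padic.norm_intCast_lt_one_iff.1 (lt_of_le_of_ne h1 hne))
  have hs1 : (s : PadicAlgCl p) ≠ 0 := by
    intro h
    rw [h, norm_zero] at hns
    exact zero_ne_one hns
  have hhv : ((hv Q r s : ℤ) : PadicAlgCl p) =
      (s : PadicAlgCl p) ^ Q.natDegree * aeval ((r : PadicAlgCl p) / s) Q :=
    NRT_.hv_eq (k := PadicAlgCl p) Q r s hs1
  have hr : ‖(r : PadicAlgCl p)‖ ≤ 1 := by
    rw [NRT_.norm_intCast]
    exact Padic.norm_int_le_one r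
  let j : L := (r : L) / s
  have hjc : (j : PadicAlgCl p) = (r : PadicAlgCl p) / s := by
    change ((((r : L) / s : L)) : PadicAlgCl p) = _
    push_cast
    rfl
  have hjτ : τ j = j := by
    change τ ((r : L) / s) = (r : L) / s
    rw [map_div₀, map_intCast, map_intCast]
  have hjn : ‖(j : PadicAlgCl p)‖ ≤ 1 := by
    rw [hjc, norm_div, hns, div_one]
    exact hr
  let A : L[X] := Q.map (algebraMap ℤ L)
  have hAm : A.Monic := hQ.map _
  have hAτ : A.map τ = A := by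
    change (Q.map (algebraMap ℤ L)).map τ = Q.map (algebraMap ℤ L)
    rw [Polynomial.map_map]
    congr 1
    exact RingHom.ext_int _ _
  have hAev : ((A.eval j : L) : PadicAlgCl p) = aeval ((r : PadicAlgCl p) / s) Q := by
    rw [← hjc]
    change algebraMap L (PadicAlgCl p) ((Q.map (algebraMap ℤ L)).eval j) =
      aeval (algebraMap L (PadicAlgCl p) j) Q
    rw [eval_map_algebraMap, aeval_algebraMap_apply]
  have hhvne : ((hv Q r s : ℤ) : PadicAlgCl p) ≠ 0 := by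
    exact_mod_cast hne
  have hAj : A.eval j ≠ 0 := by
    intro h
    apply hhvne
    rw [hhv, ← hAev, h]
    simp
  have hroots : ∀ ρ : PadicAlgCl p, aeval ρ A = 0 → ‖(j : PadicAlgCl p) - ρ‖ ≤ 1 ∧
        (‖(j : PadicAlgCl p) - ρ‖ < 1 → ∀ σ : PadicAlgCl p ≃ₐ[ℚ_[p]] PadicAlgCl p,
          σ ρ = ρ → σ c ≠ -c) := by
    intro ρ hρ
    have hρQ : aeval ρ Q = 0 := by
      have h1 : aeval ρ (Q.map (algebraMap ℤ L)) = 0 := hρ
      rwa [aeval_map_algebraMap] at h1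
    have hρn := norm_root_le Q hQ ρ hρQ
    refine ⟨?_, fun hlt σ h1 => ?_⟩
    · rw [sub_eq_add_neg]
      refine (PadicAlgCl.isNonarchimedean p _ _).trans (max_le hjn ?_)
      rw [norm_neg]
      exact hρn
    · refine hcon ρ hρQ ?_ σ h1
      rw [norm_sub_rev, ← hjc]
      exact hlt
  obtain ⟨k, hk⟩ := main c L hcL σ₀ hσ τ hτ hττ (fun y hy => norm_adj ℓ hℓ c hc σ₀ hσ y y.2
    (by simpa using hy)) j hjτ A.natDegree A rfl hAm hAτ hAj hroots
  have hp1 : (1 : ℝ) < p := by exact_mod_cast (Fact.out : p.Prime).one_lt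
  have h1 : ‖((hv Q r s : ℤ) : PadicAlgCl p)‖ = (p : ℝ) ^ (2 * k) := by
    rw [hhv, norm_mul, norm_pow, hns, one_pow, one_mul, ← hAev, hk]
  have h2 : ‖((hv Q r s : ℤ) : PadicAlgCl p)‖ =
      (p : ℝ) ^ (-(padicValInt p (hv Q r s) : ℤ)) := by
    rw [NRT_.norm_intCast, Padic.norm_eq_zpow_neg_valuation (by exact_mod_cast hne),
      Padic.valuation_intCast]
  rw [h1] at h2
  have h3 := zpow_right_injective₀ (by linarith) hp1.ne' h2
  obtain ⟨m, hm⟩ := hodd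
  omega

end SSP
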