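import Pool.Agent.SSP.Targets

/-!
# RMR: the ramified case
-/

set_option autoImplicit false

open Polynomial

namespace SSP

open SSA

namespace RMR_

theorem rdeg_C {k : Type} [Field k] (c : k) : rdeg (RatFunc.C c) = 0 := by
  unfold rdeg
  rw [RatFunc.num_C, RatFunc.denom_C]
  simp

variable {p : ℕ} [Fact p.Prime]

/-- `x` is integral with reduction `y` -/
def Rd (P : Plc p) (x : PadicAlgCl p) (y : P.k) : Prop := ‖x‖ ≤ 1 ∧ P.red x = y

theorem Rd.add {P : Plc p} {x x' : PadicAlgCl p} {y y' : P.k} (h : Rd P x y) (h' : Rd P x' y') :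
    Rd P (x + x') (y + y') := by
  refine ⟨(IsUltrametricDist.norm_add_le_max x x').trans (max_le h.1 h'.1), ?_⟩
  rw [P.red_add x x' h.1 h'.1, h.2, h'.2]

theorem Rd.mul {P : Plc p} {x x' : PadicAlgCl p} {y y' : P.k} (h : Rd P x y) (h' : Rd P x' y') :
    Rd P (x * x') (y * y') := by
  refine ⟨?_, ?_⟩
  · rw [norm_mul]
    exact mul_le_one₀ h.1 (norm_nonneg _) h'.1
  · rw [P.red_mul x x' h.1 h'.1, h.2, h'.2]

theorem Rd.neg (h1 : T_RIN) {P : Plc p} {x : PadicAlgCl p} {y : P.k} (h : Rd P x y) :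
    Rd P (-x) (-y) := by
  refine ⟨?_, ?_⟩
  · rw [norm_neg]
    exact h.1
  · rw [(h1 p P).2.1 x h.1, h.2]

theorem Rd.sub (h1 : T_RIN) {P : Plc p} {x x' : PadicAlgCl p} {y y' : P.k} (h : Rd P x y)
    (h' : Rd P x' y') : Rd P (x - x') (y - y') := by
  rw [sub_eq_add_neg, sub_eq_add_neg]
  exact h.add (h'.neg h1)

theorem Rd.int (h1 : T_RIN) (P : Plc p) (n : ℤ) : Rd P (n : PadicAlgCl p) (n : P.k) :=
  (h1 p P).2.2.1 n

theorem Rd.aj (h1 : T_RIN) {P : Plc p} {x : PadicAlgCl p} {y : P.k} (h : Rd P x y) :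
    Rd P (aj x) (aj y) := by
  have e3 : Rd P (-3 : PadicAlgCl p) (-3 : P.k) := by
    have := Rd.int h1 P (-3)
    push_cast at this
    exact this
  have e4 : Rd P (1728 : PadicAlgCl p) (1728 : P.k) := by
    have := Rd.int h1 P 1728
    push_cast at this
    exact this
  exact (e3.mul h).mul (h.sub h1 e4)

theorem Rd.bj (h1 : T_RIN) {P : Plc p} {x : PadicAlgCl p} {y : P.k} (h : Rd P x y) :
    Rd P (bj x) (bj y) := by
  have e3 : Rd P (-2 : PadicAlgCl p) (-2 : P.k) := by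
    have := Rd.int h1 P (-2)
    push_cast at this
    exact this
  have e4 : Rd P (1728 : PadicAlgCl p) (1728 : P.k) := by
    have := Rd.int h1 P 1728
    push_cast at this
    exact this
  unfold SSP.bj
  rw [pow_two, pow_two]
  exact (e3.mul h).mul ((h.sub h1 e4).mul (h.sub h1 e4))

theorem zc_aj {k : Type} [Field k] [CharP k p] (x : ZMod p) : zc p k (aj x) = aj (zc p k x) := by
  unfold SSP.aj
  simp only [map_mul, map_neg, map_sub, map_ofNat]

theorem zc_bj {k : Type} [Field k] [CharP k p] (x : ZMod p) : zc p k (bj x) = bj (zc p k x) := by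
  unfold SSP.bj
  simp only [map_mul, map_neg, map_sub, map_ofNat, map_pow]

theorem sq_le {m x y : ℕ} (hx : x ≤ m) (hy : y ≤ m) (h : x * y = m ^ 2) : x = m := by
  rcases Nat.eq_zero_or_pos m with hm | hm
  · omega
  · by_contra hne
    have hlt : x < m := lt_of_le_of_ne hx hne
    have : x * y < m ^ 2 := by
      calc x * y ≤ x * m := Nat.mul_le_mul_left x hy
        _ < m * m := Nat.mul_lt_mul_of_pos_right hlt hm
        _ = m ^ 2 := by ring
    omega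

end RMR_

open RMR_

theorem p_RMR (h1 : T_RIN) (h2 : T_RQA) (h3 : T_RQC) (h4 : T_NCR) (h5 : T_DGN) (h6 : T_RNI)
    (h7 : T_JHP) (h8 : T_CHO) (h9 : T_NRT) (h10 : SSA.T_RFC) : T_RMR := by
  intro p _ P hp5 Q r s hQ hQd hs hr hrs hdiv hCM
  obtain ⟨j₁, hj, hjn⟩ := h9 p Q r s hQ hQd hs hdiv
  have hprime : p.Prime := Fact.out
  obtain ⟨c, hc, -, R₁, R₂, -, -, -, ho1, ho2, hcomp, -, hd1, hd2⟩ :=
    h8 (PadicAlgCl p) j₁ p (by omega) (hCM j₁ hj)
  -- the norm of `c`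
  have hpn : ‖(p : PadicAlgCl p)‖ < 1 := by
    have h := (h1 p P).2.2.1 (p : ℤ)
    push_cast at h
    rw [← P.red_zero _ h.1, h.2]
    exact CharP.cast_eq_zero P.k p
  have hcn : ‖c‖ < 1 := by
    have : ‖c‖ ^ 2 < 1 := by
      rw [← norm_pow, hc, norm_neg]
      exact hpn
    by_contra hge
    rw [not_lt] at hge
    have := one_le_pow₀ hge (n := 2)
    linarith
  have hcR : Rd P c 0 := ⟨hcn.le, (P.red_zero c hcn.le).2 hcn⟩
  have h1R : Rd P (1 : PadicAlgCl p) (1 : P.k) := ⟨by rw [norm_one], P.red_one⟩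
  have hk1 : Rd P ((1 + c) ^ 2) 1 := by
    have := (h1R.add hcR).mul (h1R.add hcR)
    rw [pow_two]
    simpa using this
  have hk2 : Rd P ((1 - c) ^ 2) 1 := by
    have := (h1R.sub h1 hcR).mul (h1R.sub h1 hcR)
    rw [pow_two]
    simpa using this
  have hnorm1 : ∀ x : PadicAlgCl p, Rd P x 1 → ‖x‖ = 1 := by
    intro x hx
    refine le_antisymm hx.1 ?_
    by_contra hlt
    rw [not_le] at hlt
    have := (P.red_zero x hx.1).2 hlt
    rw [hx.2] at this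
    exact one_ne_zero this
  -- the reduction of `j₁`
  obtain ⟨hrsn, hrsr⟩ := (h1 p P).2.2.2.2.2 r s hs
  have hjn1 : ‖j₁‖ ≤ 1 := by
    have e1 : j₁ = (j₁ - (r : PadicAlgCl p) / s) + (r : PadicAlgCl p) / s := by ring
    rw [e1]
    exact (IsUltrametricDist.norm_add_le_max _ _).trans (max_le hjn.le hrsn)
  have hjR : Rd P j₁ (zc p P.k ((r : ZMod p) / (s : ZMod p))) := by
    refine ⟨hjn1, ?_⟩
    rw [← hrsr]
    exact ((h1 p P).2.2.2.1 _ _ hjn1 hrsn).2 hjn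
  set t : ZMod p := (r : ZMod p) / (s : ZMod p) with ht
  have haR := hjR.aj h1
  have hbR := hjR.bj h1
  -- the reduced curve
  have h2k : (2 : P.k) ≠ 0 := by
    intro h
    have : ((2 : ℕ) : P.k) = 0 := by exact_mod_cast h
    rw [CharP.cast_eq_zero_iff P.k p] at this
    have := Nat.le_of_dvd (by norm_num) this
    omega
  have h3k : (3 : P.k) ≠ 0 := by
    intro h
    have : ((3 : ℕ) : P.k) = 0 := by exact_mod_cast h
    rw [CharP.cast_eq_zero_iff P.k p] at this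
    have := Nat.le_of_dvd (by norm_num) this
    omega
  have hs0 : (s : ZMod p) ≠ 0 := by
    rw [Ne, ZMod.intCast_zmod_eq_zero_iff_dvd]
    exact hs
  have ht0 : t ≠ 0 := by
    rw [ht]
    refine div_ne_zero ?_ hs0
    rw [Ne, ZMod.intCast_zmod_eq_zero_iff_dvd]
    exact hr
  have ht1 : t ≠ 1728 := by
    intro h
    rw [ht, div_eq_iff hs0] at h
    apply hrs
    rw [← ZMod.intCast_zmod_eq_zero_iff_dvd]
    push_cast
    rw [h, sub_self]
  have hzinj : Function.Injective (zc p P.k) := (zc p P.k).injective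
  have hz0 : zc p P.k t ≠ 0 := by
    intro h
    exact ht0 (hzinj (by rw [h, map_zero]))
  have hz1 : zc p P.k t ≠ 1728 := by
    intro h
    exact ht1 (hzinj (by rw [h, map_ofNat]))
  obtain ⟨hyp, -, -⟩ := h7 P.k (zc p P.k t) h2k h3k hz0 hz1
  have hdisc : 4 * P.red (aj j₁) ^ 3 + 27 * P.red (bj j₁) ^ 2 ≠ 0 := by
    rw [haR.2, hbR.2]
    exact hyp.disc
  -- reductions of the two maps
  have hnc1 : ∀ x, R₁ ≠ RatFunc.C x := by
    intro x hx
    rw [hx, rdeg_C] at hd1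
    omega
  have hnc2 : ∀ x, R₂ ≠ RatFunc.C x := by
    intro x hx
    rw [hx, rdeg_C] at hd2
    omega
  obtain ⟨r₁, hr1, hrn1, hro1⟩ := h4 p P hp5 (aj j₁) (bj j₁) ((1 + c) ^ 2) haR.1 hbR.1
    (hnorm1 _ hk1) hdisc R₁ hnc1 ho1
  obtain ⟨r₂, hr2, hrn2, hro2⟩ := h4 p P hp5 (aj j₁) (bj j₁) ((1 - c) ^ 2) haR.1 hbR.1
    (hnorm1 _ hk2) hdisc R₂ hnc2 ho2
  have hle1 : rdeg r₁ ≤ p + 1 := by
    rw [← hd1]
    exact (h2 p P).2.2.2.2.2.2.2.2.2.2 R₁ r₁ hr1
  have hle2 : rdeg r₂ ≤ p + 1 := by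
    rw [← hd2]
    exact (h2 p P).2.2.2.2.2.2.2.2.2.2 R₂ r₂ hr2
  have hcr : RedQ P (rcomp R₁ R₂) (rcomp r₁ r₂) := ((h3 p P).1 R₁ R₂ r₁ r₂ hr1 hr2 hrn2).2
  have hmr := (h6 p P hp5 (aj j₁) (bj j₁) haR.1 hbR.1 hdisc (p + 1) (Nat.succ_pos p)).1
  rw [hcomp] at hcr
  have heq := (h2 p P).1 _ _ _ hcr hmr
  have hprod : rdeg r₁ * rdeg r₂ = (p + 1) ^ 2 := by
    have e1 := (h10 P.k r₂ hrn2).2.2.2.2.2.2.2.2.2.2.2.2.1 r₁
    rw [← e1, heq, haR.2, hbR.2]
    exact (h5 P.k _ _ hyp).1 (p + 1)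
  refine ⟨r₁, ?_, sq_le hle1 hle2 hprod⟩
  rw [hk1.2, map_one, one_mul, haR.2, hbR.2] at hro1
  rw [zc_aj, zc_bj]
  exact hro1

end SSP
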