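import Pool.Agent.SSP.Targets

/-!
# RNI: reduction of multiplication by `n`
-/

set_option autoImplicit false

open Polynomial

namespace SSP

open SSA

namespace RNI_

variable {p : ℕ} [Fact p.Prime]

/-- the identity -/
lemma idM_api {k : Type} [Field k] (h4 : SSA.T_API) {a b : k} (h : Hyp a b) :
    idM a b ≠ 0 ∧ xr (idM a b) = RatFunc.X ∧ yr (idM a b) = 1 := by
  obtain ⟨-, -, h3, -⟩ := h4 k a b h
  refine h3 RatFunc.X 1 ?_
  unfold ff ev
  ring

/-- multiples of the identity have different first components -/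
lemma xr_ne {k : Type} [Field k] [IsAlgClosed k] (h3 : T_DGN) {a b : k} (h : Hyp a b) {n : ℕ}
    (hn : 2 ≤ n) : xr (n • idM a b) ≠ xr (idM a b) := by
  intro he
  obtain ⟨d1, -, -⟩ := h3 k a b h
  have e1 : dd (n • idM a b) = dd (1 • idM a b) := by
    unfold dd
    rw [he, one_smul]
  rw [d1, d1] at e1
  nlinarith

variable (P : Plc p)

/-- reduction of the formulas -/
lemma formulas (h1 : T_RIN) (h2 : T_RQA) {a b : PadicAlgCl p} (ha : ‖a‖ ≤ 1) (hb : ‖b‖ ≤ 1) :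
    RedQ P (ff a b) (ff (P.red a) (P.red b)) ∧
    (∀ n : ℤ, RedQ P (n : RatFunc (PadicAlgCl p)) (n : RatFunc P.k)) := by
  obtain ⟨-, q1, q2, q3, q4, q5, q6, q7, q8, -, -⟩ := h2 p P
  obtain ⟨-, -, r1, -, -, -⟩ := h1 p P
  constructor
  · unfold ff
    exact q1 _ _ _ _ (q1 _ _ _ _ (q6 _ _ 3 q8) (q3 _ _ _ _ (q7 a ha) q8)) (q7 b hb)
  · intro n
    have h := q7 (n : PadicAlgCl p) (r1 n).1
    rw [(r1 n).2] at h
    rwa [map_intCast, map_intCast] at h

end RNI_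

open RNI_ in
theorem p_RNI (h1 : T_RIN) (h2 : T_RQA) (h3 : T_DGN) (h4 : SSA.T_API) : T_RNI := by
  intro p _ P hp a b ha hb hdisc n hn
  obtain ⟨-, q1, q2, q3, q4, q5, q6, q7, q8, -, -⟩ := h2 p P
  obtain ⟨r0, -, r1, -, -, -⟩ := h1 p P
  obtain ⟨hff, hint⟩ := formulas P h1 h2 ha hb
  have hcast : ∀ m : ℕ, 0 < m → m < p → (m : P.k) ≠ 0 := by
    intro m hm0 hm h
    have := (CharP.cast_eq_zero_iff P.k p m).1 h
    exact absurd (Nat.le_of_dvd hm0 this) (not_le.2 hm)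
  have hH' : Hyp (P.red a) (P.red b) := by
    refine ⟨?_, ?_, hdisc⟩
    · exact_mod_cast hcast 2 (by norm_num) (by omega)
    · exact_mod_cast hcast 3 (by norm_num) (by omega)
  have hH : Hyp a b := by
    refine ⟨two_ne_zero, three_ne_zero, ?_⟩
    intro h
    apply hdisc
    have n4 := r1 4
    have n27 := r1 27
    push_cast at n4 n27
    have ha3 : ‖a ^ 3‖ ≤ 1 := by rw [norm_pow]; exact pow_le_one₀ (norm_nonneg _) ha
    have hb2 : ‖b ^ 2‖ ≤ 1 := by rw [norm_pow]; exact pow_le_one₀ (norm_nonneg _) hb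
    have hpow : ∀ (x : PadicAlgCl p) (m : ℕ), ‖x‖ ≤ 1 → P.red (x ^ m) = P.red x ^ m := by
      intro x m hx
      induction m with
      | zero => rw [pow_zero, pow_zero, P.red_one]
      | succ m ih =>
        rw [pow_succ, pow_succ, P.red_mul _ _ (by
          rw [norm_pow]; exact pow_le_one₀ (norm_nonneg _) hx) hx, ih]
    have e1 : ‖(4 : PadicAlgCl p) * a ^ 3‖ ≤ 1 := by
      rw [norm_mul]
      exact mul_le_one₀ n4.1 (norm_nonneg _) ha3
    have e2 : ‖(27 : PadicAlgCl p) * b ^ 2‖ ≤ 1 := by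
      rw [norm_mul]
      exact mul_le_one₀ n27.1 (norm_nonneg _) hb2
    have h5 := P.red_add _ _ e1 e2
    rw [h, r0, P.red_mul _ _ n4.1 ha3, P.red_mul _ _ n27.1 hb2, n4.2, n27.2, hpow a 3 ha,
      hpow b 2 hb] at h5
    exact h5.symm
  obtain ⟨i1, i2, i3⟩ := idM_api h4 hH
  obtain ⟨j1, j2, j3⟩ := idM_api h4 hH'
  obtain ⟨a1, -, -, -, -, -, a7, a8, -⟩ := h4 _ a b hH
  obtain ⟨b1, -, -, -, -, -, b7, b8, -⟩ := h4 _ (P.red a) (P.red b) hH'
  have hone : RedQ P (1 : RatFunc (PadicAlgCl p)) (1 : RatFunc P.k) := by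
    have := hint 1
    rwa [Int.cast_one, Int.cast_one] at this
  have htwo : RedQ P (2 : RatFunc (PadicAlgCl p)) (2 : RatFunc P.k) := by
    exact_mod_cast hint 2
  have hthree : RedQ P (3 : RatFunc (PadicAlgCl p)) (3 : RatFunc P.k) := by
    exact_mod_cast hint 3
  have hxid : RedQ P (xr (idM a b)) (xr (idM (P.red a) (P.red b))) := by
    rw [i2, j2]; exact q8
  have hyid : RedQ P (yr (idM a b)) (yr (idM (P.red a) (P.red b))) := by
    rw [i3, j3]; exact hone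
  obtain ⟨-, d2, -⟩ := h3 _ a b hH
  obtain ⟨-, e2, -⟩ := h3 _ (P.red a) (P.red b) hH'
  -- doubling
  have hdouble : RedQ P (xr (idM a b + idM a b)) (xr (idM (P.red a) (P.red b) +
      idM (P.red a) (P.red b))) ∧
      RedQ P (yr (idM a b + idM a b)) (yr (idM (P.red a) (P.red b) +
      idM (P.red a) (P.red b))) := by
    obtain ⟨-, x1, y1⟩ := a8 (idM a b) i1 (by rw [i3]; exact one_ne_zero)
    obtain ⟨-, x2, y2⟩ := b8 (idM (P.red a) (P.red b)) j1 (by rw [j3]; exact one_ne_zero)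
    have hden : (2 : RatFunc P.k) * ff (P.red a) (P.red b) * yr (idM (P.red a) (P.red b)) ≠ 0 := by
      rw [j3, mul_one]
      refine mul_ne_zero ?_ b1
      have : (2 : RatFunc P.k) = RatFunc.C (2 : P.k) := (map_ofNat RatFunc.C 2).symm
      rw [this]
      intro h0
      apply hH'.two
      apply RatFunc.C_injective
      rw [h0, map_zero]
    have hsl := q4 _ _ _ _ (q1 _ _ _ _ (q3 _ _ _ _ hthree (q6 _ _ 2 hxid)) (q7 a ha))
      (q3 _ _ _ _ (q3 _ _ _ _ htwo hff) hyid) hden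
    have hx : RedQ P (xr (idM a b + idM a b)) (xr (idM (P.red a) (P.red b) +
        idM (P.red a) (P.red b))) := by
      rw [x1, x2]
      exact q2 _ _ _ _ (q3 _ _ _ _ hff (q6 _ _ 2 hsl)) (q3 _ _ _ _ htwo hxid)
    refine ⟨hx, ?_⟩
    rw [y1, y2]
    exact q5 _ _ (q1 _ _ _ _ (q3 _ _ _ _ hsl (q2 _ _ _ _ hx hxid)) hyid)
  induction n, hn using Nat.le_induction with
  | base =>
    rw [Nat.succ_eq_add_one, zero_add, one_smul, one_smul]
    exact ⟨hxid, hyid⟩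
  | succ n hn ih =>
    obtain ⟨ihx, ihy⟩ := ih
    rw [succ_nsmul, succ_nsmul]
    by_cases h2n : 2 ≤ n
    · obtain ⟨-, x1, y1⟩ := a7 (n • idM a b) (idM a b) (d2 n hn) i1 (xr_ne h3 hH h2n)
      obtain ⟨-, x2, y2⟩ := b7 (n • idM (P.red a) (P.red b)) (idM (P.red a) (P.red b))
        (e2 n hn) j1 (xr_ne h3 hH' h2n)
      have hsl := q4 _ _ _ _ (q2 _ _ _ _ ihy hyid) (q2 _ _ _ _ ihx hxid)
        (sub_ne_zero.2 (xr_ne h3 hH' h2n))
      have hx : RedQ P (xr (n • idM a b + idM a b)) (xr (n • idM (P.red a) (P.red b) +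
          idM (P.red a) (P.red b))) := by
        rw [x1, x2]
        exact q2 _ _ _ _ (q2 _ _ _ _ (q3 _ _ _ _ hff (q6 _ _ 2 hsl)) ihx) hxid
      refine ⟨hx, ?_⟩
      rw [y1, y2]
      exact q5 _ _ (q1 _ _ _ _ (q3 _ _ _ _ hsl (q2 _ _ _ _ hx ihx)) ihy)
    · have h1n : n = 1 := by omega
      rw [h1n, one_smul, one_smul]
      exact hdouble

end SSP
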