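import Pool.Agent.SSP.Targets

/-!
# UNQ: a map fixing infinity is determined by its action on the differential
-/

open Polynomial

namespace SSP

open SSA

/-- derivative zero implies constant in characteristic zero -/
theorem UNQ_.const {k : Type} [Field k] [CharZero k] (R : RatFunc k) (h : rder R = 0) :
    ∃ c : k, R = RatFunc.C c := by
  unfold rder at h
  have hD : R.denom ≠ 0 := R.denom_ne_zero
  rw [div_eq_zero_iff] at h
  have h1 : derivative R.num * R.denom - R.num * derivative R.denom = 0 := by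
    rcases h with h | h
    · exact (map_eq_zero_iff _ (RatFunc.algebraMap_injective k)).1 h
    · exact absurd ((map_eq_zero_iff _ (RatFunc.algebraMap_injective k)).1 h)
        (pow_ne_zero 2 hD)
  have h2 : R.denom ∣ R.num * derivative R.denom := ⟨derivative R.num, by
    linear_combination -h1⟩
  have h3 : R.denom ∣ derivative R.denom := R.isCoprime_num_denom.symm.dvd_of_dvd_mul_left h2
  have h4 : derivative R.denom = 0 := by
    by_contra h5
    have h6 := Polynomial.natDegree_le_of_dvd h3 h5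
    have h7 : R.denom.natDegree ≠ 0 := by
      intro h8
      rw [Polynomial.natDegree_eq_zero] at h8
      obtain ⟨x, hx⟩ := h8
      rw [← hx] at h5
      simp at h5
    have h8 := Polynomial.natDegree_derivative_lt h7
    omega
  have h5 : R.denom.natDegree = 0 := Polynomial.derivative_eq_zero.1 h4
  rw [h4, mul_zero, sub_zero] at h1
  have h6 : derivative R.num = 0 := by
    rcases mul_eq_zero.1 h1 with h7 | h7
    · exact h7
    · exact absurd h7 hD
  have h7 : R.num.natDegree = 0 := Polynomial.derivative_eq_zero.1 h6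
  obtain ⟨x, hx⟩ := Polynomial.natDegree_eq_zero.1 h7
  obtain ⟨y, hy⟩ := Polynomial.natDegree_eq_zero.1 h5
  refine ⟨x / y, ?_⟩
  rw [← RatFunc.num_div_denom R, ← hx, ← hy, RatFunc.algebraMap_C, RatFunc.algebraMap_C,
    ← map_div₀]

/-- a root of `X^3+aX+b` in `k(X)` is constant -/
theorem UNQ_.root {k : Type} [Field k] [IsAlgClosed k] (a b : k) (R : RatFunc k)
    (h : ev a b R = 0) : ∃ e : k, R = RatFunc.C e ∧ e ^ 3 + a * e + b = 0 := by
  have hmon : (fp a b).Monic := by
    unfold fp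
    monicity!
  have hint : IsIntegral k R := by
    refine ⟨fp a b, hmon, ?_⟩
    unfold fp
    simp only [eval₂_add, eval₂_mul, eval₂_pow, eval₂_X, eval₂_C]
    rw [RatFunc.algebraMap_eq_C]
    exact h
  have hirr := minpoly.irreducible hint
  have hdeg := IsAlgClosed.degree_eq_one_of_irreducible k hirr
  obtain ⟨e, he⟩ := minpoly.mem_range_of_degree_eq_one k R hdeg
  rw [RatFunc.algebraMap_eq_C] at he
  refine ⟨e, he.symm, ?_⟩
  rw [← he] at h
  unfold ev at h
  rw [← map_pow, ← map_mul, ← map_add, ← map_add] at h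
  exact (map_eq_zero_iff _ (RatFunc.C_injective (K := k))).1 h

theorem UNQ_.ndeg {k : Type} [Field k] (R : RatFunc k) (h : R.denom.natDegree < R.num.natDegree)
    (c : k) : R ≠ RatFunc.C c := by
  rintro rfl
  simp at h

theorem UNQ_.ideg {k : Type} [Field k] (R : RatFunc k) (h : R.denom.natDegree < R.num.natDegree)
    (e : k) : 0 < (R - RatFunc.C e).intDegree := by
  have h1 : 0 < R.intDegree := by
    unfold RatFunc.intDegree
    omega
  by_cases he : e = 0
  · rw [he, map_zero, sub_zero]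
    exact h1
  · have h2 : RatFunc.C e ≠ (0 : RatFunc k) := by
      rwa [Ne, map_eq_zero_iff _ (RatFunc.C_injective (K := k))]
    have h3 : (R - RatFunc.C e) + RatFunc.C e ≠ 0 := by
      rw [sub_add_cancel]
      rintro rfl
      simp at h
    have h4 := RatFunc.intDegree_add_le h2 h3
    rw [sub_add_cancel, RatFunc.intDegree_C] at h4
    rcases le_max_iff.1 h4 with h5 | h5
    · linarith
    · linarith

theorem p_UNQ (h1 : SSA.T_API) (h2 : SSA.T_XPM) (h3 : SSA.T_TRS) (h4 : SSA.T_DDA) : T_UNQ := by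
  intro k _ _ _ a b hH R₁ R₂ κ hκ hd1 hd2 hR1 hR2
  obtain ⟨c, hc⟩ := IsAlgClosed.exists_pow_nat_eq κ (n := 2) (by norm_num)
  have hc0 : c ≠ 0 := by
    rintro rfl
    apply hκ
    rw [← hc]
    norm_num
  have hC0 : RatFunc.C c ≠ (0 : RatFunc k) := by
    rwa [Ne, map_eq_zero_iff _ (RatFunc.C_injective (K := k))]
  obtain ⟨a1, -, a3, a4, a5, -, -, -, -⟩ := h1 k a b hH
  have hκC : (RatFunc.C κ : RatFunc k) = RatFunc.C c ^ 2 := by rw [← hc, map_pow]
  -- the two points
  have key : ∀ R : RatFunc k, R.denom.natDegree < R.num.natDegree →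
      rder R ^ 2 * ff a b = RatFunc.C κ * ev a b R →
      mkP a b R (rder R / RatFunc.C c) ≠ 0 ∧ xr (mkP a b R (rder R / RatFunc.C c)) = R ∧
      DD (mkP a b R (rder R / RatFunc.C c)) = RatFunc.C c := by
    intro R hd hR
    have hr : rder R ≠ 0 := by
      intro h0
      obtain ⟨x, hx⟩ := UNQ_.const R h0
      exact UNQ_.ndeg R hd x hx
    have h5 : ff a b * (rder R / RatFunc.C c) ^ 2 = ev a b R := by
      rw [div_pow, mul_div_assoc', div_eq_iff (pow_ne_zero 2 hC0), mul_comm (ff a b), hR, hκC]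
      ring
    obtain ⟨b1, b2, b3⟩ := a3 R _ h5
    refine ⟨b1, b2, ?_⟩
    unfold DD
    rw [b2, b3]
    field_simp
  obtain ⟨p1, p2, p3⟩ := key R₁ hd1 hR1
  obtain ⟨q1, q2, q3⟩ := key R₂ hd2 hR2
  set α₁ := mkP a b R₁ (rder R₁ / RatFunc.C c) with hα1
  set α₂ := mkP a b R₂ (rder R₂ / RatFunc.C c) with hα2
  obtain ⟨d1, d2, -, -⟩ := h4 k a b hH
  have hDD : DD (α₁ - α₂) = 0 := by
    rw [sub_eq_add_neg, d1, d2, p3, q3]
    ring
  by_cases hβ : α₁ - α₂ = 0
  · rw [← p2, ← q2, sub_eq_zero.1 hβ]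
  · exfalso
    have hy : yr (α₁ - α₂) = 0 := by
      unfold DD at hDD
      rcases div_eq_zero_iff.1 hDD with h5 | h5
      · exact (h2 k a b hH).2.2 _ hβ (UNQ_.const _ h5)
      · exact h5
    obtain ⟨b1, b2⟩ := a4 _ hβ
    rw [hy] at b1 b2
    have h6 : ev a b (xr (α₁ - α₂)) = 0 := by
      rw [← b1]
      ring
    obtain ⟨e, he, he2⟩ := UNQ_.root a b _ h6
    rw [he] at b2
    obtain ⟨-, -, -, t4⟩ := h3 k a b hH e he2
    have hne2 : xr α₂ ≠ RatFunc.C e := by
      rw [q2]
      exact UNQ_.ndeg R₂ hd2 e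
    obtain ⟨-, t5⟩ := t4 α₂ q1 hne2
    have h7 : α₂ + mkP a b (RatFunc.C e) 0 = α₁ := by
      rw [← b2]
      abel
    rw [h7, p2, q2] at t5
    have hsub1 : R₁ - RatFunc.C e ≠ 0 := sub_ne_zero.2 (UNQ_.ndeg R₁ hd1 e)
    have hsub2 : R₂ - RatFunc.C e ≠ 0 := sub_ne_zero.2 (UNQ_.ndeg R₂ hd2 e)
    have h8 : (R₁ - RatFunc.C e) * (R₂ - RatFunc.C e) = RatFunc.C (3 * e ^ 2 + a) := by
      rw [t5]
      field_simp
      ring
    have h9 := congrArg RatFunc.intDegree h8
    rw [RatFunc.intDegree_mul hsub1 hsub2, RatFunc.intDegree_C] at h9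
    have h10 := UNQ_.ideg R₁ hd1 e
    have h11 := UNQ_.ideg R₂ hd2 e
    linarith

end SSP
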