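import Pool.Agent.SSP.TargetsB
import Pool.Agent.SSP.RMR
import Pool.Agent.SSP.CHO
import Pool.Agent.SSP.RNI
import Pool.Agent.SSP.UNQ

/-!
# RBX: reduction of the endomorphism at a prime dividing `D`
-/

set_option autoImplicit false

open Polynomial

namespace SSP

open SSA

namespace RBX_

/-- composition with the opposite sign: degrees over an algebraically closed field -/
lemma degs {k : Type} [Field k] [IsAlgClosed k] (h2 : T_DGN) (h3 : SSA.T_API) (h4 : SSA.T_RFC)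
    (h5 : SSA.T_PAR) (h7 : SSA.T_DDA) (h9 : SSA.T_RFD) {a b : k} (H : Hyp a b) {D : ℕ}
    {α : MM a b} {c : k} (hD : DD α = RatFunc.C c) (hdα : dd α = D) {x : ℕ}
    (hc1 : (x : k) + c ≠ 0) (hc2 : (x : k) - c ≠ 0)
    (hcomp : rcomp (xr (x • idM a b + α)) (xr (x • idM a b - α)) =
      xr ((x ^ 2 + D) • idM a b)) :
    DD (x • idM a b + α) = RatFunc.C ((x : k) + c) ∧
    DD (x • idM a b - α) = RatFunc.C ((x : k) - c) ∧
    dd (x • idM a b + α) = x ^ 2 + D ∧ dd (x • idM a b - α) = x ^ 2 + D := by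
  obtain ⟨hdd, -, hDn⟩ := h2 k _ _ H
  obtain ⟨hDadd, hDneg, -, -⟩ := h7 k _ _ H
  have hD1 : DD (x • idM a b + α) = RatFunc.C ((x : k) + c) := by
    rw [hDadd, hDn, hD, map_add, map_natCast]
  have hD2 : DD (x • idM a b - α) = RatFunc.C ((x : k) - c) := by
    rw [sub_eq_add_neg, hDadd, hDneg, hDn, hD, map_sub, map_natCast, ← sub_eq_add_neg]
  obtain ⟨-, -⟩ := CHO_.ode H h3 h9 hc1 hD1
  obtain ⟨hn2, -⟩ := CHO_.ode H h3 h9 hc2 hD2
  obtain ⟨-, -, -, -, -, -, -, -, -, -, -, -, hrd2, -⟩ := h4 k (xr (x • idM a b - α)) hn2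
  have e1 : dd (x • idM a b + α) * dd (x • idM a b - α) = (x ^ 2 + D) ^ 2 := by
    have : rdeg (xr (x • idM a b + α)) * rdeg (xr (x • idM a b - α)) = (x ^ 2 + D) ^ 2 := by
      rw [← hrd2, hcomp]
      exact hdd (x ^ 2 + D)
    exact this
  have e2 : dd (x • idM a b + α) + dd (x • idM a b - α) = 2 * (x ^ 2 + D) := by
    have h8 := h5 k _ _ H (x • idM a b) α
    rw [hdd x, hdα] at h8
    omega
  obtain ⟨e3, e4⟩ := CHO_.nat_eq e1 e2
  exact ⟨hD1, hD2, e3, e4⟩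

variable {p : ℕ} [Fact p.Prime]

/-- reduction of one point whose action on the differential is a unit -/
lemma redpt (h2 : T_RQA) (h4 : T_NCR) (h9 : SSA.T_API) (h11 : SSA.T_RFD)
    (P : Plc p) (hp5 : 5 ≤ p) {a b : PadicAlgCl p} {a' b' : P.k} (haR : RMR_.Rd P a a')
    (hbR : RMR_.Rd P b b') (H : Hyp a b) (H' : Hyp a' b') {Pt : MM a b} {u : PadicAlgCl p}
    {v : P.k} (hu : RMR_.Rd P u v) (hun : ‖u‖ = 1) (hv : v ≠ 0) (hD : DD Pt = RatFunc.C u) :
    ∃ r : RatFunc P.k, RedQ P (xr Pt) r ∧ RedQ P (yr Pt) (rder r / RatFunc.C v) ∧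
      (∀ t, r ≠ RatFunc.C t) ∧ rder r ≠ 0 ∧
      ff a' b' * (rder r / RatFunc.C v) ^ 2 = ev a' b' r := by
  have hu0 : u ≠ 0 := by
    intro h
    rw [h, norm_zero] at hun
    exact zero_ne_one hun
  obtain ⟨hnc, hode⟩ := CHO_.ode H h9 h11 hu0 hD
  have hu2 : RMR_.Rd P (u ^ 2) (v ^ 2) := by
    rw [pow_two, pow_two]
    exact hu.mul hu
  have hun2 : ‖u ^ 2‖ = 1 := by rw [norm_pow, hun, one_pow]
  have hdisc : 4 * P.red a ^ 3 + 27 * P.red b ^ 2 ≠ 0 := by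
    rw [haR.2, hbR.2]
    exact H'.disc
  obtain ⟨r, hr, hrn, hro⟩ := h4 p P hp5 a b (u ^ 2) haR.1 hbR.1 hun2 hdisc (xr Pt) hnc hode
  rw [haR.2, hbR.2, hu2.2, map_pow] at hro
  have hCv : (RatFunc.C v : RatFunc P.k) ≠ 0 := by
    rw [Ne, map_eq_zero]
    exact hv
  have hev : ev a' b' r ≠ 0 := by
    intro h
    obtain ⟨e, he, -⟩ := UNQ_.root a' b' r h
    exact hrn e he
  have hder : rder r ≠ 0 := by
    intro h
    rw [h] at hro
    have : (RatFunc.C v : RatFunc P.k) ^ 2 * ev a' b' r = 0 := by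
      rw [← hro]; ring
    rcases mul_eq_zero.1 this with h5 | h5
    · exact pow_ne_zero 2 hCv h5
    · exact hev h5
  have hCu : (RatFunc.C u : RatFunc (PadicAlgCl p)) ≠ 0 := by
    rw [Ne, map_eq_zero]
    exact hu0
  have hy : yr Pt = rder (xr Pt) / RatFunc.C u := by
    have hy0 : yr Pt ≠ 0 := by
      intro h0
      apply hCu
      rw [← hD]
      unfold DD
      rw [h0, div_zero]
    rw [← hD]
    unfold DD
    rw [div_div_eq_mul_div, eq_div_iff]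
    · ring
    · intro h0
      apply hCu
      rw [← hD]
      unfold DD
      rw [h0, zero_div]
  obtain ⟨-, -, -, -, q4, -, -, q7, -, q9, -⟩ := h2 p P
  refine ⟨r, hr, ?_, hrn, hder, ?_⟩
  · rw [hy]
    have hCR := q7 u hu.1
    rw [hu.2] at hCR
    exact q4 _ _ _ _ (q9 _ _ hr) hCR hCv
  · rw [div_pow, mul_div_assoc', div_eq_iff (pow_ne_zero 2 hCv)]
    linear_combination hro

/-- the norm of `x ± c` -/
lemma unit_norm {P : Plc p} {u : PadicAlgCl p} {v : P.k} (hu : RMR_.Rd P u v) (hv : v ≠ 0) :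
    ‖u‖ = 1 := by
  refine le_antisymm hu.1 ?_
  by_contra hlt
  rw [not_le] at hlt
  exact hv (by rw [← hu.2]; exact (P.red_zero u hu.1).2 hlt)

/-- the main statement -/
lemma core (h1 : T_RIN) (h2 : T_RQA) (h3 : T_RQC) (h4 : T_NCR) (h5 : T_DGN) (h6 : T_RNI)
    (h9 : SSA.T_API) (h10 : SSA.T_RFC) (h11 : SSA.T_RFD)
    (h12 : SSA.T_PAR) (h14 : SSA.T_DDA)
    (P : Plc p) (D : ℕ) (hp5 : 5 ≤ p) (hD0 : 0 < D) (hpD : p ∣ D) {a b : PadicAlgCl p}
    {a' b' : P.k} (haR : RMR_.Rd P a a') (hbR : RMR_.Rd P b b') (H : Hyp a b) (H' : Hyp a' b')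
    {c : PadicAlgCl p} (hc : c ^ 2 = -(D : PadicAlgCl p)) {α : MM a b}
    (hDα : DD α = RatFunc.C c) (hdeg : (xr α).denom.natDegree < (xr α).num.natDegree)
    (hcomp : ∀ x : ℕ, rcomp (xr (x • idM a b + α)) (xr (x • idM a b - α)) =
      xr ((x ^ 2 + D) • idM a b)) :
    ∃ β : MM a' b', DD β = 0 ∧ dd β = D ∧ BB β (idM a' b') = 0 := by
  have hprime : p.Prime := Fact.out
  -- the norm of `c`
  have hpn : ‖(D : PadicAlgCl p)‖ < 1 := by
    have h := (h1 p P).2.2.1 (D : ℤ)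
    push_cast at h
    rw [← P.red_zero _ h.1, h.2]
    exact (CharP.cast_eq_zero_iff P.k p D).2 hpD
  have hcn : ‖c‖ < 1 := by
    have : ‖c‖ ^ 2 < 1 := by
      rw [← norm_pow, hc, norm_neg]
      exact hpn
    by_contra hge
    rw [not_lt] at hge
    have := one_le_pow₀ hge (n := 2)
    linarith
  have hcR : RMR_.Rd P c 0 := ⟨hcn.le, (P.red_zero c hcn.le).2 hcn⟩
  -- degree of `α`
  have hnα := UNQ_.ndeg (xr α) hdeg
  have hdα : dd α = D := by
    obtain ⟨-, -, -, -, -, -, -, -, -, -, -, -, hrd0, -⟩ := h10 _ (xr α) hnα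
    have e := hcomp 0
    rw [zero_nsmul, zero_add, zero_sub, ((h9 _ a b H).2.2.2.2.1 α).1] at e
    have e0 : rdeg (xr α) * rdeg (xr α) = D ^ 2 := by
      rw [← hrd0, e]
      have := (h5 _ a b H).1 (0 ^ 2 + D)
      unfold dd at this
      rw [this]
      ring
    rw [← sq] at e0
    exact Nat.pow_left_injective (n := 2) (by norm_num) e0
  -- the points `x id ± α`
  have hxk : ∀ x : ℕ, 0 < x → x < 5 → (x : P.k) ≠ 0 := by
    intro x hx0 hx5 h
    rw [CharP.cast_eq_zero_iff P.k p] at h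
    have := Nat.le_of_dvd hx0 h
    omega
  have hxR : ∀ x : ℕ, RMR_.Rd P (x : PadicAlgCl p) (x : P.k) := by
    intro x
    have := RMR_.Rd.int h1 P (x : ℤ)
    push_cast at this
    exact this
  have hxp : ∀ x : ℕ, RMR_.Rd P ((x : PadicAlgCl p) + c) (x : P.k) := by
    intro x
    have := (hxR x).add hcR
    rwa [add_zero] at this
  have hxm : ∀ x : ℕ, RMR_.Rd P ((x : PadicAlgCl p) - c) (x : P.k) := by
    intro x
    have := (hxR x).sub h1 hcR
    rwa [sub_zero] at this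
  have hdisc : 4 * P.red a ^ 3 + 27 * P.red b ^ 2 ≠ 0 := by
    rw [haR.2, hbR.2]
    exact H'.disc
  have main : ∀ x : ℕ, 0 < x → x < 5 → ∃ r : RatFunc P.k, RedQ P (xr (x • idM a b + α)) r ∧
      RedQ P (yr (x • idM a b + α)) (rder r / RatFunc.C (x : P.k)) ∧
      (∀ t, r ≠ RatFunc.C t) ∧ rder r ≠ 0 ∧
      ff a' b' * (rder r / RatFunc.C (x : P.k)) ^ 2 = ev a' b' r ∧ rdeg r = x ^ 2 + D := by
    intro x hx0 hx5
    have hx := hxk x hx0 hx5
    have n1 := unit_norm (hxp x) hx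
    have n2 := unit_norm (hxm x) hx
    have z1 : (x : PadicAlgCl p) + c ≠ 0 := by
      intro h
      rw [h, norm_zero] at n1
      exact zero_ne_one n1
    have z2 : (x : PadicAlgCl p) - c ≠ 0 := by
      intro h
      rw [h, norm_zero] at n2
      exact zero_ne_one n2
    obtain ⟨D1, D2, d1, d2⟩ := degs h5 h9 h10 h12 h14 h11 H hDα hdα z1 z2 (hcomp x)
    obtain ⟨r, a1, a2, a3, a4, a5⟩ := redpt h2 h4 h9 h11 P hp5 haR hbR H H' (hxp x) n1 hx D1
    obtain ⟨r', b1, -, b3, -, -⟩ := redpt h2 h4 h9 h11 P hp5 haR hbR H H' (hxm x) n2 hx D2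
    refine ⟨r, a1, a2, a3, a4, a5, ?_⟩
    have hle1 : rdeg r ≤ x ^ 2 + D := by
      rw [← d1]
      exact (h2 p P).2.2.2.2.2.2.2.2.2.2 _ r a1
    have hle2 : rdeg r' ≤ x ^ 2 + D := by
      rw [← d2]
      exact (h2 p P).2.2.2.2.2.2.2.2.2.2 _ r' b1
    have hcr := ((h3 p P).1 _ _ r r' a1 b1 b3).2
    have hmr := (h6 p P hp5 a b haR.1 hbR.1 hdisc (x ^ 2 + D) (by omega)).1
    rw [hcomp x] at hcr
    have heq := (h2 p P).1 _ _ _ hcr hmr
    have hprod : rdeg r * rdeg r' = (x ^ 2 + D) ^ 2 := by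
      have e1 := (h10 P.k r' b3).2.2.2.2.2.2.2.2.2.2.2.2.1 r
      rw [← e1, heq, haR.2, hbR.2]
      exact (h5 P.k _ _ H').1 (x ^ 2 + D)
    exact RMR_.sq_le hle1 hle2 hprod
  obtain ⟨r₁, x1, y1, c1, e1, o1, g1⟩ := main 1 (by norm_num) (by norm_num)
  obtain ⟨r₂, x2, -, -, -, -, g2⟩ := main 2 (by norm_num) (by norm_num)
  obtain ⟨-, q1, q2, q3, q4, q5, q6, q7, q8, -, -⟩ := h2 p P
  obtain ⟨i1, i2, i3⟩ := RNI_.idM_api h9 H
  obtain ⟨j1, j2, j3⟩ := RNI_.idM_api h9 H'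
  obtain ⟨-, m1, m2, -⟩ := h9 P.k a' b' H'
  obtain ⟨ρ0, ρx, ρy⟩ := m2 r₁ _ o1
  set ρ : MM a' b' := mkP a' b' r₁ (rder r₁ / RatFunc.C ((1 : ℕ) : P.k)) with hρ
  have hdρ : dd ρ = 1 + D := by
    unfold dd
    rw [ρx, g1]
    ring
  have hDρ : DD ρ = 1 := by
    unfold DD
    rw [ρx, ρy, Nat.cast_one, map_one, div_one, div_self e1]
  have hdid : ∀ {k : Type} [Field k] [IsAlgClosed k] {a b : k}, Hyp a b → dd (idM a b) = 1 := by
    intro k _ _ a b H
    have := (h5 k a b H).1 1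
    rw [one_smul] at this
    simpa using this
  -- `ρ + id`
  have hDp : p ≤ D := Nat.le_of_dvd hD0 hpD
  have nx : xr (1 • idM a b + α) ≠ xr (idM a b) := by
    intro h
    have z1 : ((1 : ℕ) : PadicAlgCl p) + c ≠ 0 := by
      intro h0
      have n1 := unit_norm (hxp 1) (hxk 1 (by norm_num) (by norm_num))
      rw [h0, norm_zero] at n1
      exact zero_ne_one n1
    have z2 : ((1 : ℕ) : PadicAlgCl p) - c ≠ 0 := by
      intro h0
      have n1 := unit_norm (hxm 1) (hxk 1 (by norm_num) (by norm_num))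
      rw [h0, norm_zero] at n1
      exact zero_ne_one n1
    obtain ⟨-, -, d1, -⟩ := degs h5 h9 h10 h12 h14 h11 H hDα hdα z1 z2 (hcomp 1)
    have d2 := hdid H
    unfold dd at d1 d2
    rw [h, d2] at d1
    omega
  have nr : xr ρ ≠ xr (idM a' b') := by
    intro h
    have d2 := hdid H'
    have d1 := hdρ
    unfold dd at d1 d2
    rw [h, d2] at d1
    omega
  have hP1 : (1 • idM a b + α) ≠ 0 := by
    intro h
    rw [h, (h9 _ a b H).2.1.2] at y1
    have hz : RedQ P (0 : RatFunc (PadicAlgCl p)) (0 : RatFunc P.k) := by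
      have := q7 0 (by rw [norm_zero]; exact zero_le_one)
      rwa [(h1 p P).1, map_zero, map_zero] at this
    have := (h2 p P).1 _ _ _ y1 hz
    rw [div_eq_zero_iff] at this
    rcases this with h0 | h0
    · exact e1 h0
    · rw [map_eq_zero] at h0
      exact hxk 1 (by norm_num) (by norm_num) h0
  obtain ⟨-, f1, -⟩ := (h9 _ a b H).2.2.2.2.2.2.1 (1 • idM a b + α) (idM a b) hP1 i1 nx
  obtain ⟨-, f2, -⟩ := (h9 _ a' b' H').2.2.2.2.2.2.1 ρ (idM a' b') ρ0 j1 nr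
  have hsum : (1 • idM a b + α) + idM a b = 2 • idM a b + α := by
    rw [one_smul, two_smul]
    abel
  have hone : RedQ P (1 : RatFunc (PadicAlgCl p)) (1 : RatFunc P.k) := by
    have := q7 1 (by rw [norm_one])
    rwa [P.red_one, map_one, map_one] at this
  have hff : RedQ P (ff a b) (ff a' b') := by
    have := (RNI_.formulas P h1 h2 haR.1 hbR.1).1
    rwa [haR.2, hbR.2] at this
  have hred : RedQ P (xr (2 • idM a b + α)) (xr (ρ + idM a' b')) := by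
    rw [← hsum, f1, f2, i2, i3, j2, j3, ρx, ρy]
    have hden : r₁ - RatFunc.X ≠ 0 := by
      rw [sub_ne_zero, ← ρx, ← j2]
      exact nr
    have hsl := q4 _ _ _ _ (q2 _ _ _ _ y1 hone) (q2 _ _ _ _ x1 q8) hden
    exact q2 _ _ _ _ (q2 _ _ _ _ (q3 _ _ _ _ hff (q6 _ _ 2 hsl)) x1) q8
  have hx2 : xr (ρ + idM a' b') = r₂ := (h2 p P).1 _ _ _ hred x2
  have hd2 : dd (ρ + idM a' b') = 4 + D := by
    unfold dd
    rw [hx2, g2]
    norm_num
  -- the point `β`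
  have hpar := h12 P.k a' b' H' ρ (idM a' b')
  rw [hd2, hdρ, hdid H'] at hpar
  have hdβ : dd (ρ - idM a' b') = D := by omega
  refine ⟨ρ - idM a' b', ?_, hdβ, ?_⟩
  · obtain ⟨k1, k2, -, k4⟩ := h14 P.k a' b' H'
    rw [sub_eq_add_neg, k1, k2, k4, hDρ]
    ring
  · unfold BB
    rw [sub_add_cancel, hdρ, hdβ, hdid H']
    push_cast
    ring

end RBX_

open RBX_ in
theorem p_RBX (h1 : T_RIN) (h2 : T_RQA) (h3 : T_RQC) (h4 : T_NCR) (h5 : T_DGN) (h6 : T_RNI)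
    (h7 : T_JHP) (h8 : T_NRT) (h9 : SSA.T_API) (h10 : SSA.T_RFC) (h11 : SSA.T_RFD)
    (h12 : SSA.T_PAR) (h14 : SSA.T_DDA) : T_RBX := by
  intro p _ P D hp5 hD0 hpD Q r s hQ hQd hs hr hrs hdiv hCM
  obtain ⟨j₁, hj, hjn⟩ := h8 p Q r s hQ hQd hs hdiv
  have hprime : p.Prime := Fact.out
  obtain ⟨hj0, hj1, c, hc, α, hDα, hdeg, hcomp⟩ := hCM j₁ hj
  -- the reduction of `j₁`
  obtain ⟨hrsn, hrsr⟩ := (h1 p P).2.2.2.2.2 r s hs
  have hjn1 : ‖j₁‖ ≤ 1 := by
    have e1 : j₁ = (j₁ - (r : PadicAlgCl p) / s) + (r : PadicAlgCl p) / s := by ring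
    rw [e1]
    exact (IsUltrametricDist.norm_add_le_max _ _).trans (max_le hjn.le hrsn)
  have hjR : RMR_.Rd P j₁ (zc p P.k ((r : ZMod p) / (s : ZMod p))) := by
    refine ⟨hjn1, ?_⟩
    rw [← hrsr]
    exact ((h1 p P).2.2.2.1 _ _ hjn1 hrsn).2 hjn
  set t : ZMod p := (r : ZMod p) / (s : ZMod p) with ht
  have haR := hjR.aj h1
  have hbR := hjR.bj h1
  -- the reduced curve
  have h2k : (2 : P.k) ≠ 0 := by
    intro h
    have : ((2 : ℕ) : P.k) = 0 := by exact_mod_cast h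
    rw [CharP.cast_eq_zero_iff P.k p] at this
    have := Nat.le_of_dvd (by norm_num) this
    omega
  have h3k : (3 : P.k) ≠ 0 := by
    intro h
    have : ((3 : ℕ) : P.k) = 0 := by exact_mod_cast h
    rw [CharP.cast_eq_zero_iff P.k p] at this
    have := Nat.le_of_dvd (by norm_num) this
    omega
  have hs0 : (s : ZMod p) ≠ 0 := by
    rw [Ne, ZMod.intCast_zmod_eq_zero_iff_dvd]
    exact hs
  have ht0 : t ≠ 0 := by
    rw [ht]
    refine div_ne_zero ?_ hs0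
    rw [Ne, ZMod.intCast_zmod_eq_zero_iff_dvd]
    exact hr
  have ht1 : t ≠ 1728 := by
    intro h
    rw [ht, div_eq_iff hs0] at h
    apply hrs
    rw [← ZMod.intCast_zmod_eq_zero_iff_dvd]
    push_cast
    rw [h, sub_self]
  have hzinj : Function.Injective (zc p P.k) := (zc p P.k).injective
  have hz0 : zc p P.k t ≠ 0 := by
    intro h
    exact ht0 (hzinj (by rw [h, map_zero]))
  have hz1 : zc p P.k t ≠ 1728 := by
    intro h
    exact ht1 (hzinj (by rw [h, map_ofNat]))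
  obtain ⟨H', -, -⟩ := h7 P.k (zc p P.k t) h2k h3k hz0 hz1
  obtain ⟨H, -, -⟩ := h7 (PadicAlgCl p) j₁ two_ne_zero three_ne_zero hj0 hj1
  rw [RMR_.zc_aj, RMR_.zc_bj]
  exact core h1 h2 h3 h4 h5 h6 h9 h10 h11 h12 h14 P D hp5 hD0 hpD haR hbR H H' hc hDα hdeg hcomp

end SSP
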