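import Pool.Agent.SSP.Targets

/-!
# MP_d74fca_nt, p-adic part: RDP, reduction of polynomials
-/

open Polynomial

namespace SSP

open SSA

namespace RDP_

variable {p : ℕ} [Fact p.Prime]

theorem norm_add_le_one {x y : PadicAlgCl p} (hx : ‖x‖ ≤ 1) (hy : ‖y‖ ≤ 1) : ‖x + y‖ ≤ 1 :=
  (IsUltrametricDist.norm_add_le_max x y).trans (max_le hx hy)

theorem norm_mul_le_one {x y : PadicAlgCl p} (hx : ‖x‖ ≤ 1) (hy : ‖y‖ ≤ 1) : ‖x * y‖ ≤ 1 := by
  rw [norm_mul]
  exact mul_le_one₀ hx (norm_nonneg _) hy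

theorem norm_sum_le_one {ι : Type*} (s : Finset ι) (f : ι → PadicAlgCl p)
    (h : ∀ i ∈ s, ‖f i‖ ≤ 1) : ‖∑ i ∈ s, f i‖ ≤ 1 := by
  classical
  induction s using Finset.induction_on with
  | empty => simp
  | insert i s hi ih =>
    rw [Finset.sum_insert hi]
    exact norm_add_le_one (h i (Finset.mem_insert_self i s))
      (ih fun j hj => h j (Finset.mem_insert_of_mem hj))

theorem red_sum (P : Plc p) (h0 : P.red 0 = 0) {ι : Type*} (s : Finset ι) (f : ι → PadicAlgCl p)
    (h : ∀ i ∈ s, ‖f i‖ ≤ 1) : P.red (∑ i ∈ s, f i) = ∑ i ∈ s, P.red (f i) := by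
  classical
  induction s using Finset.induction_on with
  | empty => simpa using h0
  | insert i s hi ih =>
    rw [Finset.sum_insert hi, Finset.sum_insert hi,
      P.red_add _ _ (h i (Finset.mem_insert_self i s))
        (norm_sum_le_one s f fun j hj => h j (Finset.mem_insert_of_mem hj)),
      ih fun j hj => h j (Finset.mem_insert_of_mem hj)]

theorem coeff_redP (P : Plc p) (h0 : P.red 0 = 0) (A : (PadicAlgCl p)[X]) (n : ℕ) :
    (redP P A).coeff n = P.red (A.coeff n) := by
  unfold redP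
  rw [Polynomial.finsetSum_coeff]
  simp only [coeff_monomial]
  rw [Finset.sum_ite_eq']
  by_cases hn : n ∈ Finset.range (A.natDegree + 1)
  · rw [if_pos hn]
  · rw [if_neg hn, Polynomial.coeff_eq_zero_of_natDegree_lt (by
      rw [Finset.mem_range] at hn; omega), h0]

end RDP_

namespace RDP_

variable {p : ℕ} [Fact p.Prime]

theorem cadd (P : Plc p) (h0 : P.red 0 = 0) (A B : (PadicAlgCl p)[X]) (hA : IntP A)
    (hB : IntP B) : IntP (A + B) ∧ redP P (A + B) = redP P A + redP P B := by
  refine ⟨fun n => ?_, ?_⟩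
  · rw [coeff_add]
    exact norm_add_le_one (hA n) (hB n)
  · refine Polynomial.ext fun n => ?_
    rw [coeff_add, coeff_redP P h0, coeff_redP P h0, coeff_redP P h0, coeff_add,
      P.red_add _ _ (hA n) (hB n)]

theorem csub (P : Plc p) (h0 : P.red 0 = 0) (hneg : ∀ x, ‖x‖ ≤ 1 → P.red (-x) = - P.red x)
    (A B : (PadicAlgCl p)[X]) (hA : IntP A)
    (hB : IntP B) : IntP (A - B) ∧ redP P (A - B) = redP P A - redP P B := by
  have hB' : ∀ n, ‖- B.coeff n‖ ≤ 1 := fun n => by rw [norm_neg]; exact hB n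
  refine ⟨fun n => ?_, ?_⟩
  · rw [coeff_sub, sub_eq_add_neg]
    exact norm_add_le_one (hA n) (hB' n)
  · refine Polynomial.ext fun n => ?_
    rw [coeff_sub, coeff_redP P h0, coeff_redP P h0, coeff_redP P h0, coeff_sub, sub_eq_add_neg,
      P.red_add _ _ (hA n) (hB' n), hneg _ (hB n), sub_eq_add_neg]

theorem cmul (P : Plc p) (h0 : P.red 0 = 0) (A B : (PadicAlgCl p)[X]) (hA : IntP A)
    (hB : IntP B) : IntP (A * B) ∧ redP P (A * B) = redP P A * redP P B := by
  refine ⟨fun n => ?_, ?_⟩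
  · rw [coeff_mul]
    exact norm_sum_le_one _ _ fun x _ => norm_mul_le_one (hA x.1) (hB x.2)
  · refine Polynomial.ext fun n => ?_
    have e := red_sum P h0 (Finset.HasAntidiagonal.antidiagonal n)
      (fun x : ℕ × ℕ => A.coeff x.1 * B.coeff x.2)
      (fun x _ => norm_mul_le_one (hA x.1) (hB x.2))
    rw [coeff_mul, coeff_redP P h0, coeff_mul, e]
    refine Finset.sum_congr rfl fun x _ => ?_
    rw [P.red_mul _ _ (hA x.1) (hB x.2), coeff_redP P h0, coeff_redP P h0]

theorem cder (P : Plc p) (h0 : P.red 0 = 0) (hn : ∀ n : ℕ, ‖((n : PadicAlgCl p) + 1)‖ ≤ 1 ∧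
        P.red ((n : PadicAlgCl p) + 1) = (n : P.k) + 1) (A : (PadicAlgCl p)[X]) (hA : IntP A) :
    IntP (derivative A) ∧ redP P (derivative A) = derivative (redP P A) := by
  refine ⟨fun n => ?_, ?_⟩
  · rw [coeff_derivative]
    exact norm_mul_le_one (hA _) (hn n).1
  · refine Polynomial.ext fun n => ?_
    rw [coeff_derivative, coeff_redP P h0, coeff_redP P h0, coeff_derivative,
      P.red_mul _ _ (hA _) (hn n).1, (hn n).2]

end RDP_

open RDP_ in
/-- RDP -/
theorem p_RDP (h1 : T_RIN) : T_RDP := by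
  intro p _ P
  obtain ⟨h0, hneg, hint, -, -, -⟩ := h1 p P
  have hone : ‖(1 : PadicAlgCl p)‖ ≤ 1 := by simp
  refine ⟨fun A n _ => coeff_redP P h0 A n, ?_, ?_, ?_, ?_, ?_, ?_, ?_, ?_⟩
  · exact cadd P h0
  · exact csub P h0 hneg
  · exact cmul P h0
  · refine cder P h0 fun n => ?_
    have := hint ((n : ℤ) + 1)
    rw [Int.cast_add, Int.cast_add, Int.cast_natCast, Int.cast_natCast, Int.cast_one,
      Int.cast_one] at this
    exact this
  · -- constants
    intro c hc
    refine ⟨fun n => by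
      rw [coeff_C]
      split_ifs
      · exact hc
      · simp, ?_⟩
    ext n
    rw [coeff_redP P h0, coeff_C, coeff_C]
    split_ifs
    · rfl
    · exact h0
  · -- X
    refine ⟨fun n => by
      rw [coeff_X]
      split_ifs
      · simp
      · simp, ?_⟩
    ext n
    rw [coeff_redP P h0, coeff_X, coeff_X]
    split_ifs
    · exact P.red_one
    · exact h0
  · -- scaling
    intro A hA
    have hne : A.support.Nonempty := by
      rw [Finset.nonempty_iff_ne_empty, Ne, Polynomial.support_eq_empty]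
      exact hA
    obtain ⟨m, hm, hmax⟩ := Finset.exists_max_image A.support (fun n => ‖A.coeff n‖) hne
    have hm0 : A.coeff m ≠ 0 := by
      rwa [Polynomial.mem_support_iff] at hm
    refine ⟨(A.coeff m)⁻¹, inv_ne_zero hm0, ?_, ?_⟩
    · intro n
      rw [coeff_C_mul, norm_mul, norm_inv]
      by_cases hn : n ∈ A.support
      · rw [inv_mul_le_iff₀ (norm_pos_iff.2 hm0), mul_one]
        exact hmax n hn
      · rw [Polynomial.notMem_support_iff.1 hn]
        simp
    · intro h
      have h2 := congrArg (fun Q => Q.coeff m) h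
      simp only [coeff_zero] at h2
      rw [coeff_redP P h0, coeff_C_mul, inv_mul_cancel₀ hm0, P.red_one] at h2
      exact one_ne_zero h2
  · -- degree
    intro A _
    rw [Polynomial.natDegree_le_iff_coeff_eq_zero]
    intro N hN
    rw [coeff_redP P h0, Polynomial.coeff_eq_zero_of_natDegree_lt hN, h0]

end SSP
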