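import Pool.Agent.SSP.Targets

/-!
# SSP, target RQA (algebra of reductions of rational functions), helper92
-/

open Polynomial

namespace SSP

open SSA

namespace RQA_

variable {p : ℕ} [Fact p.Prime]

lemma aM_ne {k : Type} [Field k] {B : k[X]} (h : B ≠ 0) : algebraMap k[X] (RatFunc k) B ≠ 0 :=
  RatFunc.algebraMap_ne_zero h

lemma redP_zero (P : Plc p) (h0 : P.red 0 = 0) : redP P 0 = 0 := by
  unfold redP
  simp [h0]

lemma intP_zero : IntP (0 : (PadicAlgCl p)[X]) := by
  intro n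
  simp

/-- from an equality of fractions to an equality of products -/
lemma cross {k : Type} [Field k] {A B A' B' : k[X]} (hB : B ≠ 0) (hB' : B' ≠ 0)
    (h : algebraMap k[X] (RatFunc k) A / algebraMap k[X] (RatFunc k) B =
      algebraMap k[X] (RatFunc k) A' / algebraMap k[X] (RatFunc k) B') : A * B' = A' * B := by
  rw [div_eq_div_iff (aM_ne hB) (aM_ne hB'), ← map_mul, ← map_mul] at h
  exact RatFunc.algebraMap_injective k h

lemma uncross {k : Type} [Field k] {A B A' B' : k[X]} (hB : B ≠ 0) (hB' : B' ≠ 0)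
    (h : A * B' = A' * B) : algebraMap k[X] (RatFunc k) A / algebraMap k[X] (RatFunc k) B =
      algebraMap k[X] (RatFunc k) A' / algebraMap k[X] (RatFunc k) B' := by
  rw [div_eq_div_iff (aM_ne hB) (aM_ne hB'), ← map_mul, ← map_mul, h]

lemma rdeg_div_le {k : Type} [Field k] (A B : k[X]) (hB : B ≠ 0) :
    rdeg (algebraMap k[X] (RatFunc k) A / algebraMap k[X] (RatFunc k) B) ≤
      max A.natDegree B.natDegree := by
  unfold rdeg
  refine max_le_max ?_ ?_
  · by_cases hA : A = 0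
    · rw [hA]; simp
    · exact natDegree_le_of_dvd (RatFunc.num_div_dvd A hB) hA
  · exact natDegree_le_of_dvd (RatFunc.denom_div_dvd A B) hB

end RQA_

open RQA_ in
theorem p_RQA (h1 : T_RIN) (h2 : T_RDP) (h3 : SSA.T_RFD) : T_RQA := by
  intro p _ P
  obtain ⟨hred0, -⟩ := h1 p P
  obtain ⟨-, hadd, hsub, hmul, hder, hC, hX, hscale, hdeg⟩ := h2 p P
  obtain ⟨-, -, -, hrdiv, -, -, hrpoly, -, -⟩ := h3 (PadicAlgCl p)
  obtain ⟨-, -, -, hrdivk, -, -, hrpolyk, -, -⟩ := h3 P.k
  have hne : ∀ B : (PadicAlgCl p)[X], redP P B ≠ 0 → B ≠ 0 := by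
    intro B hB h
    rw [h, redP_zero P hred0] at hB
    exact hB rfl
  have hone : IntP (1 : (PadicAlgCl p)[X]) ∧ redP P 1 = 1 := by
    have h := hC 1 (by simp)
    rw [P.red_one] at h
    simpa using h
  have huniq : ∀ R r r', RedQ P R r → RedQ P R r' → r = r' := by
    rintro R r r' ⟨A, B, hA, hB, hB0, hR, hr⟩ ⟨A', B', hA', hB', hB0', hR', hr'⟩
    rw [hR] at hR'
    have hc := cross (hne B hB0) (hne B' hB0') hR'
    rw [hr, hr']
    refine uncross hB0 hB0' ?_
    rw [← (hmul A B' hA hB').2, hc, (hmul A' B hA' hB).2]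
  have haddQ : ∀ R S r s, RedQ P R r → RedQ P S s → RedQ P (R + S) (r + s) := by
    rintro R S r s ⟨A, B, hA, hB, hB0, hR, hr⟩ ⟨A', B', hA', hB', hB0', hS, hs⟩
    refine ⟨A * B' + A' * B, B * B', ?_, (hmul B B' hB hB').1, ?_, ?_, ?_⟩
    · exact (hadd _ _ (hmul A B' hA hB').1 (hmul A' B hA' hB).1).1
    · rw [(hmul B B' hB hB').2]; exact mul_ne_zero hB0 hB0'
    · rw [hR, hS, div_add_div _ _ (aM_ne (hne B hB0)) (aM_ne (hne B' hB0'))]
      simp only [map_add, map_mul]
      ring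
    · rw [hr, hs, div_add_div _ _ (aM_ne hB0) (aM_ne hB0'),
        (hadd _ _ (hmul A B' hA hB').1 (hmul A' B hA' hB).1).2, (hmul A B' hA hB').2,
        (hmul A' B hA' hB).2, (hmul B B' hB hB').2]
      simp only [map_add, map_mul]
      ring
  have hsubQ : ∀ R S r s, RedQ P R r → RedQ P S s → RedQ P (R - S) (r - s) := by
    rintro R S r s ⟨A, B, hA, hB, hB0, hR, hr⟩ ⟨A', B', hA', hB', hB0', hS, hs⟩
    refine ⟨A * B' - A' * B, B * B', ?_, (hmul B B' hB hB').1, ?_, ?_, ?_⟩
    · exact (hsub _ _ (hmul A B' hA hB').1 (hmul A' B hA' hB).1).1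
    · rw [(hmul B B' hB hB').2]; exact mul_ne_zero hB0 hB0'
    · rw [hR, hS, div_sub_div _ _ (aM_ne (hne B hB0)) (aM_ne (hne B' hB0'))]
      simp only [map_sub, map_mul]
      ring
    · rw [hr, hs, div_sub_div _ _ (aM_ne hB0) (aM_ne hB0'),
        (hsub _ _ (hmul A B' hA hB').1 (hmul A' B hA' hB).1).2, (hmul A B' hA hB').2,
        (hmul A' B hA' hB).2, (hmul B B' hB hB').2]
      simp only [map_sub, map_mul]
      ring
  have hmulQ : ∀ R S r s, RedQ P R r → RedQ P S s → RedQ P (R * S) (r * s) := by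
    rintro R S r s ⟨A, B, hA, hB, hB0, hR, hr⟩ ⟨A', B', hA', hB', hB0', hS, hs⟩
    refine ⟨A * A', B * B', (hmul A A' hA hA').1, (hmul B B' hB hB').1, ?_, ?_, ?_⟩
    · rw [(hmul B B' hB hB').2]; exact mul_ne_zero hB0 hB0'
    · rw [hR, hS, div_mul_div_comm, map_mul, map_mul]
    · rw [hr, hs, div_mul_div_comm, (hmul A A' hA hA').2, (hmul B B' hB hB').2, map_mul, map_mul]
  have hdivQ : ∀ R S r s, RedQ P R r → RedQ P S s → s ≠ 0 → RedQ P (R / S) (r / s) := by
    rintro R S r s ⟨A, B, hA, hB, hB0, hR, hr⟩ ⟨A', B', hA', hB', hB0', hS, hs⟩ hs0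
    have hA0' : redP P A' ≠ 0 := by
      intro h
      rw [h, map_zero, zero_div] at hs
      exact hs0 hs
    refine ⟨A * B', B * A', (hmul A B' hA hB').1, (hmul B A' hB hA').1, ?_, ?_, ?_⟩
    · rw [(hmul B A' hB hA').2]; exact mul_ne_zero hB0 hA0'
    · rw [hR, hS, div_div_div_eq, map_mul, map_mul]
    · rw [hr, hs, div_div_div_eq, (hmul A B' hA hB').2, (hmul B A' hB hA').2, map_mul, map_mul]
  have hCQ : ∀ c, ‖c‖ ≤ 1 → RedQ P (RatFunc.C c) (RatFunc.C (P.red c)) := by
    intro c hc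
    refine ⟨C c, 1, (hC c hc).1, hone.1, ?_, ?_, ?_⟩
    · rw [hone.2]; exact one_ne_zero
    · rw [map_one, div_one, RatFunc.algebraMap_C]
    · rw [hone.2, (hC c hc).2, map_one, div_one, RatFunc.algebraMap_C]
  have h0Q : RedQ P 0 0 := by
    have h := hCQ 0 (by simp)
    rw [hred0, map_zero, map_zero] at h
    exact h
  have h1Q : RedQ P 1 1 := by
    have h := hCQ 1 (by simp)
    rw [P.red_one, map_one, map_one] at h
    exact h
  refine ⟨huniq, haddQ, hsubQ, hmulQ, hdivQ, ?_, ?_, hCQ, ?_, ?_, ?_⟩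
  · intro R r h
    have := hsubQ 0 R 0 r h0Q h
    simpa using this
  · intro R r n h
    induction n with
    | zero => simpa using h1Q
    | succ n ih =>
      rw [pow_succ, pow_succ]
      exact hmulQ _ _ _ _ ih h
  · refine ⟨X, 1, hX.1, hone.1, ?_, ?_, ?_⟩
    · rw [hone.2]; exact one_ne_zero
    · rw [map_one, div_one, RatFunc.algebraMap_X]
    · rw [hone.2, hX.2, map_one, div_one, RatFunc.algebraMap_X]
  · rintro R r ⟨A, B, hA, hB, hB0, hR, hr⟩
    have i1 := (hmul _ _ (hder A hA).1 hB)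
    have i2 := (hmul _ _ hA (hder B hB).1)
    refine ⟨derivative A * B - A * derivative B, B * B, (hsub _ _ i1.1 i2.1).1,
      (hmul B B hB hB).1, ?_, ?_, ?_⟩
    · rw [(hmul B B hB hB).2]; exact mul_ne_zero hB0 hB0
    · rw [hR, hrdiv _ _ (aM_ne (hne B hB0)), hrpoly, hrpoly, map_sub, map_mul, map_mul, map_mul,
        sq]
    · rw [hr, hrdivk _ _ (aM_ne hB0), hrpolyk, hrpolyk, (hsub _ _ i1.1 i2.1).2, i1.2, i2.2,
        (hder A hA).2, (hder B hB).2, (hmul B B hB hB).2, map_sub, map_mul, map_mul, map_mul, sq]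
  · rintro R r ⟨A, B, hA, hB, hB0, hR, hr⟩
    set N := R.num with hN
    set D := R.denom with hD
    have hD0 : D ≠ 0 := RatFunc.denom_ne_zero R
    have hRND : R = algebraMap (PadicAlgCl p)[X] (RatFunc (PadicAlgCl p)) N /
        algebraMap (PadicAlgCl p)[X] (RatFunc (PadicAlgCl p)) D := (RatFunc.num_div_denom R).symm
    have hNB : N * B = A * D := cross hD0 (hne B hB0) (by rw [← hRND, hR])
    -- common scaling
    have hsc : ∃ c : PadicAlgCl p, c ≠ 0 ∧ IntP (C c * N) ∧ IntP (C c * D) ∧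
        (redP P (C c * N) ≠ 0 ∨ redP P (C c * D) ≠ 0) := by
      obtain ⟨c2, hc2, hi2, hr2⟩ := hscale D hD0
      by_cases hN0 : N = 0
      · refine ⟨c2, hc2, ?_, hi2, Or.inr hr2⟩
        rw [hN0, mul_zero]
        exact intP_zero
      · obtain ⟨c1, hc1, hi1, hr1⟩ := hscale N hN0
        rcases le_total ‖c1‖ ‖c2‖ with hle | hle
        · refine ⟨c1, hc1, hi1, ?_, Or.inl hr1⟩
          have e : C c1 * D = C (c1 / c2) * (C c2 * D) := by
            rw [← mul_assoc, ← C_mul, div_mul_cancel₀ _ hc2]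
          rw [e]
          refine (hmul _ _ (hC _ ?_).1 hi2).1
          rw [norm_div]
          exact div_le_one_of_le₀ hle (norm_nonneg _)
        · refine ⟨c2, hc2, ?_, hi2, Or.inr hr2⟩
          have e : C c2 * N = C (c2 / c1) * (C c1 * N) := by
            rw [← mul_assoc, ← C_mul, div_mul_cancel₀ _ hc1]
          rw [e]
          refine (hmul _ _ (hC _ ?_).1 hi1).1
          rw [norm_div]
          exact div_le_one_of_le₀ hle (norm_nonneg _)
    obtain ⟨c, hc0, hiN, hiD, hor⟩ := hsc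
    have hcr : redP P (C c * N) * redP P B = redP P A * redP P (C c * D) := by
      rw [← (hmul _ _ hiN hB).2, ← (hmul _ _ hA hiD).2]
      congr 1
      calc C c * N * B = C c * (N * B) := by ring
        _ = C c * (A * D) := by rw [hNB]
        _ = _ := by ring
    have hd0 : redP P (C c * D) ≠ 0 := by
      intro h
      rw [h, mul_zero] at hcr
      rcases mul_eq_zero.1 hcr with h' | h'
      · rcases hor with h'' | h''
        · exact h'' h'
        · exact h'' h
      · exact hB0 h'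
    have hrr : r = algebraMap P.k[X] (RatFunc P.k) (redP P (C c * N)) /
        algebraMap P.k[X] (RatFunc P.k) (redP P (C c * D)) := by
      rw [hr]
      exact uncross hB0 hd0 hcr.symm
    rw [hrr]
    refine (rdeg_div_le _ _ hd0).trans ?_
    have e1 : (redP P (C c * N)).natDegree ≤ N.natDegree :=
      (hdeg _ hiN).trans (natDegree_C_mul_le c N)
    have e2 : (redP P (C c * D)).natDegree ≤ D.natDegree :=
      (hdeg _ hiD).trans (natDegree_C_mul_le c D)
    exact max_le_max e1 e2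

end SSP
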