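import Pool.Agent.SSP.Targets

/-!
# MP_d74fca_nt, p-adic part (helper22): composition and automorphisms (helper4)
-/

open Polynomial

namespace SSP

open SSA

namespace RQC_

variable {p : ℕ} [Fact p.Prime]

/-- a constant with a reduction is integral -/
lemma norm_le_of_redQ (h2 : T_RDP) (P : Plc p) {c : PadicAlgCl p} {r : RatFunc P.k}
    (h : RedQ P (RatFunc.C c) r) : ‖c‖ ≤ 1 := by
  obtain ⟨A, B, hA, hB, hB0, hR, -⟩ := h
  obtain ⟨hco, -⟩ := h2 p P
  -- B has a coefficient of norm 1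
  obtain ⟨n, hn⟩ : ∃ n, (redP P B).coeff n ≠ 0 := by
    by_contra hcon
    push Not at hcon
    exact hB0 (Polynomial.ext fun n => by rw [hcon n, coeff_zero])
  rw [hco B n hB] at hn
  have hn1 : ‖B.coeff n‖ = 1 := by
    refine le_antisymm (hB n) ?_
    by_contra hlt
    exact hn ((P.red_zero _ (hB n)).mpr (not_le.mp hlt))
  have hBne : B ≠ 0 := by
    intro h0
    rw [h0, coeff_zero, norm_zero] at hn1
    exact zero_ne_one hn1
  have hBq : algebraMap (PadicAlgCl p)[X] (RatFunc (PadicAlgCl p)) B ≠ 0 :=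
    RatFunc.algebraMap_ne_zero hBne
  have h3 : algebraMap (PadicAlgCl p)[X] (RatFunc (PadicAlgCl p)) (C c * B) =
      algebraMap (PadicAlgCl p)[X] (RatFunc (PadicAlgCl p)) A := by
    rw [map_mul, RatFunc.algebraMap_C, hR, div_mul_cancel₀ _ hBq]
  have h4 : C c * B = A := RatFunc.algebraMap_injective _ h3
  have h5 := hA n
  rw [← h4, coeff_C_mul, norm_mul, hn1, mul_one] at h5
  exact h5

lemma aeval_eq_sum {k : Type} [Field k] (R : RatFunc k) (A : k[X]) :
    aeval R A = ∑ i ∈ Finset.range (A.natDegree + 1), RatFunc.C (A.coeff i) * R ^ i := by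
  rw [aeval_eq_sum_range]
  refine Finset.sum_congr rfl fun i _ => ?_
  rw [Algebra.smul_def, RatFunc.algebraMap_eq_C]

lemma aeval_redP (P : Plc p) (r : RatFunc P.k) (A : (PadicAlgCl p)[X]) :
    aeval r (redP P A) =
      ∑ i ∈ Finset.range (A.natDegree + 1), RatFunc.C (P.red (A.coeff i)) * r ^ i := by
  unfold redP
  rw [map_sum]
  refine Finset.sum_congr rfl fun i _ => ?_
  rw [aeval_monomial, RatFunc.algebraMap_eq_C]

lemma redQ_aeval (h3 : T_RQA) (P : Plc p) {R : RatFunc (PadicAlgCl p)} {r : RatFunc P.k}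
    (h : RedQ P R r) {A : (PadicAlgCl p)[X]} (hA : IntP A) :
    RedQ P (aeval R A) (aeval r (redP P A)) := by
  obtain ⟨-, hadd, -, hmul, -, -, hpow, hC, -⟩ := h3 p P
  rw [aeval_eq_sum, aeval_redP]
  have h0 : RedQ P (0 : RatFunc (PadicAlgCl p)) (0 : RatFunc P.k) := by
    have h1 := hC 0 (by simp)
    have h2 : P.red 0 = 0 := (P.red_zero 0 (by simp)).mpr (by simp)
    rw [h2, map_zero, map_zero] at h1
    exact h1
  generalize Finset.range (A.natDegree + 1) = s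
  induction s using Finset.induction_on with
  | empty => simpa using h0
  | insert i s hi ih =>
    rw [Finset.sum_insert hi, Finset.sum_insert hi]
    exact hadd _ _ _ _ (hmul _ _ _ _ (hC _ (hA i)) (hpow _ _ i h)) ih

lemma norm_alg (σ : PadicAlgCl p ≃ₐ[ℚ_[p]] PadicAlgCl p) (x : PadicAlgCl p) :
    ‖σ x‖ = ‖x‖ := by
  have h := spectralNorm_eq_of_equiv (K := ℚ_[p]) (L := PadicAlgCl p) σ x
  rw [PadicAlgCl.spectralNorm_eq, PadicAlgCl.spectralNorm_eq] at h
  exact h.symm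

lemma redP_map (P : Plc p) (σ : PadicAlgCl p ≃ₐ[ℚ_[p]] PadicAlgCl p) (τ : P.k ≃+* P.k)
    (hστ : ∀ x, ‖x‖ ≤ 1 → P.red (σ x) = τ (P.red x)) {A : (PadicAlgCl p)[X]} (hA : IntP A) :
    redP P (A.map σ.toRingEquiv.toRingHom) = (redP P A).map τ.toRingHom := by
  unfold redP
  rw [natDegree_map, Polynomial.map_sum]
  refine Finset.sum_congr rfl fun i _ => ?_
  rw [coeff_map, map_monomial]
  have h := hστ _ (hA i)
  exact congrArg (monomial i) h

lemma intP_map (σ : PadicAlgCl p ≃ₐ[ℚ_[p]] PadicAlgCl p) {A : (PadicAlgCl p)[X]} (hA : IntP A) :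
    IntP (A.map σ.toRingEquiv.toRingHom) := by
  intro n
  rw [coeff_map]
  have h := norm_alg σ (A.coeff n)
  exact h.le.trans (hA n)

end RQC_

open RQC_ in
theorem p_RQC (h2 : T_RDP) (h3 : T_RQA) (h4 : SSA.T_RFC) (h5 : SSA.T_RFM) : T_RQC := by
  intro p _ P
  refine ⟨?_, ?_⟩
  · intro g R γ r hg hR hr
    have hRn : ∀ c, R ≠ RatFunc.C c := by
      intro c hc
      rw [hc] at hR
      have h6 := norm_le_of_redQ h2 P hR
      obtain ⟨huni, -, -, -, -, -, -, hC, -⟩ := h3 p P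
      exact hr _ (huni _ _ _ hR (hC c h6))
    refine ⟨hRn, ?_⟩
    obtain ⟨-, -, -, -, hdiv, -⟩ := h3 p P
    obtain ⟨-, -, -, cdiv, -, -, -, -, cpoly, -⟩ := h4 (PadicAlgCl p) R hRn
    obtain ⟨-, -, -, cdiv', -, -, -, -, cpoly', czero', -⟩ := h4 P.k r hr
    obtain ⟨A, B, hA, hB, hB0, rfl, rfl⟩ := hg
    rw [cdiv, cpoly, cpoly, cdiv', cpoly', cpoly']
    refine hdiv _ _ _ _ (redQ_aeval h3 P hR hA) (redQ_aeval h3 P hR hB) ?_
    intro h0
    rw [← cpoly'] at h0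
    have h7 := czero' _ h0
    exact RatFunc.algebraMap_ne_zero hB0 h7
  · intro σ τ hστ R r hR
    obtain ⟨A, B, hA, hB, hB0, rfl, rfl⟩ := hR
    obtain ⟨-, -, -, mdiv, -, mpoly, -⟩ :=
      h5 (PadicAlgCl p) (PadicAlgCl p) σ.toRingEquiv.toRingHom
    obtain ⟨-, -, -, mdiv', -, mpoly', -⟩ := h5 P.k P.k τ.toRingHom
    refine ⟨A.map σ.toRingEquiv.toRingHom, B.map σ.toRingEquiv.toRingHom, intP_map σ hA,
      intP_map σ hB, ?_, ?_, ?_⟩
    · rw [redP_map P σ τ hστ hB]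
      intro h0
      exact hB0 ((Polynomial.map_eq_zero τ.toRingHom).mp h0)
    · rw [mdiv, mpoly, mpoly]
    · rw [mdiv', mpoly', mpoly', redP_map P σ τ hστ hA, redP_map P σ τ hστ hB]

end SSP
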