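import Pool.Agent.SSP.Targets

/-! RQS: scaling of rational functions. -/

open Polynomial

namespace SSP

open SSA

theorem p_RQS (h1 : T_RDP) : T_RQS := by
  intro p _ P R hR
  obtain ⟨-, -, -, -, -, -, -, hsc, -⟩ := h1 p P
  have hnum : R.num ≠ 0 := RatFunc.num_ne_zero hR
  have hden : R.denom ≠ 0 := RatFunc.denom_ne_zero R
  obtain ⟨c1, hc1, hA, hA0⟩ := hsc R.num hnum
  obtain ⟨c2, hc2, hB, hB0⟩ := hsc R.denom hden
  have hR' : R = algebraMap (PadicAlgCl p)[X] (RatFunc (PadicAlgCl p)) R.num /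
      algebraMap (PadicAlgCl p)[X] (RatFunc (PadicAlgCl p)) R.denom := (RatFunc.num_div_denom R).symm
  have hd0 : algebraMap (PadicAlgCl p)[X] (RatFunc (PadicAlgCl p)) R.denom ≠ 0 :=
    (map_ne_zero_iff _ (IsFractionRing.injective _ _)).mpr hden
  refine ⟨c2 / c1, algebraMap P.k[X] (RatFunc P.k) (redP P (C c1 * R.num)) /
    algebraMap P.k[X] (RatFunc P.k) (redP P (C c2 * R.denom)), div_ne_zero hc2 hc1, ?_,
    C c1 * R.num, C c2 * R.denom, hA, hB, hB0, ?_, rfl⟩
  · refine div_ne_zero ?_ ?_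
    · exact (map_ne_zero_iff _ (IsFractionRing.injective _ _)).mpr hA0
    · exact (map_ne_zero_iff _ (IsFractionRing.injective _ _)).mpr hB0
  · have e1 : algebraMap (PadicAlgCl p)[X] (RatFunc (PadicAlgCl p)) (C c1) = RatFunc.C c1 :=
      RatFunc.algebraMap_C c1
    have e2 : algebraMap (PadicAlgCl p)[X] (RatFunc (PadicAlgCl p)) (C c2) = RatFunc.C c2 :=
      RatFunc.algebraMap_C c2
    have hC1 : RatFunc.C c1 ≠ 0 := by
      rw [Ne, map_eq_zero]; exact hc1
    have hC2 : RatFunc.C c2 ≠ 0 := by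
      rw [Ne, map_eq_zero]; exact hc2
    rw [map_mul, map_mul, e1, e2]
    conv_lhs => rw [hR']
    rw [inv_div, map_div₀]
    field_simp

end SSP
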