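import Pool.Agent.SSP.TargetsB
import Pool.Agent.SSA.RFM

/-!
# TRX: transport of `CME` along an isomorphism of fields
-/

set_option autoImplicit false

open Polynomial

namespace SSP

open SSA

namespace TRX_

variable {k k' : Type} [Field k] [Field k']

/-- two nonzero points with equal components are equal -/
theorem ext (h1 : T_API) {a b : k} (h : Hyp a b) {P Q : MM a b} (hP : P ≠ 0) (hQ : Q ≠ 0)
    (hx : xr P = xr Q) (hy : yr P = yr Q) : P = Q := by
  obtain ⟨-, -, -, hA, -⟩ := h1 k a b h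
  rw [(hA P hP).2, (hA Q hQ).2, hx, hy]

/-- a homomorphism of fields applied to a point -/
noncomputable def Phi (σ : k →+* k') (a b : k) (a' b' : k') (P : MM a b) : MM a' b' :=
  open Classical in if P = 0 then 0 else mkP a' b' (rmap σ (xr P)) (rmap σ (yr P))

theorem Phi_prop (h1 : T_API) (h2 : T_RFM) (σ : k →+* k') {a b : k} {a' b' : k'}
    (ha : σ a = a') (hb : σ b = b') (h : Hyp a b) (h' : Hyp a' b') :
    (∀ P Q : MM a b, Phi σ a b a' b' (P + Q) = Phi σ a b a' b' P + Phi σ a b a' b' Q) ∧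
    (∀ P : MM a b, xr (Phi σ a b a' b' P) = rmap σ (xr P) ∧
      yr (Phi σ a b a' b' P) = rmap σ (yr P)) ∧
    Phi σ a b a' b' (idM a b) = idM a' b' := by
  obtain ⟨hff, ⟨hx0, hy0⟩, hmk, hpt, hneg, hcase, hadd, hdbl, htor⟩ := h1 k a b h
  obtain ⟨hff', ⟨hx0', hy0'⟩, hmk', hpt', hneg', hcase', hadd', hdbl', htor'⟩ := h1 k' a' b' h'
  obtain ⟨radd, rsub, rmul, rdiv, rpow, -, rC, rX, rinj, -, -, -⟩ := h2 k k' σ
  set r : RatFunc k → RatFunc k' := rmap σ with hr
  set t : MM a b → MM a' b' := Phi σ a b a' b' with ht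
  have rzero : r 0 = 0 := by
    have := rC 0
    rwa [map_zero, map_zero, map_zero] at this
  have rone : r 1 = 1 := by
    have := rC 1
    rwa [map_one, map_one, map_one] at this
  have rneg : ∀ R, r (-R) = - r R := by
    intro R
    rw [← zero_sub, rsub, rzero, zero_sub]
  have ra : r (RatFunc.C a) = RatFunc.C a' := by
    rw [rC, ha]
  have rb : r (RatFunc.C b) = RatFunc.C b' := by
    rw [rC, hb]
  have rff : r (ff a b) = ff a' b' := by
    rw [ff, radd, radd, rpow, rmul, rX, ra, rb, ff]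
  have r2 : r 2 = 2 := by
    rw [← one_add_one_eq_two, radd, rone, one_add_one_eq_two]
  have r3 : r 3 = 3 := by
    rw [← two_add_one_eq_three, radd, rone, r2, two_add_one_eq_three]
  have rev : ∀ R, r (ev a b R) = ev a' b' (r R) := by
    intro R
    rw [ev, radd, radd, rpow, rmul, ra, rb, ev]
  have tne : ∀ P : MM a b, P ≠ 0 → t P ≠ 0 ∧ xr (t P) = r (xr P) ∧ yr (t P) = r (yr P) := by
    intro P hP
    have e1 : t P = mkP a' b' (r (xr P)) (r (yr P)) := by rw [ht, Phi, if_neg hP]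
    rw [e1]
    apply hmk'
    have e2 := (hpt P hP).1
    rw [← rev, ← e2, rmul, rpow, rff]
  have t0 : t (0 : MM a b) = 0 := by rw [ht, Phi, if_pos rfl]
  have txy : ∀ P : MM a b, xr (t P) = r (xr P) ∧ yr (t P) = r (yr P) := by
    intro P
    by_cases hP : P = 0
    · rw [hP, t0, hx0, hy0, hx0', hy0', rzero]
      exact ⟨rfl, rfl⟩
    · exact (tne P hP).2
  have tneg : ∀ P : MM a b, t (-P) = - t P := by
    intro P
    by_cases hP : P = 0
    · rw [hP, neg_zero, t0, neg_zero]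
    · have hP' : -P ≠ 0 := neg_ne_zero.2 hP
      apply ext h1 h' (tne _ hP').1 (neg_ne_zero.2 (tne _ hP).1)
      · rw [(txy _).1, (hneg _).1, (hneg' _).1, (txy _).1]
      · rw [(txy _).2, (hneg _).2, (hneg' _).2, (txy _).2, rneg]
  refine ⟨?_, txy, ?_⟩
  · -- additivity
    intro P Q
    by_cases hP : P = 0
    · rw [hP, t0, zero_add, zero_add]
    by_cases hQ : Q = 0
    · rw [hQ, t0, add_zero, add_zero]
    obtain ⟨tP, tPx, tPy⟩ := tne P hP
    obtain ⟨tQ, tQx, tQy⟩ := tne Q hQ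
    by_cases hx : xr P = xr Q
    · rcases hcase P Q hP hQ hx with rfl | rfl
      · by_cases hy : yr P = 0
        · rw [htor P hy, t0, htor' (t P) (by rw [tPy, hy, rzero])]
        · have hy' : yr (t P) ≠ 0 := by
            rw [tPy]
            intro h0
            exact hy (rinj _ _ (by rw [h0, rzero]))
          obtain ⟨d1, d2, d3⟩ := hdbl P hP hy
          obtain ⟨d1', d2', d3'⟩ := hdbl' (t P) tP hy'
          have ex : xr (t (P + P)) = xr (t P + t P) := by
            rw [(txy _).1, d2, d2', tPx, tPy]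
            simp only [rsub, rmul, rdiv, rpow, radd, r2, r3, ra, rff]
          apply ext h1 h' (tne _ d1).1 d1' ex
          rw [(txy _).2, d3, d3', ← ex, (txy (P + P)).1, tPx, tPy]
          simp only [rneg, rsub, rmul, rdiv, rpow, radd, r2, r3, ra, rff]
      · rw [neg_add_cancel, t0, tneg, neg_add_cancel]
    · have hx' : xr (t P) ≠ xr (t Q) := by
        rw [tPx, tQx]
        exact fun h0 => hx (rinj _ _ h0)
      obtain ⟨d1, d2, d3⟩ := hadd P Q hP hQ hx
      obtain ⟨d1', d2', d3'⟩ := hadd' (t P) (t Q) tP tQ hx'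
      have ex : xr (t (P + Q)) = xr (t P + t Q) := by
        rw [(txy _).1, d2, d2', tPx, tPy, tQx, tQy]
        simp only [rsub, rmul, rdiv, rpow, rff]
      apply ext h1 h' (tne _ d1).1 d1' ex
      rw [(txy _).2, d3, d3', ← ex, (txy (P + Q)).1, tPx, tPy, tQx, tQy]
      simp only [rneg, rsub, rmul, rdiv, radd]
  · have e1 : ff a b * (1 : RatFunc k) ^ 2 = ev a b RatFunc.X := by
      rw [ff, ev]
      ring
    obtain ⟨i1, i2, i3⟩ := hmk _ _ e1
    have e1' : ff a' b' * (1 : RatFunc k') ^ 2 = ev a' b' RatFunc.X := by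
      rw [ff, ev]
      ring
    obtain ⟨i1', i2', i3'⟩ := hmk' _ _ e1'
    have e2 : idM a b = mkP a b RatFunc.X 1 := rfl
    have e2' : idM a' b' = mkP a' b' RatFunc.X 1 := rfl
    rw [e2, e2']
    apply ext h1 h' (tne _ i1).1 i1'
    · rw [(txy _).1, i2, rX, i2']
    · rw [(txy _).2, i3, rone, i3']

/-- the summary used below -/
theorem exists_hom (h1 : T_API) (h2 : T_RFM) (σ : k →+* k') {a b : k} {a' b' : k'}
    (ha : σ a = a') (hb : σ b = b') (h : Hyp a b) (h' : Hyp a' b') :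
    ∃ t : MM a b →+ MM a' b', (∀ P, xr (t P) = rmap σ (xr P)) ∧
      (∀ P, yr (t P) = rmap σ (yr P)) ∧ t (idM a b) = idM a' b' := by
  have H := Phi_prop h1 h2 σ ha hb h h'
  exact ⟨AddMonoidHom.mk' (Phi σ a b a' b') H.1, fun P => (H.2.1 P).1, fun P => (H.2.1 P).2, H.2.2⟩

theorem aj_map (σ : k →+* k') (j : k) : σ (aj j) = aj (σ j) := by
  unfold aj
  simp only [map_mul, map_neg, map_sub, map_ofNat]

theorem bj_map (σ : k →+* k') (j : k) : σ (bj j) = bj (σ j) := by
  unfold bj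
  simp only [map_mul, map_neg, map_sub, map_pow, map_ofNat]

/-- transport along any homomorphism of fields -/
theorem trx (h1 : T_JHP) (h2 : T_API) (h3 : T_RFM) (σ : k →+* k') (j : k) (D : ℕ)
    (k2 : (2 : k) ≠ 0) (k3 : (3 : k) ≠ 0) (hC : CME k j D) : CME k' (σ j) D := by
  obtain ⟨hj0, hj1, c, hc, α, hDD, hdeg, hcomp⟩ := hC
  have k2' : (2 : k') ≠ 0 := by
    intro h0
    apply k2
    apply σ.injective
    rw [map_ofNat, map_zero, h0]
  have k3' : (3 : k') ≠ 0 := by
    intro h0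
    apply k3
    apply σ.injective
    rw [map_ofNat, map_zero, h0]
  have hj0' : σ j ≠ 0 := by
    intro h0
    exact hj0 (σ.injective (by rw [h0, map_zero]))
  have hj1' : σ j ≠ 1728 := by
    intro h0
    exact hj1 (σ.injective (by rw [h0, map_ofNat]))
  obtain ⟨hH, -, -⟩ := h1 k j k2 k3 hj0 hj1
  obtain ⟨hH', -, -⟩ := h1 k' (σ j) k2' k3' hj0' hj1'
  obtain ⟨t, tx, ty, tid⟩ := exists_hom h2 h3 σ (aj_map σ j) (bj_map σ j) hH hH'
  refine ⟨hj0', hj1', σ c, ?_, t α, ?_, ?_, ?_⟩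
  · rw [← map_pow, hc, map_neg, map_natCast]
  · have e : DD (t α) = rmap σ (DD α) := by
      rw [DD, DD, tx, ty, RFM_.rmap_div, RFM_.rmap_rder]
    rw [e, hDD, RFM_.rmap_C]
  · rw [tx, RFM_.denom_rmap, RFM_.num_rmap, natDegree_map, natDegree_map]
    exact hdeg
  · intro x
    have e1 : x • idM (aj (σ j)) (bj (σ j)) + t α = t (x • idM (aj j) (bj j) + α) := by
      rw [map_add, map_nsmul, tid]
    have e2 : x • idM (aj (σ j)) (bj (σ j)) - t α = t (x • idM (aj j) (bj j) - α) := by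
      rw [map_sub, map_nsmul, tid]
    have e3 : (x ^ 2 + D) • idM (aj (σ j)) (bj (σ j)) = t ((x ^ 2 + D) • idM (aj j) (bj j)) := by
      rw [map_nsmul, tid]
    rw [e1, e2, e3, tx, tx, tx, ← RFM_.rmap_rcomp, hcomp x]

end TRX_

/-- TRX: transport of `CME` along an isomorphism of fields -/
theorem p_TRX (h1 : T_JHP) (h2 : SSA.T_API) (h3 : SSA.T_RFM) (_ : SSA.T_XPM) : T_TRX := by
  intro k k' _ _ σ j D k2 k3 hC
  exact TRX_.trx h1 h2 h3 σ.toRingHom j D k2 k3 hC

end SSP
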