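import Pool.Agent.SSP.TargetsB

/-!
# MP_d74fca_nt, p-adic part: quadratic twists (job SSP-TWI)
-/

open Polynomial

namespace SSP

open SSA

namespace TWI_

/-- number of points of `y^2 = f x` over a finite field -/
lemma card_curve {K : Type} [Field K] [Fintype K] [DecidableEq K] (h2 : ringChar K ≠ 2)
    (f : K → K) :
    (Nat.card {P : K × K // P.2 ^ 2 = f P.1} : ℤ) = ∑ x : K, (quadraticChar K (f x) + 1) := by
  have e : {P : K × K // P.2 ^ 2 = f P.1} ≃ Σ x : K, {y : K // y ^ 2 = f x} :=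
    Equiv.subtypeProdEquivSigmaSubtype (fun x y : K => y ^ 2 = f x)
  rw [Nat.card_congr e, Nat.card_eq_fintype_card, Fintype.card_sigma, Nat.cast_sum]
  refine Finset.sum_congr rfl fun x _ => ?_
  have h := quadraticChar_card_sqrts h2 (f x)
  rw [← h]
  congr 1
  rw [Set.toFinset_card]
  exact Fintype.card_congr (Equiv.refl _)

/-- twisting -/
lemma twist {K : Type} [Field K] [Fintype K] [DecidableEq K] (h2 : ringChar K ≠ 2)
    (A B w : K) (hw : w ≠ 0) :
    Nat.card {P : K × K // P.2 ^ 2 = P.1 ^ 3 + w ^ 2 * A * P.1 + w ^ 3 * B} = Fintype.card K ↔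
      Nat.card {P : K × K // P.2 ^ 2 = P.1 ^ 3 + A * P.1 + B} = Fintype.card K := by
  have h1 := card_curve h2 (fun x => x ^ 3 + w ^ 2 * A * x + w ^ 3 * B)
  have h3 := card_curve h2 (fun x => x ^ 3 + A * x + B)
  simp only [Finset.sum_add_distrib, Finset.sum_const, Finset.card_univ, nsmul_eq_mul,
    mul_one] at h1 h3
  have h4 : ∑ x : K, quadraticChar K (x ^ 3 + w ^ 2 * A * x + w ^ 3 * B) =
      quadraticChar K w ^ 3 * ∑ x : K, quadraticChar K (x ^ 3 + A * x + B) := by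
    rw [← Equiv.sum_comp (Equiv.mulLeft₀ w hw), Finset.mul_sum]
    refine Finset.sum_congr rfl fun x _ => ?_
    have e1 : (Equiv.mulLeft₀ w hw) x = w * x := rfl
    have e2 : (w * x) ^ 3 + w ^ 2 * A * (w * x) + w ^ 3 * B = w ^ 3 * (x ^ 3 + A * x + B) := by
      ring
    rw [e1, e2, map_mul, map_pow]
  have h5 : quadraticChar K w ^ 3 ≠ 0 := pow_ne_zero _ (by
    intro h0
    exact hw ((quadraticChar_eq_zero_iff).mp h0))
  rw [h4] at h1
  constructor
  · intro h
    rw [h] at h1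
    have : quadraticChar K w ^ 3 * ∑ x : K, quadraticChar K (x ^ 3 + A * x + B) = 0 := by
      linarith
    have h6 := (mul_eq_zero.mp this).resolve_left h5
    rw [h6, zero_add] at h3
    exact_mod_cast h3
  · intro h
    rw [h] at h3
    have h6 : ∑ x : K, quadraticChar K (x ^ 3 + A * x + B) = 0 := by linarith
    rw [h6, mul_zero, zero_add] at h1
    exact_mod_cast h1

end TWI_

theorem p_TWI (h : T_JHP) : T_TWI := by
  intro p _ A B hp hA hB hs
  have hA' : (A : ZMod p) ≠ 0 := fun h0 => hA ((ZMod.intCast_zmod_eq_zero_iff_dvd A p).mp h0)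
  have hB' : (B : ZMod p) ≠ 0 := fun h0 => hB ((ZMod.intCast_zmod_eq_zero_iff_dvd B p).mp h0)
  have hs' : 4 * (A : ZMod p) ^ 3 + 27 * (B : ZMod p) ^ 2 ≠ 0 := fun h0 => hs
    ((ZMod.intCast_zmod_eq_zero_iff_dvd _ p).mp (by push_cast; exact h0))
  have hpp : p.Prime := Fact.out
  have hn : ∀ n : ℕ, n < 5 → 0 < n → ((n : ℕ) : ZMod p) ≠ 0 := by
    intro n h1 h2 h0
    have := (ZMod.natCast_eq_zero_iff n p).mp h0
    exact absurd (Nat.le_of_dvd h2 this) (by omega)
  have h2 : (2 : ZMod p) ≠ 0 := by exact_mod_cast hn 2 (by norm_num) (by norm_num)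
  have h3 : (3 : ZMod p) ≠ 0 := by exact_mod_cast hn 3 (by norm_num) (by norm_num)
  set a0 : ZMod p := (A : ZMod p) with ha0
  set b0 : ZMod p := (B : ZMod p) with hb0
  set s0 : ZMod p := 4 * a0 ^ 3 + 27 * b0 ^ 2 with hs0
  have hj : (((6912 * A ^ 3 : ℤ) : ZMod p) / ((4 * A ^ 3 + 27 * B ^ 2 : ℤ) : ZMod p)) =
      6912 * a0 ^ 3 / s0 := by
    push_cast
    rfl
  rw [hj]
  set j : ZMod p := 6912 * a0 ^ 3 / s0 with hjd
  have h6912 : (6912 : ZMod p) ≠ 0 := by
    have : (6912 : ZMod p) = 2 ^ 8 * 3 ^ 3 := by norm_num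
    rw [this]
    exact mul_ne_zero (pow_ne_zero _ h2) (pow_ne_zero _ h3)
  have h46656 : (46656 : ZMod p) ≠ 0 := by
    have : (46656 : ZMod p) = 2 ^ 6 * 3 ^ 6 := by norm_num
    rw [this]
    exact mul_ne_zero (pow_ne_zero _ h2) (pow_ne_zero _ h3)
  have h31104 : (31104 : ZMod p) ≠ 0 := by
    have : (31104 : ZMod p) = 2 ^ 7 * 3 ^ 5 := by norm_num
    rw [this]
    exact mul_ne_zero (pow_ne_zero _ h2) (pow_ne_zero _ h3)
  have hj0 : j ≠ 0 := div_ne_zero (mul_ne_zero h6912 (pow_ne_zero _ hA')) hs'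
  have hj1 : j - 1728 = -(46656 * b0 ^ 2) / s0 := by
    rw [hjd, eq_div_iff hs', sub_mul, div_mul_cancel₀ _ hs', hs0]
    ring
  have hj2 : j ≠ 1728 := by
    intro h0
    have : j - 1728 = 0 := by rw [h0]; ring
    rw [hj1] at this
    exact div_ne_zero (neg_ne_zero.mpr (mul_ne_zero h46656 (pow_ne_zero _ hB'))) hs' this
  obtain ⟨hH, -, -⟩ := h (ZMod p) j h2 h3 hj0 hj2
  refine ⟨hH, ?_⟩
  set w : ZMod p := -(31104 * a0 * b0) / s0 with hw
  have hw0 : w ≠ 0 := div_ne_zero (neg_ne_zero.mpr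
    (mul_ne_zero (mul_ne_zero h31104 hA') hB')) hs'
  have ea : aj j = w ^ 2 * a0 := by
    unfold aj
    rw [hj1, hjd, hw]
    field_simp
    ring
  have eb : bj j = w ^ 3 * b0 := by
    unfold bj
    rw [hj1, hjd, hw]
    field_simp
    ring
  have hc : ringChar (ZMod p) ≠ 2 := by
    rw [ZMod.ringChar_zmod_n]
    omega
  have := TWI_.twist hc a0 b0 w hw0
  rw [ZMod.card] at this
  unfold Naff
  rw [ea, eb]
  exact this

end SSP
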