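import Pool.Agent.SSA.Targets
import Pool.Agent.SSP.Defs

/-!
# MP_d74fca_nt, p-adic part (helper22): targets
-/

open Polynomial

namespace SSP

open SSA

/-- PLC: the residue field of the algebraic closure of `ℚ_p` -/
def T_PLC : Prop := ∀ (p : ℕ) [Fact p.Prime], Nonempty (Plc p)

/-- AUT: automorphisms preserve the norm and induce automorphisms of the residue field -/
def T_AUT : Prop := ∀ (p : ℕ) [Fact p.Prime] (P : Plc p) (σ : PadicAlgCl p ≃ₐ[ℚ_[p]] PadicAlgCl p),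
  (∀ x, ‖σ x‖ = ‖x‖) ∧ ∃ τ : P.k ≃+* P.k, ∀ x, ‖x‖ ≤ 1 → P.red (σ x) = τ (P.red x)

/-- RIN: reduction of integers, sums, etc. -/
def T_RIN : Prop := ∀ (p : ℕ) [Fact p.Prime] (P : Plc p),
  P.red 0 = 0 ∧ (∀ x, ‖x‖ ≤ 1 → P.red (-x) = - P.red x) ∧
  (∀ n : ℤ, ‖(n : PadicAlgCl p)‖ ≤ 1 ∧ P.red (n : PadicAlgCl p) = (n : P.k)) ∧
  (∀ x y, ‖x‖ ≤ 1 → ‖y‖ ≤ 1 → (P.red x = P.red y ↔ ‖x - y‖ < 1)) ∧
  (∀ x, ‖x‖ = 1 → P.red x ≠ 0 ∧ P.red x⁻¹ = (P.red x)⁻¹) ∧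
  (∀ r s : ℤ, ¬ (p : ℤ) ∣ s → ‖(r : PadicAlgCl p) / s‖ ≤ 1 ∧
    P.red ((r : PadicAlgCl p) / s) = zc p P.k ((r : ZMod p) / (s : ZMod p)))

/-- RDP: reduction of polynomials -/
def T_RDP : Prop := ∀ (p : ℕ) [Fact p.Prime] (P : Plc p),
  (∀ (A : (PadicAlgCl p)[X]) (n : ℕ), IntP A → (redP P A).coeff n = P.red (A.coeff n)) ∧
  (∀ A B : (PadicAlgCl p)[X], IntP A → IntP B → IntP (A + B) ∧ redP P (A + B) = redP P A + redP P B) ∧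
  (∀ A B : (PadicAlgCl p)[X], IntP A → IntP B → IntP (A - B) ∧ redP P (A - B) = redP P A - redP P B) ∧
  (∀ A B : (PadicAlgCl p)[X], IntP A → IntP B → IntP (A * B) ∧ redP P (A * B) = redP P A * redP P B) ∧
  (∀ A : (PadicAlgCl p)[X], IntP A → IntP (derivative A) ∧
    redP P (derivative A) = derivative (redP P A)) ∧
  (∀ c, ‖c‖ ≤ 1 → IntP (C c) ∧ redP P (C c) = C (P.red c)) ∧
  (IntP (X : (PadicAlgCl p)[X]) ∧ redP P (X : (PadicAlgCl p)[X]) = X) ∧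
  (∀ A : (PadicAlgCl p)[X], A ≠ 0 → ∃ c : PadicAlgCl p, c ≠ 0 ∧ IntP (C c * A) ∧
    redP P (C c * A) ≠ 0) ∧
  (∀ A : (PadicAlgCl p)[X], IntP A → (redP P A).natDegree ≤ A.natDegree)

/-- RQA: algebra of reductions of rational functions -/
def T_RQA : Prop := ∀ (p : ℕ) [Fact p.Prime] (P : Plc p),
  (∀ R r r', RedQ P R r → RedQ P R r' → r = r') ∧
  (∀ R S r s, RedQ P R r → RedQ P S s → RedQ P (R + S) (r + s)) ∧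
  (∀ R S r s, RedQ P R r → RedQ P S s → RedQ P (R - S) (r - s)) ∧
  (∀ R S r s, RedQ P R r → RedQ P S s → RedQ P (R * S) (r * s)) ∧
  (∀ R S r s, RedQ P R r → RedQ P S s → s ≠ 0 → RedQ P (R / S) (r / s)) ∧
  (∀ R r, RedQ P R r → RedQ P (-R) (-r)) ∧
  (∀ (R : RatFunc (PadicAlgCl p)) (r : RatFunc P.k) (n : ℕ), RedQ P R r → RedQ P (R ^ n) (r ^ n)) ∧
  (∀ c, ‖c‖ ≤ 1 → RedQ P (RatFunc.C c) (RatFunc.C (P.red c))) ∧ RedQ P RatFunc.X RatFunc.X ∧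
  (∀ R r, RedQ P R r → RedQ P (rder R) (rder r)) ∧
  (∀ R r, RedQ P R r → rdeg r ≤ rdeg R)

/-- RQS: scaling -/
def T_RQS : Prop := ∀ (p : ℕ) [Fact p.Prime] (P : Plc p) (R : RatFunc (PadicAlgCl p)), R ≠ 0 →
  ∃ (c : PadicAlgCl p) (r : RatFunc P.k), c ≠ 0 ∧ r ≠ 0 ∧ RedQ P (RatFunc.C c⁻¹ * R) r

/-- RQC: composition and automorphisms -/
def T_RQC : Prop := ∀ (p : ℕ) [Fact p.Prime] (P : Plc p),
  (∀ g R γ r, RedQ P g γ → RedQ P R r → (∀ c, r ≠ RatFunc.C c) →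
    (∀ c, R ≠ RatFunc.C c) ∧ RedQ P (rcomp g R) (rcomp γ r)) ∧
  (∀ (σ : PadicAlgCl p ≃ₐ[ℚ_[p]] PadicAlgCl p) (τ : P.k ≃+* P.k),
    (∀ x, ‖x‖ ≤ 1 → P.red (σ x) = τ (P.red x)) → ∀ R r, RedQ P R r →
    RedQ P (rmap σ.toRingEquiv.toRingHom R) (rmap τ.toRingHom r))

/-- NCR: maps of good reduction have nonconstant reduction -/
def T_NCR : Prop := ∀ (p : ℕ) [Fact p.Prime] (P : Plc p), 5 ≤ p → ∀ (a b κ : PadicAlgCl p),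
  ‖a‖ ≤ 1 → ‖b‖ ≤ 1 → ‖κ‖ = 1 → 4 * P.red a ^ 3 + 27 * P.red b ^ 2 ≠ 0 →
  ∀ R : RatFunc (PadicAlgCl p), (∀ c, R ≠ RatFunc.C c) →
  rder R ^ 2 * ff a b = RatFunc.C κ * ev a b R →
  ∃ r : RatFunc P.k, RedQ P R r ∧ (∀ c, r ≠ RatFunc.C c) ∧
    rder r ^ 2 * ff (P.red a) (P.red b) = RatFunc.C (P.red κ) * ev (P.red a) (P.red b) r

/-- DGN: degree of multiplication by `n` -/
def T_DGN : Prop := ∀ (k : Type) [Field k] [IsAlgClosed k] (a b : k), Hyp a b →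
  (∀ n : ℕ, dd (n • idM a b) = n ^ 2) ∧ (∀ n : ℕ, 0 < n → n • idM a b ≠ 0) ∧
  (∀ n : ℕ, DD (n • idM a b) = (n : RatFunc k))

/-- RNI: reduction of multiplication by `n` -/
def T_RNI : Prop := ∀ (p : ℕ) [Fact p.Prime] (P : Plc p), 5 ≤ p → ∀ (a b : PadicAlgCl p),
  ‖a‖ ≤ 1 → ‖b‖ ≤ 1 → 4 * P.red a ^ 3 + 27 * P.red b ^ 2 ≠ 0 → ∀ n : ℕ, 0 < n →
  RedQ P (xr (n • idM a b)) (xr (n • idM (P.red a) (P.red b))) ∧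
  RedQ P (yr (n • idM a b)) (yr (n • idM (P.red a) (P.red b)))

/-- UNQ: a map fixing infinity is determined by its action on the differential (char 0) -/
def T_UNQ : Prop := ∀ (k : Type) [Field k] [CharZero k] [IsAlgClosed k] (a b : k), Hyp a b →
  ∀ (R₁ R₂ : RatFunc k) (κ : k), κ ≠ 0 →
  R₁.denom.natDegree < R₁.num.natDegree → R₂.denom.natDegree < R₂.num.natDegree →
  rder R₁ ^ 2 * ff a b = RatFunc.C κ * ev a b R₁ →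
  rder R₂ ^ 2 * ff a b = RatFunc.C κ * ev a b R₂ → R₁ = R₂

/-- JHP: the model has the right discriminant -/
def T_JHP : Prop := ∀ (k : Type) [Field k] (j : k), (2 : k) ≠ 0 → (3 : k) ≠ 0 → j ≠ 0 → j ≠ 1728 →
  Hyp (aj j) (bj j) ∧ aj j ≠ 0 ∧ bj j ≠ 0

/-- CHO: consequences of `CMD` in characteristic 0 -/
def T_CHO : Prop := ∀ (k : Type) [Field k] [CharZero k] [IsAlgClosed k] (j : k) (ℓ : ℕ), 2 ≤ ℓ →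
  CMD k j ℓ → ∃ c : k, c ^ 2 = -(ℓ : k) ∧ ∃ R R₁ R₂ : RatFunc k,
  R.denom.natDegree < R.num.natDegree ∧
  rder R ^ 2 * ff (aj j) (bj j) = RatFunc.C (c ^ 2) * ev (aj j) (bj j) R ∧
  rcomp R R = xr (ℓ • idM (aj j) (bj j)) ∧
  rder R₁ ^ 2 * ff (aj j) (bj j) = RatFunc.C ((1 + c) ^ 2) * ev (aj j) (bj j) R₁ ∧
  rder R₂ ^ 2 * ff (aj j) (bj j) = RatFunc.C ((1 - c) ^ 2) * ev (aj j) (bj j) R₂ ∧
  rcomp R₁ R₂ = xr ((ℓ + 1) • idM (aj j) (bj j)) ∧ rdeg R = ℓ ∧ rdeg R₁ = ℓ + 1 ∧ rdeg R₂ = ℓ + 1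

/-- TRN: transport of `CMD` along an isomorphism of fields -/
def T_TRN : Prop := ∀ (k k' : Type) [Field k] [Field k'] (σ : k ≃+* k') (j : k) (ℓ : ℕ),
  (2 : k) ≠ 0 → (3 : k) ≠ 0 → CMD k j ℓ → CMD k' (σ j) ℓ

/-- ISO: the complex numbers and the algebraic closure of `ℚ_p` -/
def T_ISO : Prop := ∀ (p : ℕ) [Fact p.Prime], Nonempty (ℂ ≃+* PadicAlgCl p)

/-- PARL: parity of the valuation and Galois -/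
def T_PARL : Prop := ∀ (p : ℕ) [Fact p.Prime] (ℓ : ℕ), p ≠ 2 → (∀ x : ZMod p, x ^ 2 ≠ -(ℓ : ZMod p)) →
  ∀ (Q : ℤ[X]) (r s : ℤ), Q.Monic → ¬ (p : ℤ) ∣ s → hv Q r s ≠ 0 → Odd (padicValInt p (hv Q r s)) →
  ∀ c : PadicAlgCl p, c ^ 2 = -(ℓ : PadicAlgCl p) →
  ∃ j₁ : PadicAlgCl p, aeval j₁ Q = 0 ∧ ‖j₁ - (r : PadicAlgCl p) / s‖ < 1 ∧
    ∃ σ : PadicAlgCl p ≃ₐ[ℚ_[p]] PadicAlgCl p, σ j₁ = j₁ ∧ σ c = -c

/-- NRT: a root near `j` -/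
def T_NRT : Prop := ∀ (p : ℕ) [Fact p.Prime] (Q : ℤ[X]) (r s : ℤ), Q.Monic → 0 < Q.natDegree →
  ¬ (p : ℤ) ∣ s → (p : ℤ) ∣ hv Q r s →
  ∃ j₁ : PadicAlgCl p, aeval j₁ Q = 0 ∧ ‖j₁ - (r : PadicAlgCl p) / s‖ < 1

/-- INR: the inert case -/
def T_INR : Prop := ∀ (p : ℕ) [Fact p.Prime] (P : Plc p) (ℓ : ℕ), 5 ≤ p → 2 ≤ ℓ →
  (∀ x : ZMod p, x ^ 2 ≠ -(ℓ : ZMod p)) →
  ∀ (Q : ℤ[X]) (r s : ℤ), Q.Monic → ¬ (p : ℤ) ∣ s → ¬ (p : ℤ) ∣ r → ¬ (p : ℤ) ∣ r - 1728 * s →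
  hv Q r s ≠ 0 → Odd (padicValInt p (hv Q r s)) →
  (∀ j₁ : PadicAlgCl p, aeval j₁ Q = 0 → CMD (PadicAlgCl p) j₁ ℓ) →
  ∃ (R : RatFunc P.k) (c : P.k) (σ : P.k ≃+* P.k),
    Dat p P.k (aj ((r : ZMod p) / s)) (bj ((r : ZMod p) / s)) ℓ R c σ

/-- RMR: the ramified case -/
def T_RMR : Prop := ∀ (p : ℕ) [Fact p.Prime] (P : Plc p), 5 ≤ p →
  ∀ (Q : ℤ[X]) (r s : ℤ), Q.Monic → 0 < Q.natDegree → ¬ (p : ℤ) ∣ s → ¬ (p : ℤ) ∣ r →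
  ¬ (p : ℤ) ∣ r - 1728 * s → (p : ℤ) ∣ hv Q r s →
  (∀ j₁ : PadicAlgCl p, aeval j₁ Q = 0 → CMD (PadicAlgCl p) j₁ p) →
  ∃ R : RatFunc P.k,
    rder R ^ 2 * ff (zc p P.k (aj ((r : ZMod p) / s))) (zc p P.k (bj ((r : ZMod p) / s))) =
      ev (zc p P.k (aj ((r : ZMod p) / s))) (zc p P.k (bj ((r : ZMod p) / s))) R ∧
    rdeg R = p + 1

end SSP
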