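import Pool.Agent.SSA.TargetsB
import Pool.Agent.SSP.Targets

/-!
# MP_d74fca_nt, p-adic part (helper22): further targets (composite discriminants)
-/

open Polynomial

namespace SSP

open SSA

/-- `j` is the invariant of a curve with an endomorphism `α`, `α^2 = -D`; compositions of all
`x ± α` are recorded -/
def CME (k : Type) [Field k] (j : k) (D : ℕ) : Prop :=
  j ≠ 0 ∧ j ≠ 1728 ∧ ∃ c : k, c ^ 2 = -(D : k) ∧ ∃ α : MM (aj j) (bj j),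
    DD α = RatFunc.C c ∧ (xr α).denom.natDegree < (xr α).num.natDegree ∧
    ∀ x : ℕ, rcomp (xr (x • idM (aj j) (bj j) + α)) (xr (x • idM (aj j) (bj j) - α)) =
      xr ((x ^ 2 + D) • idM (aj j) (bj j))

/-- CEM -/
def T_CEM : Prop := ∀ (k : Type) [Field k] (j : k) (D : ℕ), (2 : k) ≠ 0 → (3 : k) ≠ 0 →
  CME k j D → CMD k j D

/-- TRX: transport of `CME` along an isomorphism of fields -/
def T_TRX : Prop := ∀ (k k' : Type) [Field k] [Field k'] (σ : k ≃+* k') (j : k) (D : ℕ),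
  (2 : k) ≠ 0 → (3 : k) ≠ 0 → CME k j D → CME k' (σ j) D

/-- RBX: reduction of `α` at a prime dividing `D` -/
def T_RBX : Prop := ∀ (p : ℕ) [Fact p.Prime] (P : Plc p) (D : ℕ), 5 ≤ p → 0 < D → p ∣ D →
  ∀ (Q : ℤ[X]) (r s : ℤ), Q.Monic → 0 < Q.natDegree → ¬ (p : ℤ) ∣ s → ¬ (p : ℤ) ∣ r →
  ¬ (p : ℤ) ∣ r - 1728 * s → (p : ℤ) ∣ hv Q r s →
  (∀ j₁ : PadicAlgCl p, aeval j₁ Q = 0 → CME (PadicAlgCl p) j₁ D) →
  ∃ β : MM (zc p P.k (aj ((r : ZMod p) / s))) (zc p P.k (bj ((r : ZMod p) / s))),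
    DD β = 0 ∧ dd β = D ∧
    BB β (idM (zc p P.k (aj ((r : ZMod p) / s))) (zc p P.k (bj ((r : ZMod p) / s)))) = 0

/-- KIN: the arithmetic input in final form, inert primes -/
def T_KIN : Prop := ∀ (p : ℕ) [Fact p.Prime] (P : Plc p) (D : ℕ), 5 ≤ p → 2 ≤ D →
  (∀ x : ZMod p, x ^ 2 ≠ -(D : ZMod p)) →
  ∀ (Q : ℤ[X]) (r s : ℤ), Q.Monic → ¬ (p : ℤ) ∣ s → ¬ (p : ℤ) ∣ r → ¬ (p : ℤ) ∣ r - 1728 * s →
  hv Q r s ≠ 0 → Odd (padicValInt p (hv Q r s)) →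
  (∀ z : ℂ, aeval z Q = 0 → CME ℂ z D) →
  (∃ (R : RatFunc P.k) (c : P.k) (σ : P.k ≃+* P.k),
    Dat p P.k (aj ((r : ZMod p) / s)) (bj ((r : ZMod p) / s)) D R c σ) ∧
  (Squarefree D → Naff p (aj ((r : ZMod p) / s)) (bj ((r : ZMod p) / s)) = p)

/-- KRM: the arithmetic input in final form, primes dividing `D` -/
def T_KRM : Prop := ∀ (p : ℕ) [Fact p.Prime] (D : ℕ), 5 ≤ p → Squarefree D → p ∣ D →
  ∀ (Q : ℤ[X]) (r s : ℤ), Q.Monic → 0 < Q.natDegree → ¬ (p : ℤ) ∣ s → ¬ (p : ℤ) ∣ r →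
  ¬ (p : ℤ) ∣ r - 1728 * s → (p : ℤ) ∣ hv Q r s →
  (∀ z : ℂ, aeval z Q = 0 → CME ℂ z D) →
  Naff p (aj ((r : ZMod p) / s)) (bj ((r : ZMod p) / s)) = p

/-- TWI: the curve `y^2 = x^3+Ax+B` and the model of its `j`-invariant have supersingular
reduction at the same primes -/
def T_TWI : Prop := ∀ (p : ℕ) [Fact p.Prime] (A B : ℤ), 5 ≤ p → ¬ (p : ℤ) ∣ A → ¬ (p : ℤ) ∣ B →
  ¬ (p : ℤ) ∣ 4 * A ^ 3 + 27 * B ^ 2 →
  Hyp (aj ((6912 * A ^ 3 : ℤ) / (4 * A ^ 3 + 27 * B ^ 2 : ℤ) : ZMod p))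
    (bj ((6912 * A ^ 3 : ℤ) / (4 * A ^ 3 + 27 * B ^ 2 : ℤ) : ZMod p)) ∧
  (Naff p (aj ((6912 * A ^ 3 : ℤ) / (4 * A ^ 3 + 27 * B ^ 2 : ℤ) : ZMod p))
    (bj ((6912 * A ^ 3 : ℤ) / (4 * A ^ 3 + 27 * B ^ 2 : ℤ) : ZMod p)) = p ↔
    Nat.card {P : ZMod p × ZMod p //
      P.2 ^ 2 = P.1 ^ 3 + (A : ZMod p) * P.1 + (B : ZMod p)} = p)

end SSP
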