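import Pool.Agent.SSP.Targets

/-!
# MP_d74fca_nt, p-adic part: reduction of integers
-/

set_option autoImplicit false

open Polynomial

namespace SSP

open SSA

namespace RIN_

variable {p : ℕ} [Fact p.Prime]

lemma norm_int (n : ℤ) : ‖(n : PadicAlgCl p)‖ = ‖(n : ℚ_[p])‖ := by
  rw [← map_intCast (algebraMap ℚ_[p] (PadicAlgCl p)) n]
  exact PadicAlgCl.norm_extends p (n : ℚ_[p])

lemma norm_int_le (n : ℤ) : ‖(n : PadicAlgCl p)‖ ≤ 1 := by
  rw [norm_int]
  exact Padic.norm_int_le_one n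

lemma norm_int_eq {s : ℤ} (h : ¬ (p : ℤ) ∣ s) : ‖(s : PadicAlgCl p)‖ = 1 := by
  refine le_antisymm (norm_int_le s) ?_
  by_contra hc
  push Not at hc
  rw [norm_int, Padic.norm_intCast_lt_one_iff] at hc
  exact h hc

lemma norm_sub_le {x y : PadicAlgCl p} (hx : ‖x‖ ≤ 1) (hy : ‖y‖ ≤ 1) : ‖x - y‖ ≤ 1 := by
  have h1 := PadicAlgCl.isNonarchimedean p x (-y)
  rw [norm_neg, ← sub_eq_add_neg] at h1
  exact h1.trans (max_le hx hy)

end RIN_

open RIN_ in
theorem p_RIN : T_RIN := by
  intro p _ P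
  have h0 : P.red 0 = 0 := (P.red_zero 0 (by simp)).2 (by simp)
  have hneg : ∀ x, ‖x‖ ≤ 1 → P.red (-x) = - P.red x := by
    intro x hx
    have h1 := P.red_add x (-x) hx (by rwa [norm_neg])
    rw [add_neg_cancel, h0] at h1
    exact (neg_eq_of_add_eq_zero_right h1.symm).symm
  have hnat : ∀ n : ℕ, P.red (n : PadicAlgCl p) = (n : P.k) := by
    intro n
    induction n with
    | zero => simp [h0]
    | succ n ih =>
      push_cast
      have h1 : ‖(n : PadicAlgCl p)‖ ≤ 1 := by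
        have := norm_int_le (p := p) (n : ℤ)
        simpa using this
      rw [P.red_add _ _ h1 (by simp), ih, P.red_one]
  have hint : ∀ n : ℤ, P.red (n : PadicAlgCl p) = (n : P.k) := by
    intro n
    obtain ⟨m, rfl | rfl⟩ := Int.eq_nat_or_neg n
    · push_cast
      exact hnat m
    · push_cast
      have h1 : ‖(m : PadicAlgCl p)‖ ≤ 1 := by
        have := norm_int_le (p := p) (m : ℤ)
        simpa using this
      rw [hneg _ h1, hnat m]
  have hinv : ∀ x, ‖x‖ = 1 → P.red x ≠ 0 ∧ P.red x⁻¹ = (P.red x)⁻¹ := by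
    intro x hx
    have h1 : P.red x ≠ 0 := by
      intro h
      rw [P.red_zero x hx.le, hx] at h
      exact lt_irrefl _ h
    refine ⟨h1, ?_⟩
    have hx0 : x ≠ 0 := by
      intro h
      rw [h, norm_zero] at hx
      exact zero_ne_one hx
    have h2 := P.red_mul x x⁻¹ hx.le (by rw [norm_inv, hx, inv_one])
    rw [mul_inv_cancel₀ hx0, P.red_one] at h2
    exact eq_inv_of_mul_eq_one_right h2.symm
  refine ⟨h0, hneg, fun n => ⟨norm_int_le n, hint n⟩, ?_, hinv, ?_⟩
  · intro x y hx hy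
    have h1 := P.red_add x (-y) hx (by rwa [norm_neg])
    rw [hneg y hy, ← sub_eq_add_neg, ← sub_eq_add_neg] at h1
    have h2 := P.red_zero (x - y) (norm_sub_le hx hy)
    rw [← h2, h1, sub_eq_zero]
  · intro r s hs
    have h1 := norm_int_eq hs
    have h2 : ‖(s : PadicAlgCl p)⁻¹‖ ≤ 1 := by rw [norm_inv, h1, inv_one]
    constructor
    · rw [norm_div, h1, div_one]
      exact norm_int_le r
    · rw [div_eq_mul_inv, P.red_mul _ _ (norm_int_le r) h2, (hinv _ h1).2, hint, hint,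
        map_div₀, map_intCast, map_intCast, div_eq_mul_inv]

end SSP
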